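import Pool.Agent.Hhelper49.CWE.FewAsym

set_option autoImplicit false

/-! Distances slightly below the Plotkin line: the words with a given trace on a small set are few. -/

namespace Pool.Agent.Hhelper49.CWE

open Pool.Agent.Hhelper49.CWC Pool.Agent.Hhelper49.CWD

/-- The averaging bound for words with the same trace outside `S`. -/
theorem fibre_bound (n d w : ℕ) (S : Finset (Fin n)) (D : Finset (Finset (Fin n)))
    (hw : ∀ x ∈ D, (x ∩ S).card = w) (hsame : ∀ x ∈ D, ∀ y ∈ D, x \ S = y \ S)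
    (hD : ∀ x ∈ D, ∀ y ∈ D, x ≠ y → d ≤ (symmDiff x y).card) :
    (D.card : ℝ) * ((D.card : ℝ) - 1) * (d * S.card) ≤
      2 * (D.card : ℝ) ^ 2 * (w * ((S.card : ℝ) - w)) := by
  classical
  set N : ℝ := (D.card : ℝ) with hN
  set f : Fin n → ℝ := fun v => ∑ x ∈ D, (if v ∈ x then (1 : ℝ) else 0) with hf
  have hfilt : ∀ x : Finset (Fin n), S.filter (fun v => v ∈ x) = x ∩ S := by
    intro x
    ext v
    simp only [Finset.mem_filter, Finset.mem_inter]
    exact and_comm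
  have h2 : ∑ v ∈ S, f v = N * w := by
    rw [hf, Finset.sum_comm]
    have h3 : ∀ x ∈ D, ∑ v ∈ S, (if v ∈ x then (1 : ℝ) else 0) = w := by
      intro x hx
      rw [Finset.sum_boole, hfilt, hw x hx]
    rw [Finset.sum_congr rfl h3, Finset.sum_const, nsmul_eq_mul]
  have h3 : ∑ v ∈ S, f v ^ 2 = ∑ x ∈ D, ∑ y ∈ D, (((x ∩ y) ∩ S).card : ℝ) := by
    have h4 : ∀ v ∈ S, f v ^ 2 = ∑ x ∈ D, ∑ y ∈ D, (if v ∈ x ∩ y then (1 : ℝ) else 0) := by
      intro v _
      rw [hf, sq, Finset.sum_mul_sum]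
      refine Finset.sum_congr rfl fun x _ => Finset.sum_congr rfl fun y _ => ?_
      by_cases h5 : v ∈ x <;> by_cases h6 : v ∈ y <;> simp [h5, h6]
    rw [Finset.sum_congr rfl h4, Finset.sum_comm]
    refine Finset.sum_congr rfl fun x _ => ?_
    rw [Finset.sum_comm]
    refine Finset.sum_congr rfl fun y _ => ?_
    rw [Finset.sum_boole, hfilt]
  have hpair : ∀ x ∈ D, ∀ y ∈ D, 2 * (((x ∩ y) ∩ S).card : ℝ) ≤
      (2 * (w : ℝ) - d) + (if y = x then (d : ℝ) else 0) := by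
    intro x hx y hy
    by_cases h : y = x
    · subst h
      rw [if_pos rfl, Finset.inter_self, hw y hy]
      linarith
    · rw [if_neg h]
      have h1 := hD x hx y hy (Ne.symm h)
      have h4 : symmDiff x y = symmDiff (x ∩ S) (y ∩ S) := by
        ext v
        have h5 := hsame x hx y hy
        have h6 : v ∈ x \ S ↔ v ∈ y \ S := by rw [h5]
        simp only [Finset.mem_sdiff] at h6
        simp only [Finset.mem_symmDiff, Finset.mem_inter]
        by_cases h7 : v ∈ S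
        · simp [h7]
        · simp only [h7, not_false_eq_true, and_true] at h6
          simp [h7, h6]
      have h5 := card_symmDiff_add (x ∩ S) (y ∩ S)
      rw [← h4, hw x hx, hw y hy] at h5
      have h6 : (x ∩ S) ∩ (y ∩ S) = (x ∩ y) ∩ S := by
        ext v
        simp only [Finset.mem_inter]
        tauto
      rw [h6] at h5
      have h7 : ((symmDiff x y).card : ℝ) + 2 * (((x ∩ y) ∩ S).card : ℝ) = w + w := by
        exact_mod_cast h5
      have h8 : (d : ℝ) ≤ ((symmDiff x y).card : ℝ) := by exact_mod_cast h1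
      linarith
  have h4 : ∑ x ∈ D, ∑ y ∈ D, (2 * (((x ∩ y) ∩ S).card : ℝ)) ≤ N * (N * (2 * (w : ℝ) - d) + d) := by
    have h5 : ∀ x ∈ D, ∑ y ∈ D, (2 * (((x ∩ y) ∩ S).card : ℝ)) ≤ N * (2 * (w : ℝ) - d) + d := by
      intro x hx
      refine (Finset.sum_le_sum fun y hy => hpair x hx y hy).trans (le_of_eq ?_)
      rw [Finset.sum_add_distrib, Finset.sum_const, nsmul_eq_mul, Finset.sum_ite_eq' D x,
        if_pos hx]
    refine (Finset.sum_le_sum h5).trans (le_of_eq ?_)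
    rw [Finset.sum_const, nsmul_eq_mul]
  have h7 : (∑ v ∈ S, f v) ^ 2 ≤ (S.card : ℝ) * ∑ v ∈ S, f v ^ 2 := sq_sum_le_card_mul_sum_sq
  rw [h2, h3] at h7
  simp only [← Finset.mul_sum] at h4
  have h8 := mul_le_mul_of_nonneg_left h4 (Nat.cast_nonneg S.card (α := ℝ))
  linarith [(by ring : (N * (w : ℝ)) ^ 2 = N ^ 2 * (w * w)),
    (by ring : N * (N - 1) * (d * (S.card : ℝ)) = (S.card : ℝ) * (2 * N * N * w) -
      S.card * (N * (N * (2 * (w : ℝ) - d) + d))),
    (by ring : 2 * N ^ 2 * (w * ((S.card : ℝ) - w)) = (S.card : ℝ) * (2 * N * N * w) -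
      2 * (N ^ 2 * (w * w)))]

theorem fibre_card (n d w : ℕ) (γ : ℝ) (hd : 1 ≤ d) (hγ : 0 < γ) (S : Finset (Fin n))
    (hS : 0 < S.card) (D : Finset (Finset (Fin n)))
    (hw : ∀ x ∈ D, (x ∩ S).card = w) (hsame : ∀ x ∈ D, ∀ y ∈ D, x \ S = y \ S)
    (hD : ∀ x ∈ D, ∀ y ∈ D, x ≠ y → d ≤ (symmDiff x y).card)
    (hsmall : 2 * ((w : ℝ) * ((S.card : ℝ) - w)) ≤ (1 - γ) * (d * S.card)) :
    (D.card : ℝ) ≤ 1 / γ := by
  have h1 := fibre_bound n d w S D hw hsame hD
  rcases Nat.eq_zero_or_pos D.card with h0 | h0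
  · rw [h0, Nat.cast_zero]
    positivity
  set N : ℝ := (D.card : ℝ) with hN
  have hN0 : 0 < N := by
    rw [hN]
    exact_mod_cast h0
  have hdS : 0 < (d : ℝ) * S.card := by
    have h2 : (0 : ℝ) < d := by exact_mod_cast hd
    have h3 : (0 : ℝ) < S.card := by exact_mod_cast hS
    positivity
  have h2 : N ^ 2 * (2 * ((w : ℝ) * ((S.card : ℝ) - w))) ≤ N ^ 2 * ((1 - γ) * (d * S.card)) :=
    mul_le_mul_of_nonneg_left hsmall (by positivity)
  have h3 : (γ * N) * (N * (d * S.card)) ≤ 1 * (N * ((d : ℝ) * S.card)) := by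
    linarith [(by ring : N * (N - 1) * ((d : ℝ) * S.card) = N ^ 2 * (d * S.card) - N * (d * S.card)),
      (by ring : N ^ 2 * ((1 - γ) * ((d : ℝ) * S.card)) = N ^ 2 * (d * S.card) -
        (γ * N) * (N * (d * S.card))),
      (by ring : N ^ 2 * (2 * ((w : ℝ) * ((S.card : ℝ) - w))) =
        2 * N ^ 2 * (w * ((S.card : ℝ) - w)))]
  have h4 := le_of_mul_le_mul_right h3 (by positivity)
  rw [le_div_iff₀ hγ]
  linarith

/-- Codes just below the Plotkin line are small. -/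
theorem near_small (n d w m : ℕ) (γ : ℝ) (hd : 1 ≤ d) (hγ : 0 < γ) (hm : m < n)
    (C : Finset (Finset (Fin n))) (hC : ∀ x ∈ C, x.card = w)
    (hD : ∀ x ∈ C, ∀ y ∈ C, x ≠ y → d ≤ (symmDiff x y).card)
    (hsmall : ∀ u : ℕ, u ≤ w → 2 * ((u : ℝ) * (((n : ℝ) - m) - u)) ≤ (1 - γ) * (d * ((n : ℝ) - m))) :
    (C.card : ℝ) ≤ Real.exp m * (1 / γ) := by
  classical
  have huniv : m ≤ (Finset.univ : Finset (Fin n)).card := by
    rw [Finset.card_univ, Fintype.card_fin]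
    exact hm.le
  obtain ⟨T, -, hT⟩ := Finset.exists_subset_card_eq huniv
  set S := Tᶜ with hS
  have hSc : S.card = n - m := by
    rw [hS, Finset.card_compl, Fintype.card_fin, hT]
  have hScR : (S.card : ℝ) = (n : ℝ) - m := by
    rw [hSc, Nat.cast_sub hm.le]
  have hmaps : ∀ x ∈ C, x ∩ T ∈ T.powerset := fun x _ =>
    Finset.mem_powerset.mpr Finset.inter_subset_right
  rw [Finset.card_eq_sum_card_fiberwise hmaps]
  push_cast
  have hfib : ∀ A ∈ T.powerset, ((C.filter (fun x => x ∩ T = A)).card : ℝ) ≤ 1 / γ := by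
    intro A hA
    rw [Finset.mem_powerset] at hA
    rcases Finset.eq_empty_or_nonempty (C.filter (fun x => x ∩ T = A)) with he | ⟨x₀, hx₀⟩
    · rw [he, Finset.card_empty, Nat.cast_zero]
      positivity
    have hinter : ∀ x : Finset (Fin n), x ∩ S = x \ T := by
      intro x
      ext v
      simp [hS]
    have hsd : ∀ x : Finset (Fin n), x \ S = x ∩ T := by
      intro x
      ext v
      simp [hS]
    have hcw : ∀ x ∈ C.filter (fun x => x ∩ T = A), (x ∩ S).card = w - A.card := by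
      intro x hx
      rw [Finset.mem_filter] at hx
      have h1 := Finset.card_sdiff_add_card_inter x T
      rw [hx.2, hC x hx.1] at h1
      rw [hinter]
      omega
    apply fibre_card n d (w - A.card) γ hd hγ S (by rw [hSc]; omega) _ hcw
    · intro x hx y hy
      rw [hsd, hsd, (Finset.mem_filter.mp hx).2, (Finset.mem_filter.mp hy).2]
    · intro x hx y hy hne
      exact hD x (Finset.mem_filter.mp hx).1 y (Finset.mem_filter.mp hy).1 hne
    · rw [hScR]
      exact hsmall (w - A.card) (Nat.sub_le _ _)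
  refine (Finset.sum_le_sum hfib).trans ?_
  rw [Finset.sum_const, nsmul_eq_mul, Finset.card_powerset, hT]
  apply mul_le_mul_of_nonneg_right _ (by positivity)
  push_cast
  have h1 : (2 : ℝ) ≤ Real.exp 1 := by
    have := Real.add_one_le_exp (1 : ℝ)
    linarith
  calc (2 : ℝ) ^ m ≤ Real.exp 1 ^ m := pow_le_pow_left₀ (by norm_num) h1 m
    _ = Real.exp m := by
      rw [← Real.exp_nat_mul, mul_one]

/-- Distances from `(1 - ζ)` times the Plotkin line on. -/
theorem near_plotkin (ε : ℝ) (hε : 0 < ε) (hε1 : ε ≤ 1) : ∃ ζ : ℝ, 0 < ζ ∧ ∃ n₀ : ℕ,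
    ∀ n : ℕ, n₀ ≤ n → ∀ d w₁ w₂ : ℕ, 1 ≤ d → w₁ < w₂ → 2 * w₂ ≤ n → ε * n ≤ (w₂ : ℝ) - w₁ →
    (1 - ζ) * (2 * w₁ * ((n : ℝ) - w₁)) ≤ d * n → Mono n d w₁ w₂ := by
  obtain ⟨c, hc, n₁, hn₁⟩ := few_asym ε hε hε1
  set μ : ℝ := min ε (c / 2) with hμ
  have hμ0 : 0 < μ := lt_min hε (by positivity)
  have hμε : μ ≤ ε := min_le_left _ _
  have hμc : μ ≤ c / 2 := min_le_right _ _
  set γ : ℝ := ε * μ / 64 with hγ
  have hγ0 : 0 < γ := by positivity
  have hγ1 : γ ≤ 1 / 64 := by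
    have h1 : ε * μ ≤ 1 * 1 := mul_le_mul hε1 (hμε.trans hε1) hμ0.le (by norm_num)
    rw [hγ]
    linarith
  obtain ⟨n₂, hn₂⟩ := exists_nat_ge (2 / μ)
  obtain ⟨n₃, hn₃⟩ := exists_nat_ge (2 / (c * γ))
  refine ⟨γ, hγ0, max n₁ (max n₂ (max n₃ 14)), ?_⟩
  intro n hn d w₁ w₂ hd h12 h2 hk hP
  have m1 : n₁ ≤ n := (le_max_left _ _).trans hn
  have m2 : n₂ ≤ n := (le_max_left _ _).trans ((le_max_right _ _).trans hn)
  have m3 : n₃ ≤ n :=
    (le_max_left _ _).trans ((le_max_right _ _).trans ((le_max_right _ _).trans hn))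
  have m4 : 14 ≤ n :=
    (le_max_right _ _).trans ((le_max_right _ _).trans ((le_max_right _ _).trans hn))
  have r2 : 2 ≤ μ * (n : ℝ) := by
    have h1 : 2 / μ ≤ (n : ℝ) := hn₂.trans (by exact_mod_cast m2)
    rw [div_le_iff₀ hμ0] at h1
    linarith
  have r3 : 2 ≤ (c * γ) * (n : ℝ) := by
    have h1 : 2 / (c * γ) ≤ (n : ℝ) := hn₃.trans (by exact_mod_cast m3)
    rw [div_le_iff₀ (by positivity)] at h1
    linarith
  have hnpos : (0 : ℝ) < n := by
    have : 0 < n := by omega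
    exact_mod_cast this
  have hnR : 2 * (w₂ : ℝ) ≤ n := by exact_mod_cast h2
  have hw0 : (0 : ℝ) ≤ w₁ := Nat.cast_nonneg _
  have hεn : 0 < ε * (n : ℝ) := by positivity
  rcases lt_or_ge (w₁ : ℝ) (ε / 16 * n) with hs | hs
  · apply mono_double8 n d w₁ w₂ hd _ h2 _
    · have h3 : 2 * (w₁ : ℝ) ≤ w₂ := by linarith
      exact_mod_cast h3
    · have h3 : (16 : ℝ) * w₁ ≤ n := by
        have : ε * (n : ℝ) ≤ 1 * n := mul_le_mul_of_nonneg_right hε1 hnpos.le
        linarith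
      have h4 : 16 * w₁ ≤ n := by exact_mod_cast h3
      omega
  intro C hC hD
  refine hn₁ n m1 d w₁ w₂ hd h12 h2 hk C ?_ hC hD
  set m := ⌊μ * (n : ℝ)⌋₊ with hm
  have hm1 : (m : ℝ) ≤ μ * n := Nat.floor_le (by positivity)
  have hm2 : μ * n / 2 ≤ (m : ℝ) := by
    have h3 : μ * (n : ℝ) - 1 < m := Nat.sub_one_lt_floor _
    linarith
  have hmε : (m : ℝ) ≤ ε * n := hm1.trans (mul_le_mul_of_nonneg_right hμε hnpos.le)
  have hmn : (m : ℝ) < n := by linarith
  have hm0 : (0 : ℝ) ≤ m := Nat.cast_nonneg _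
  have hmnN : m < n := by exact_mod_cast hmn
  have h5 := near_small n d w₁ m γ hd hγ0 hmnN C hC hD (by
    intro u hu
    have huR : (u : ℝ) ≤ w₁ := by exact_mod_cast hu
    have hu0 : (0 : ℝ) ≤ u := Nat.cast_nonneg _
    have h6 : (u : ℝ) * (((n : ℝ) - m) - u) ≤ w₁ * (((n : ℝ) - m) - w₁) := by
      have h7 : 0 ≤ ((w₁ : ℝ) - u) * (((n : ℝ) - m) - w₁ - u) := by
        apply mul_nonneg <;> linarith
      linarith [(by ring : ((w₁ : ℝ) - u) * (((n : ℝ) - m) - w₁ - u) =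
        w₁ * (((n : ℝ) - m) - w₁) - u * (((n : ℝ) - m) - u))]
    have h7 : 2 * γ * (((n : ℝ) - w₁) * (n - m)) ≤ w₁ * m := by
      have h8 : ((n : ℝ) - w₁) * (n - m) ≤ n * n :=
        mul_le_mul (by linarith) (by linarith) (by linarith) hnpos.le
      have h9 : 2 * γ * (((n : ℝ) - w₁) * (n - m)) ≤ 2 * γ * (n * n) :=
        mul_le_mul_of_nonneg_left h8 (by positivity)
      have h10 : (ε / 16 * n) * (μ * n / 2) ≤ w₁ * m := mul_le_mul hs hm2 (by positivity) hw0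
      have h11 : 2 * γ * ((n : ℝ) * n) = (ε / 16 * n) * (μ * n / 2) := by
        rw [hγ]
        ring
      linarith
    have hA : 0 ≤ (w₁ : ℝ) * ((n - w₁) * (n - m)) := by
      apply mul_nonneg hw0
      apply mul_nonneg <;> linarith
    have h12' : (2 * (w₁ : ℝ) * (((n : ℝ) - m) - w₁)) * n ≤
        (1 - γ) * ((1 - γ) * (2 * w₁ * ((n : ℝ) - w₁))) * (n - m) := by
      have h13 : (w₁ : ℝ) * (2 * γ * (((n : ℝ) - w₁) * (n - m))) ≤ w₁ * (w₁ * m) :=
        mul_le_mul_of_nonneg_left h7 hw0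
      have h14 : 0 ≤ γ ^ 2 * ((w₁ : ℝ) * ((n - w₁) * (n - m))) := by positivity
      linarith [(by ring : (2 * (w₁ : ℝ) * (((n : ℝ) - m) - w₁)) * n =
          2 * ((w₁ : ℝ) * ((n - w₁) * (n - m))) - 2 * (w₁ * (w₁ * m))),
        (by ring : (1 - γ) * ((1 - γ) * (2 * w₁ * ((n : ℝ) - w₁))) * (n - m) =
          2 * ((w₁ : ℝ) * ((n - w₁) * (n - m))) -
          2 * ((w₁ : ℝ) * (2 * γ * (((n : ℝ) - w₁) * (n - m)))) +
          2 * (γ ^ 2 * ((w₁ : ℝ) * ((n - w₁) * (n - m)))))]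
    have h15 : (1 - γ) * ((1 - γ) * (2 * w₁ * ((n : ℝ) - w₁))) * (n - m) ≤
        (1 - γ) * (d * n) * (n - m) := by
      apply mul_le_mul_of_nonneg_right _ (by linarith)
      exact mul_le_mul_of_nonneg_left hP (by linarith)
    have h16 : (2 * ((u : ℝ) * (((n : ℝ) - m) - u))) * n ≤
        ((1 - γ) * (d * ((n : ℝ) - m))) * n := by
      have h17 := mul_le_mul_of_nonneg_right h6 hnpos.le
      linarith [(by ring : ((1 - γ) * (d * ((n : ℝ) - m))) * n = (1 - γ) * (d * n) * (n - m)),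
        (by ring : (2 * (w₁ : ℝ) * (((n : ℝ) - m) - w₁)) * n =
          2 * ((w₁ * (((n : ℝ) - m) - w₁)) * n)),
        (by ring : (2 * ((u : ℝ) * (((n : ℝ) - m) - u))) * n =
          2 * ((u * (((n : ℝ) - m) - u)) * n))]
    exact le_of_mul_le_mul_right h16 hnpos)
  refine h5.trans ?_
  have h6 : Real.exp (m : ℝ) ≤ Real.exp (c / 2 * n) := by
    apply Real.exp_le_exp.mpr
    exact hm1.trans (mul_le_mul_of_nonneg_right hμc hnpos.le)
  have h7 : 1 / γ ≤ Real.exp (c / 2 * n) := by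
    have h8 := Real.add_one_le_exp (c / 2 * (n : ℝ))
    have h9 : 1 / γ ≤ c / 2 * (n : ℝ) := by
      rw [div_le_iff₀ hγ0]
      linarith
    linarith
  calc Real.exp (m : ℝ) * (1 / γ) ≤ Real.exp (c / 2 * n) * Real.exp (c / 2 * n) :=
        mul_le_mul h6 h7 (by positivity) (Real.exp_pos _).le
    _ = Real.exp (c * n) := by
        rw [← Real.exp_add]
        congr 1
        ring

end Pool.Agent.Hhelper49.CWE
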