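import Pool.Agent.Hhelper49.CWE.Few2
import Pool.Agent.Hhelper49.CWE.Near

set_option autoImplicit false

/-! Adding one point to every word. -/

namespace Pool.Agent.Hhelper49.CWE

open Pool.Agent.Hhelper49.CWC Pool.Agent.Hhelper49.CWD

theorem inter_insert_le {V : Type*} [DecidableEq V] (x y : Finset V) (u v : V) (huv : u ≠ v)
    (h : ¬ (u ∈ y ∧ v ∈ x)) : (insert u x ∩ insert v y).card ≤ (x ∩ y).card + 1 := by
  by_cases hu : u ∈ y
  · have hv : v ∉ x := fun hv => h ⟨hu, hv⟩
    have h1 : insert u x ∩ insert v y ⊆ insert u (x ∩ y) := by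
      intro z hz
      rw [Finset.mem_inter, Finset.mem_insert, Finset.mem_insert] at hz
      rw [Finset.mem_insert, Finset.mem_inter]
      rcases hz with ⟨rfl | h2, rfl | h3⟩
      · exact Or.inl rfl
      · exact Or.inl rfl
      · exact absurd h2 hv
      · exact Or.inr ⟨h2, h3⟩
    exact (Finset.card_le_card h1).trans (Finset.card_insert_le _ _)
  · have h1 : insert u x ∩ insert v y ⊆ insert v (x ∩ y) := by
      intro z hz
      rw [Finset.mem_inter, Finset.mem_insert, Finset.mem_insert] at hz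
      rw [Finset.mem_insert, Finset.mem_inter]
      rcases hz with ⟨rfl | h2, rfl | h3⟩
      · exact absurd rfl huv
      · exact absurd h3 hu
      · exact Or.inl rfl
      · exact Or.inr ⟨h2, h3⟩
    exact (Finset.card_le_card h1).trans (Finset.card_insert_le _ _)

theorem inter_insert_le2 {V : Type*} [DecidableEq V] (x y : Finset V) (u v : V) :
    (insert u x ∩ insert v y).card ≤ (x ∩ y).card + 2 := by
  have h1 : insert u x ∩ insert v y ⊆ insert u (insert v (x ∩ y)) := by
    intro z hz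
    rw [Finset.mem_inter, Finset.mem_insert, Finset.mem_insert] at hz
    rw [Finset.mem_insert, Finset.mem_insert, Finset.mem_inter]
    rcases hz with ⟨rfl | h2, rfl | h3⟩
    · exact Or.inl rfl
    · exact Or.inl rfl
    · exact Or.inr (Or.inl rfl)
    · exact Or.inr (Or.inr ⟨h2, h3⟩)
  have h2 := Finset.card_insert_le u (insert v (x ∩ y))
  have h3 := Finset.card_insert_le v (x ∩ y)
  have h4 := Finset.card_le_card h1
  omega

/-- A point is added to every word; two words at distance at most `d + 1` must not contain the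
points of each other. -/
theorem add_point {V : Type*} [DecidableEq V] (d w : ℕ) (hd : 1 ≤ d) (C : Finset (Finset V))
    (v : Finset V → V) (hC : ∀ x ∈ C, x.card = w)
    (hD : ∀ x ∈ C, ∀ y ∈ C, x ≠ y → d ≤ (symmDiff x y).card) (hv : ∀ x ∈ C, v x ∉ x)
    (hno : ∀ x ∈ C, ∀ y ∈ C, x ≠ y → (symmDiff x y).card ≤ d + 1 → ¬ (v x ∈ y ∧ v y ∈ x)) :
    ∃ C' : Finset (Finset V), C'.card = C.card ∧ (∀ x ∈ C', x.card = w + 1) ∧
      (∀ x ∈ C', ∀ y ∈ C', x ≠ y → d ≤ (symmDiff x y).card) := by
  have hdist : ∀ x ∈ C, ∀ y ∈ C, x ≠ y →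
      d ≤ (symmDiff (insert (v x) x) (insert (v y) y)).card := by
    intro x hx y hy hne
    have h1 := hD x hx y hy hne
    have h2 := card_symmDiff_add x y
    have h3 := card_symmDiff_add (insert (v x) x) (insert (v y) y)
    rw [Finset.card_insert_of_notMem (hv x hx), Finset.card_insert_of_notMem (hv y hy),
      hC x hx, hC y hy] at h3
    rw [hC x hx, hC y hy] at h2
    by_cases huv : v x = v y
    · have h4 : insert (v x) x ∩ insert (v y) y = insert (v x) (x ∩ y) := by
        rw [← huv]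
        ext z
        simp only [Finset.mem_inter, Finset.mem_insert]
        tauto
      rw [h4] at h3
      have h5 := Finset.card_insert_le (v x) (x ∩ y)
      omega
    · by_cases hfar : (symmDiff x y).card ≤ d + 1
      · have h4 := inter_insert_le x y (v x) (v y) huv (hno x hx y hy hne hfar)
        omega
      · have h4 := inter_insert_le2 x y (v x) (v y)
        omega
  have hinj : Set.InjOn (fun x : Finset V => insert (v x) x) (C : Set _) := by
    intro x hx y hy h
    by_contra hne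
    have h3 := hdist x hx y hy hne
    have h4 : insert (v x) x = insert (v y) y := h
    rw [h4, symmDiff_self] at h3
    simp at h3
    omega
  refine ⟨C.image (fun x => insert (v x) x), Finset.card_image_of_injOn hinj, ?_, ?_⟩
  · intro z hz
    obtain ⟨x, hx, rfl⟩ := Finset.mem_image.mp hz
    rw [Finset.card_insert_of_notMem (hv x hx), hC x hx]
  · intro z hz z' hz' hne
    obtain ⟨x, hx, rfl⟩ := Finset.mem_image.mp hz
    obtain ⟨y, hy, rfl⟩ := Finset.mem_image.mp hz'
    apply hdist x hx y hy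
    rintro rfl
    exact hne rfl

/-- Consecutive weights: the words that contain at most one of three points. -/
theorem three (n d w : ℕ) (hd : 1 ≤ d) (hn : 2 * (w + 1) ≤ n)
    (C : Finset (Finset (Fin n))) (hC : ∀ x ∈ C, x.card = w)
    (hD : ∀ x ∈ C, ∀ y ∈ C, x ≠ y → d ≤ (symmDiff x y).card) :
    ∃ C' : Finset (Finset (Fin n)),
      ((n : ℝ) - w) * (n - w - 1) * (n + 2 * w - 2) * (C.card : ℝ) ≤
        n * (n - 1) * (n - 2) * (C'.card : ℝ) ∧
      C'.card ≤ C.card ∧ (∀ x ∈ C', x.card = w + 1) ∧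
      (∀ x ∈ C', ∀ y ∈ C', x ≠ y → d ≤ (symmDiff x y).card) := by
  classical
  rcases Nat.eq_zero_or_pos w with hw | hw
  · obtain ⟨C', e1, e2, e3⟩ := tiny n d (w + 1) (by omega) C (by
      rw [Finset.card_le_one]
      intro x hx y hy
      have h1 := hC x hx
      have h2 := hC y hy
      rw [hw, Finset.card_eq_zero] at h1 h2
      rw [h1, h2])
    refine ⟨C', ?_, e1.le, e2, e3⟩
    rw [e1, hw]
    push_cast
    apply le_of_eq
    ring
  have hn3 : 3 ≤ n := by omega
  set p0 : Fin n := ⟨0, by omega⟩ with hp0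
  set p1 : Fin n := ⟨1, by omega⟩ with hp1
  set p2 : Fin n := ⟨2, by omega⟩ with hp2
  have h01 : p0 ≠ p1 := by
    intro h
    have := congrArg Fin.val h
    simp [hp0, hp1] at this
  have h02 : p0 ≠ p2 := by
    intro h
    have := congrArg Fin.val h
    simp [hp0, hp2] at this
  have h12 : p1 ≠ p2 := by
    intro h
    have := congrArg Fin.val h
    simp [hp1, hp2] at this
  set W : Finset (Fin n) := {p0, p1, p2} with hW
  have hWc : W.card = 3 := by
    rw [hW, Finset.card_insert_of_notMem, Finset.card_insert_of_notMem, Finset.card_singleton]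
    · simp [h12]
    · simp [h01, h02]
  set J := Finset.powersetCard w (Finset.univ : Finset (Fin n)) with hJ
  set X := J.filter (fun x => (W ∩ x).card ≤ 1) with hX
  have hXc : X.card = (n - 3).choose w + 3 * (n - 3).choose (w - 1) := by
    have h0 := meet_eq W w 0 (by omega)
    have h1 := meet_eq W w 1 (by omega)
    rw [Fintype.card_fin, hWc] at h0 h1
    have h3 : X = J.filter (fun x => (W ∩ x).card = 0) ∪ J.filter (fun x => (W ∩ x).card = 1) := by
      rw [hX, ← Finset.filter_or]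
      apply Finset.filter_congr
      intro x _
      omega
    rw [h3, Finset.card_union_of_disjoint]
    · rw [← h0, ← h1]
      simp
    · rw [Finset.disjoint_filter]
      intro x _ h4 h5
      omega
  -- the choice of the point
  set v : Finset (Fin n) → Fin n := fun x => if p0 ∈ x then p1 else if p1 ∈ x then p2 else p0
    with hv
  have hone : ∀ x ∈ X, ∀ p ∈ W, ∀ q ∈ W, p ∈ x → q ∈ x → p = q := by
    intro x hx p hp q hq hpx hqx
    rw [hX, Finset.mem_filter] at hx
    exact Finset.card_le_one.mp hx.2 p (Finset.mem_inter.mpr ⟨hp, hpx⟩) q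
      (Finset.mem_inter.mpr ⟨hq, hqx⟩)
  have m0 : p0 ∈ W := by simp [hW]
  have m1 : p1 ∈ W := by simp [hW]
  have m2 : p2 ∈ W := by simp [hW]
  have hvx : ∀ x ∈ X, v x ∉ x := by
    intro x hx
    simp only [hv]
    split_ifs with h1 h2
    · intro h3
      exact h01 (hone x hx p0 m0 p1 m1 h1 h3)
    · intro h3
      exact h12 (hone x hx p1 m1 p2 m2 h2 h3)
    · exact h1
  have hmut : ∀ x ∈ X, ∀ y ∈ X, ¬ (v x ∈ y ∧ v y ∈ x) := by
    intro x hx y hy
    rintro ⟨a1, a2⟩
    simp only [hv] at a1 a2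
    by_cases x0 : p0 ∈ x
    · rw [if_pos x0] at a1
      have y0 : p0 ∉ y := fun h => h01 (hone y hy p0 m0 p1 m1 h a1)
      rw [if_neg y0, if_pos a1] at a2
      exact h02 (hone x hx p0 m0 p2 m2 x0 a2)
    · rw [if_neg x0] at a1
      by_cases x1 : p1 ∈ x
      · rw [if_pos x1] at a1
        have y0 : p0 ∉ y := fun h => h02 (hone y hy p0 m0 p2 m2 h a1)
        have y1 : p1 ∉ y := fun h => h12 (hone y hy p1 m1 p2 m2 h a1)
        rw [if_neg y0, if_neg y1] at a2
        exact x0 a2
      · rw [if_neg x1] at a1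
        rw [if_pos a1] at a2
        exact x1 a2
  obtain ⟨σ, hσ⟩ := exists_perm C X w hC (by
    intro x hx
    rw [hX, Finset.mem_filter, hJ, Finset.mem_powersetCard] at hx
    exact hx.1.2)
  rw [Fintype.card_fin, card_filter_act] at hσ
  obtain ⟨hC1, hC2⟩ := act_code C σ w d hC hD
  set C₁ := (C.image (act σ)).filter (fun s => s ∈ X) with hC₁
  obtain ⟨C', e1, e2, e3⟩ := add_point d w hd C₁ v
    (fun x hx => hC1 x (Finset.mem_filter.mp hx).1)
    (fun x hx y hy hne => hC2 x (Finset.mem_filter.mp hx).1 y (Finset.mem_filter.mp hy).1 hne)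
    (fun x hx => hvx x (Finset.mem_filter.mp hx).2)
    (fun x hx y hy _ _ => hmut x (Finset.mem_filter.mp hx).2 y (Finset.mem_filter.mp hy).2)
  refine ⟨C', ?_, ?_, e2, e3⟩
  · rw [e1]
    obtain ⟨m, rfl⟩ : ∃ m, n = m + 3 := ⟨n - 3, by omega⟩
    obtain ⟨u, rfl⟩ : ∃ u, w = u + 1 := ⟨w - 1, by omega⟩
    have hum : u ≤ m := by omega
    have i1 := Nat.choose_mul_succ_eq m (u + 1)
    have i2 := Nat.choose_mul_succ_eq (m + 1) (u + 1)
    have i3 := Nat.choose_mul_succ_eq (m + 2) (u + 1)
    have i4 := Nat.add_one_mul_choose_eq m u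
    have s1 : m + 1 - (u + 1) = m - u := by omega
    have s2 : m + 1 + 1 - (u + 1) = m + 1 - u := by omega
    have s3 : m + 2 + 1 - (u + 1) = m + 2 - u := by omega
    rw [s1] at i1
    rw [s2] at i2
    rw [s3] at i3
    have j1 : ((m.choose (u + 1) : ℕ) : ℝ) * (m + 1) = ((m + 1).choose (u + 1) : ℕ) * ((m : ℝ) - u) := by
      rw [← Nat.cast_sub hum]
      exact_mod_cast i1
    have j2 : (((m + 1).choose (u + 1) : ℕ) : ℝ) * (m + 2) =
        ((m + 2).choose (u + 1) : ℕ) * ((m : ℝ) + 1 - u) := by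
      have : ((m : ℝ) + 1 - u) = ((m + 1 - u : ℕ) : ℝ) := by
        rw [Nat.cast_sub (by omega)]
        push_cast
        ring
      rw [this]
      exact_mod_cast i2
    have j3 : (((m + 2).choose (u + 1) : ℕ) : ℝ) * (m + 3) =
        ((m + 3).choose (u + 1) : ℕ) * ((m : ℝ) + 2 - u) := by
      have : ((m : ℝ) + 2 - u) = ((m + 2 - u : ℕ) : ℝ) := by
        rw [Nat.cast_sub (by omega)]
        push_cast
        ring
      rw [this]
      exact_mod_cast i3
    have j4 : ((m : ℝ) + 1) * (m.choose u : ℕ) = ((m + 1).choose (u + 1) : ℕ) * ((u : ℝ) + 1) := by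
      exact_mod_cast i4
    have hXR : (X.card : ℝ) = (m.choose (u + 1) : ℕ) + 3 * (m.choose u : ℕ) := by
      have : X.card = m.choose (u + 1) + 3 * m.choose u := by
        rw [hXc]
        rfl
      exact_mod_cast this
    have hσR0 : (C.card : ℝ) * (X.card : ℝ) ≤ (C₁.card : ℝ) * (((m + 3).choose (u + 1) : ℕ) : ℝ) := by
      exact_mod_cast hσ
    rw [hXR] at hσR0
    set a : ℝ := ((m.choose (u + 1) : ℕ) : ℝ) with ha
    set b : ℝ := ((m.choose u : ℕ) : ℝ) with hb
    set c1 : ℝ := (((m + 1).choose (u + 1) : ℕ) : ℝ) with hc1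
    set c2 : ℝ := (((m + 2).choose (u + 1) : ℕ) : ℝ) with hc2
    set c3 : ℝ := (((m + 3).choose (u + 1) : ℕ) : ℝ) with hc3
    have hσR : (C.card : ℝ) * (a + 3 * b) ≤ (C₁.card : ℝ) * c3 := hσR0
    have hc3pos : 0 < c3 := by
      rw [hc3]
      exact_mod_cast Nat.choose_pos (by omega)
    have hkey : ((m : ℝ) + 1) * (m + 2) * (m + 3) * (a + 3 * b) =
        c3 * (((m : ℝ) + 2 - u) * (m + 1 - u) * (m + 3 + 2 * u)) := by
      calc ((m : ℝ) + 1) * (m + 2) * (m + 3) * (a + 3 * b)
          = (a * (m + 1)) * (m + 2) * (m + 3) + 3 * ((((m : ℝ) + 1) * b) * (m + 2) * (m + 3)) := by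
            ring
        _ = (c1 * (m + 2)) * (m + 3) * ((m : ℝ) - u) + 3 * ((c1 * (m + 2)) * (m + 3) * (u + 1)) := by
            rw [j1, j4]
            ring
        _ = (c2 * (m + 3)) * ((m : ℝ) + 1 - u) * (m + 3 + 2 * u) := by
            rw [j2]
            ring
        _ = _ := by
            rw [j3]
            ring
    have hpos : 0 ≤ ((m : ℝ) + 1) * (m + 2) * (m + 3) := by positivity
    have h5 := mul_le_mul_of_nonneg_left hσR hpos
    have h6 : (((m : ℝ) + 2 - u) * (m + 1 - u) * (m + 3 + 2 * u) * (C.card : ℝ)) * c3 ≤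
        ((m + 3) * (m + 2) * (m + 1) * (C₁.card : ℝ)) * c3 := by
      calc (((m : ℝ) + 2 - u) * (m + 1 - u) * (m + 3 + 2 * u) * (C.card : ℝ)) * c3
          = (C.card : ℝ) * (c3 * (((m : ℝ) + 2 - u) * (m + 1 - u) * (m + 3 + 2 * u))) := by ring
        _ = ((m : ℝ) + 1) * (m + 2) * (m + 3) * ((C.card : ℝ) * (a + 3 * b)) := by
            rw [← hkey]
            ring
        _ ≤ ((m : ℝ) + 1) * (m + 2) * (m + 3) * ((C₁.card : ℝ) * c3) := h5
        _ = _ := by ring
    have h7 := le_of_mul_le_mul_right h6 hc3pos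
    push_cast
    linarith [(by ring : ((m : ℝ) + 3 - (u + 1)) * (m + 3 - (u + 1) - 1) *
        (m + 3 + 2 * (u + 1) - 2) * (C.card : ℝ) =
        ((m : ℝ) + 2 - u) * (m + 1 - u) * (m + 3 + 2 * u) * (C.card : ℝ)),
      (by ring : ((m : ℝ) + 3) * (m + 3 - 1) * (m + 3 - 2) * (C₁.card : ℝ) =
        ((m : ℝ) + 3) * (m + 2) * (m + 1) * (C₁.card : ℝ))]
  · rw [e1]
    exact (Finset.card_le_card (Finset.filter_subset _ _)).trans Finset.card_image_le

end Pool.Agent.Hhelper49.CWE
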