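import Pool.Agent.Hhelper49.CWE.DoubleGap
import Pool.Agent.Hhelper49.CWD.Final

set_option autoImplicit false

/-! All distances, the largest region. -/

namespace Pool.Agent.Hhelper49.CWE

open Pool.Agent.Hhelper49.CWC Pool.Agent.Hhelper49.CWD

theorem all_dist4 (ε : ℝ) (hε : 0 < ε) : ∃ ζ : ℝ, 0 < ζ ∧ ∃ n₀ : ℕ,
    ∀ n : ℕ, n₀ ≤ n → ∀ d w₁ w₂ : ℕ, 1 ≤ d → w₁ < w₂ → 2 * w₂ ≤ n →
    (w₁ : ℝ) ≤ (1 / 4 - ε) * n →
    (1 - ζ) * ((w₁ : ℝ) * ((n : ℝ) - w₁) * (n - 2 * w₁)) ≤ (n : ℝ) ^ 2 * ((w₂ : ℝ) - w₁) →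
    Mono n d w₁ w₂ := by
  set ε₁ : ℝ := min ε (1 / 100) with hε₁
  have hε₁0 : 0 < ε₁ := lt_min hε (by norm_num)
  have hε₁a : ε₁ ≤ ε := min_le_left _ _
  have hε₁b : ε₁ ≤ 1 / 100 := min_le_right _ _
  obtain ⟨ζ₁, hζ₁0, n₁, hn₁⟩ := near_plotkin ε₁ hε₁0 (by linarith)
  set ε₂ : ℝ := min ε₁ (ζ₁ / 2) with hε₂
  have hε₂0 : 0 < ε₂ := lt_min hε₁0 (by linarith)
  have hε₂a : ε₂ ≤ ε₁ := min_le_left _ _
  have hε₂b : ε₂ ≤ ζ₁ / 2 := min_le_right _ _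
  obtain ⟨k₀, hk₀⟩ := double_dist ε₂ hε₂0 (by linarith)
  set ζ : ℝ := min (ζ₁ / 2) (1 / 30) with hζ
  have hζ0 : 0 < ζ := lt_min (by linarith) (by norm_num)
  have hζa : ζ ≤ ζ₁ / 2 := min_le_left _ _
  have hζb : ζ ≤ 1 / 30 := min_le_right _ _
  refine ⟨ζ, hζ0, max n₁ (max (100 * k₀) 14), ?_⟩
  intro n hn d w₁ w₂ hd h12 h2 hw4 hreg
  have m1 : n₁ ≤ n := (le_max_left _ _).trans hn
  have m2 : 100 * k₀ ≤ n := (le_max_left _ _).trans ((le_max_right _ _).trans hn)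
  have m3 : 14 ≤ n := (le_max_right _ _).trans ((le_max_right _ _).trans hn)
  have hnR : 2 * (w₂ : ℝ) ≤ n := by exact_mod_cast h2
  have hw0 : (0 : ℝ) ≤ w₁ := Nat.cast_nonneg _
  have hnpos : (0 : ℝ) < n := by
    have : 0 < n := by omega
    exact_mod_cast this
  have hεn : 0 ≤ ε * (n : ℝ) := by positivity
  have hw4' : 4 * (w₁ : ℝ) ≤ n := by linarith
  have hn2 : 0 < (n : ℝ) ^ 2 := by positivity
  -- lower bounds for the product on the left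
  have hprod : ∀ u v : ℝ, 0 ≤ u → 0 ≤ v → u * n ≤ (n : ℝ) - w₁ → v * n ≤ (n : ℝ) - 2 * w₁ →
      29 / 30 * (u * v) * w₁ ≤ (w₂ : ℝ) - w₁ := by
    intro u v hu hv h3 h4
    have h5 : (u * n) * (v * n) ≤ ((n : ℝ) - w₁) * (n - 2 * w₁) :=
      mul_le_mul h3 h4 (by positivity) (by linarith)
    have h6 : 29 / 30 * (w₁ * ((u * n) * (v * n))) ≤
        (1 - ζ) * (w₁ * (((n : ℝ) - w₁) * (n - 2 * w₁))) :=
      mul_le_mul (by linarith) (mul_le_mul_of_nonneg_left h5 hw0) (by positivity) (by linarith)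
    have h7 : (29 / 30 * (u * v) * w₁) * (n : ℝ) ^ 2 ≤ ((w₂ : ℝ) - w₁) * (n : ℝ) ^ 2 := by
      linarith [(by ring : 29 / 30 * (w₁ * ((u * n) * (v * n))) =
          (29 / 30 * (u * v) * w₁) * (n : ℝ) ^ 2),
        (by ring : (1 - ζ) * (w₁ * (((n : ℝ) - w₁) * (n - 2 * w₁))) =
          (1 - ζ) * ((w₁ : ℝ) * ((n : ℝ) - w₁) * (n - 2 * w₁)))]
    exact le_of_mul_le_mul_right h7 hn2
  rcases Nat.lt_or_ge n (24 * w₁) with hs | hs
  · -- linear weights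
    have hsR : (n : ℝ) < 24 * w₁ := by exact_mod_cast hs
    have h3 := hprod (3 / 4) (1 / 2) (by norm_num) (by norm_num) (by linarith) (by linarith)
    have hk : 1 / 100 * (n : ℝ) ≤ (w₂ : ℝ) - w₁ := by linarith
    have hk1 : ε₁ * (n : ℝ) ≤ (w₂ : ℝ) - w₁ :=
      (mul_le_mul_of_nonneg_right hε₁b hnpos.le).trans hk
    rcases le_or_gt ((1 - ζ₁) * (2 * w₁ * ((n : ℝ) - w₁))) ((d : ℝ) * n) with hP | hP
    · exact hn₁ n m1 d w₁ w₂ hd h12 h2 hk1 hP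
    · have hkk : w₁ + k₀ ≤ w₂ := by
        have m2R : 100 * (k₀ : ℝ) ≤ n := by exact_mod_cast m2
        have h4 : (w₁ : ℝ) + k₀ ≤ w₂ := by linarith
        exact_mod_cast h4
      apply hk₀ n d w₁ w₂ hd hkk h2
      rotate_left
      · have hg : 0 ≤ (n : ℝ) - 2 * w₁ := by linarith
        have h3 : (n : ℝ) * ((1 + ε₂) * ((d : ℝ) * ((n : ℝ) - 2 * w₁))) ≤
            n * (2 * (n : ℝ) * ((w₂ : ℝ) - w₁)) := by
          have hQ : 0 ≤ (w₁ : ℝ) * (n - w₁) * ((n : ℝ) - 2 * w₁) := by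
            have : 0 ≤ (n : ℝ) - w₁ := by linarith
            positivity
          calc (n : ℝ) * ((1 + ε₂) * ((d : ℝ) * ((n : ℝ) - 2 * w₁)))
              = (1 + ε₂) * ((n : ℝ) - 2 * w₁) * ((d : ℝ) * n) := by ring
            _ ≤ (1 + ε₂) * ((n : ℝ) - 2 * w₁) * ((1 - ζ₁) * (2 * w₁ * ((n : ℝ) - w₁))) :=
                mul_le_mul_of_nonneg_left hP.le (by positivity)
            _ = ((1 + ε₂) * (1 - ζ₁) * 2) * ((w₁ : ℝ) * (n - w₁) * ((n : ℝ) - 2 * w₁)) := by ring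
            _ ≤ ((1 - ζ) * 2) * ((w₁ : ℝ) * (n - w₁) * ((n : ℝ) - 2 * w₁)) := by
                apply mul_le_mul_of_nonneg_right _ hQ
                have : 0 ≤ ε₂ * ζ₁ := by positivity
                linarith [(by ring : (1 + ε₂) * (1 - ζ₁) * 2 = 2 + 2 * ε₂ - 2 * ζ₁ -
                  2 * (ε₂ * ζ₁))]
            _ = 2 * ((1 - ζ) * ((w₁ : ℝ) * (n - w₁) * ((n : ℝ) - 2 * w₁))) := by ring
            _ ≤ 2 * ((n : ℝ) ^ 2 * ((w₂ : ℝ) - w₁)) :=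
                mul_le_mul_of_nonneg_left hreg (by norm_num)
            _ = _ := by ring
        exact le_of_mul_le_mul_left h3 hnpos
      · have : ε₂ * (n : ℝ) ≤ ε * n := mul_le_mul_of_nonneg_right (hε₂a.trans hε₁a) hnpos.le
        linarith
  · -- small weights
    intro C hC hD
    rcases Nat.lt_or_ge w₂ (2 * w₁) with h3 | h3
    · apply far n d w₁ w₂ hd h12 h2 (Or.inr ⟨h3.le, ?_⟩) C hC hD
      obtain ⟨k, hk⟩ : ∃ k, w₂ = w₁ + k := ⟨w₂ - w₁, by omega⟩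
      have hsR : 24 * (w₁ : ℝ) ≤ n := by exact_mod_cast hs
      have hkw : w₁ ≤ 2 * k := by
        have h4 : (w₂ : ℝ) = w₁ + k := by exact_mod_cast hk
        have h5 := hprod (23 / 24) (11 / 12) (by norm_num) (by norm_num) (by linarith)
          (by linarith)
        have h9 : (w₁ : ℝ) ≤ 2 * k := by linarith
        exact_mod_cast h9
      have hsub : w₂ - w₁ = k := by omega
      rw [hsub]
      calc 2 ^ w₁ * (5 * w₁) ^ k ≤ 2 ^ (2 * k) * (5 * w₁) ^ k :=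
            Nat.mul_le_mul_right _ (Nat.pow_le_pow_right (by norm_num) hkw)
        _ = (20 * w₁) ^ k := by
            rw [pow_mul, ← mul_pow]
            congr 1
            ring
        _ ≤ n ^ k := Nat.pow_le_pow_left (by omega) k
    · apply far n d w₁ w₂ hd h12 h2 (Or.inl ⟨h3, by omega⟩) C hC hD

end Pool.Agent.Hhelper49.CWE
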