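import Pool.Agent.Hhelper49.CWE.Greedy

set_option autoImplicit false

/-! Nearly all words of a code of weight `w₁ < n/4` can be lifted to the weight `w₂`. -/

namespace Pool.Agent.Hhelper49.CWE

open Pool.Agent.Hhelper49.CWC Pool.Agent.Hhelper49.CWD

theorem near_count (n τ D : ℕ) (lam : ℝ) (hn : 0 < n) (hτ : τ ≤ n) (hl : 0 ≤ lam)
    (hD : (D : ℝ) ≤ 2 * (τ * (1 - τ / n - lam))) (T₀ : Finset (Fin n)) (hT₀ : T₀.card = τ) :
    (((Finset.powersetCard τ (Finset.univ : Finset (Fin n))).filter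
        (fun T => (symmDiff T T₀).card < D)).card : ℝ) ≤
      Real.exp (-(lam ^ 2 * τ / 2)) * (n.choose τ : ℝ) := by
  have h4 := tail T₀ τ (by rw [Fintype.card_fin]; exact hτ) (by rw [Fintype.card_fin]; exact hn)
    lam (((τ : ℝ) / n + lam) * τ) hl (by rw [Fintype.card_fin, hT₀])
  rw [Fintype.card_fin, hT₀] at h4
  rw [mul_comm]
  refine le_trans ?_ h4
  have h5 : (Finset.powersetCard τ (Finset.univ : Finset (Fin n))).filter
        (fun T => (symmDiff T T₀).card < D) ⊆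
      (Finset.powersetCard τ (Finset.univ : Finset (Fin n))).filter
        (fun T => ((τ : ℝ) / n + lam) * τ ≤ ((T ∩ T₀).card : ℝ)) := by
    intro T hT
    rw [Finset.mem_filter] at hT ⊢
    refine ⟨hT.1, ?_⟩
    have h6 := card_symmDiff_add T T₀
    rw [(Finset.mem_powersetCard.mp hT.1).2, hT₀] at h6
    have h7 : ((symmDiff T T₀).card : ℝ) + 2 * ((T ∩ T₀).card : ℝ) = τ + τ := by
      exact_mod_cast h6
    have h8 : ((symmDiff T T₀).card : ℝ) < D := by exact_mod_cast hT.2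
    linarith [(by ring : 2 * ((τ : ℝ) * (1 - τ / n - lam)) = 2 * τ - 2 * ((τ / n + lam) * τ))]
  exact_mod_cast Finset.card_le_card h5

open Classical in
/-- Lifting when all words are good. -/
theorem assign {V : Type*} [DecidableEq V] (d w₁ w₂ τ i : ℕ) (hd : 1 ≤ d)
    (hw : w₂ + 2 * i = w₁ + τ) (F C : Finset (Finset V)) (hF : ∀ T ∈ F, T.card = τ)
    (hC : ∀ x ∈ C, x.card = w₁)
    (hD : ∀ x ∈ C, ∀ y ∈ C, x ≠ y → d ≤ (symmDiff x y).card)
    (h1 : ∀ x ∈ C, ∃ T ∈ F, (x ∩ T).card = i)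
    (h2 : ∀ x ∈ C, ∀ T ∈ F, ∀ T' ∈ F, T ≠ T' →
      4 * (x ∩ symmDiff T T').card ≤ (symmDiff T T').card) :
    ∃ C' : Finset (Finset V), C'.card = C.card ∧ (∀ x ∈ C', x.card = w₂) ∧
      (∀ x ∈ C', ∀ y ∈ C', x ≠ y → d ≤ (symmDiff x y).card) := by
  have hch : ∀ x : Finset V, ∃ T : Finset V, x ∈ C → T ∈ F ∧ (x ∩ T).card = i := by
    intro x
    by_cases hx : x ∈ C
    · obtain ⟨T, hT, hi⟩ := h1 x hx
      exact ⟨T, fun _ => ⟨hT, hi⟩⟩
    · exact ⟨∅, fun h => absurd h hx⟩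
  choose g hg using hch
  have hdist : ∀ x ∈ C, ∀ y ∈ C, x ≠ y →
      d ≤ (symmDiff (symmDiff x (g x)) (symmDiff y (g y))).card := by
    intro x hx y hy hne
    rw [symm_four]
    by_cases hg2 : g x = g y
    · rw [hg2, symmDiff_self, symmDiff_bot]
      exact hD x hx y hy hne
    · exact (hD x hx y hy hne).trans (dist_flip _ _ _
        (h2 x hx _ (hg x hx).1 _ (hg y hy).1 hg2) (h2 y hy _ (hg x hx).1 _ (hg y hy).1 hg2))
  have hinj : Set.InjOn (fun x : Finset V => symmDiff x (g x)) (C : Set _) := by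
    intro x hx y hy h
    by_contra hne
    have h3 := hdist x hx y hy hne
    have h4 : symmDiff x (g x) = symmDiff y (g y) := h
    rw [h4, symmDiff_self] at h3
    simp at h3
    omega
  refine ⟨C.image (fun x => symmDiff x (g x)), Finset.card_image_of_injOn hinj, ?_, ?_⟩
  · intro z hz
    obtain ⟨x, hx, rfl⟩ := Finset.mem_image.mp hz
    have h3 := card_symmDiff_add x (g x)
    rw [hC x hx, hF _ (hg x hx).1, (hg x hx).2] at h3
    omega
  · intro z hz z' hz' hne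
    obtain ⟨x, hx, rfl⟩ := Finset.mem_image.mp hz
    obtain ⟨y, hy, rfl⟩ := Finset.mem_image.mp hz'
    apply hdist x hx y hy
    rintro rfl
    exact hne rfl

/-- Nearly all words can be lifted. -/
theorem almost (n d w₁ w₂ τ i D K : ℕ) (eps lam P : ℝ) (hd : 1 ≤ d) (hε : 0 ≤ eps)
    (hl : 0 ≤ lam) (hD1 : 1 ≤ D) (hw : w₁ ≤ n) (hw4 : (w₁ : ℝ) / n + eps ≤ 1 / 4) (hτn : τ < n)
    (hwi : w₂ + 2 * i = w₁ + τ) (hP0 : 0 < P)
    (hP : P * (n.choose τ : ℝ) ≤ (hyp w₁ (n - w₁) τ i : ℝ)) (hiτ : i ≤ τ)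
    (hD : (D : ℝ) ≤ 2 * (τ * (1 - τ / n - lam)))
    (hKq : (K : ℝ) * Real.exp (-(lam ^ 2 * τ / 2)) ≤ P / 4)
    (C : Finset (Finset (Fin n))) (hC : ∀ x ∈ C, x.card = w₁)
    (hD2 : ∀ x ∈ C, ∀ y ∈ C, x ≠ y → d ≤ (symmDiff x y).card) :
    ∃ C' : Finset (Finset (Fin n)),
      (C.card : ℝ) * (1 - (1 - P / 2) ^ K - K ^ 2 * Real.exp (-(eps ^ 2 * D / 2))) ≤ C'.card ∧
      C'.card ≤ C.card ∧ (∀ x ∈ C', x.card = w₂) ∧
      (∀ x ∈ C', ∀ y ∈ C', x ≠ y → d ≤ (symmDiff x y).card) := by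
  classical
  have hn : 0 < n := by omega
  set J := Finset.powersetCard w₁ (Finset.univ : Finset (Fin n)) with hJ
  have hJc : J.card = n.choose w₁ := by
    rw [hJ, Finset.card_powersetCard, Finset.card_univ, Fintype.card_fin]
  obtain ⟨F, hFc, hF, hF2, hU⟩ := greedy n w₁ τ i D K P (Real.exp (-(lam ^ 2 * τ / 2))) hD1 hτn.le
    hP0 (by
      intro x hx
      refine hP.trans ?_
      have h1 := card_meet x τ i hiτ
      rw [Fintype.card_fin, (Finset.mem_powersetCard.mp hx).2] at h1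
      unfold hyp
      exact_mod_cast h1)
    (by
      intro T₀ hT₀
      exact near_count n τ D lam hn hτn.le hl hD T₀ (Finset.mem_powersetCard.mp hT₀).2)
    (Real.exp_pos _).le hKq K le_rfl
  set M : ℝ := (n.choose w₁ : ℝ) with hM
  have hMpos : 0 < M := by
    rw [hM]
    exact_mod_cast Nat.choose_pos hw
  set U := J.filter (fun x => ∀ T ∈ F, (x ∩ T).card ≠ i) with hUdef
  set B : Finset (Fin n) × Finset (Fin n) → Finset (Finset (Fin n)) := fun p =>
    J.filter (fun x => ((symmDiff p.1 p.2).card : ℝ) / 4 ≤ ((x ∩ symmDiff p.1 p.2).card : ℝ))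
    with hB
  set Q := (F ×ˢ F).filter (fun p => p.1 ≠ p.2) with hQ
  have hBle : ∀ p ∈ Q, ((B p).card : ℝ) ≤ M * Real.exp (-(eps ^ 2 * D / 2)) := by
    intro p hp
    rw [hQ, Finset.mem_filter, Finset.mem_product] at hp
    have h1 := tail (symmDiff p.1 p.2) w₁ (by rw [Fintype.card_fin]; exact hw)
      (by rw [Fintype.card_fin]; exact hn) eps (((symmDiff p.1 p.2).card : ℝ) / 4) hε
      (by
        rw [Fintype.card_fin]
        have h0 : (0 : ℝ) ≤ ((symmDiff p.1 p.2).card : ℝ) := Nat.cast_nonneg _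
        have := mul_le_mul_of_nonneg_right hw4 h0
        linarith)
    rw [Fintype.card_fin] at h1
    refine h1.trans (mul_le_mul_of_nonneg_left (Real.exp_le_exp.mpr ?_) hMpos.le)
    have h2 : (D : ℝ) ≤ ((symmDiff p.1 p.2).card : ℝ) := by
      exact_mod_cast hF2 _ hp.1.1 _ hp.1.2 hp.2
    have h3 : eps ^ 2 * (D : ℝ) ≤ eps ^ 2 * ((symmDiff p.1 p.2).card : ℝ) :=
      mul_le_mul_of_nonneg_left h2 (by positivity)
    linarith
  set X := J.filter (fun x => (∃ T ∈ F, (x ∩ T).card = i) ∧ ∀ T ∈ F, ∀ T' ∈ F, T ≠ T' →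
      4 * (x ∩ symmDiff T T').card ≤ (symmDiff T T').card) with hX
  have hcover : J ⊆ X ∪ (U ∪ Q.biUnion B) := by
    intro x hx
    rw [Finset.mem_union, Finset.mem_union, hX, Finset.mem_filter, hUdef, Finset.mem_filter,
      Finset.mem_biUnion]
    by_cases h1 : ∃ T ∈ F, (x ∩ T).card = i
    · by_cases h2 : ∀ T ∈ F, ∀ T' ∈ F, T ≠ T' →
        4 * (x ∩ symmDiff T T').card ≤ (symmDiff T T').card
      · exact Or.inl ⟨hx, h1, h2⟩
      · right
        right
        push Not at h2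
        obtain ⟨T, hT, T', hT', hne, hlt⟩ := h2
        refine ⟨(T, T'), ?_, ?_⟩
        · rw [hQ, Finset.mem_filter, Finset.mem_product]
          exact ⟨⟨hT, hT'⟩, hne⟩
        · rw [hB, Finset.mem_filter]
          refine ⟨hx, ?_⟩
          have h3 : ((symmDiff T T').card : ℝ) ≤ 4 * ((x ∩ symmDiff T T').card : ℝ) := by
            exact_mod_cast hlt.le
          show ((symmDiff T T').card : ℝ) / 4 ≤ ((x ∩ symmDiff T T').card : ℝ)
          linarith
    · right
      left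
      push Not at h1
      exact ⟨hx, h1⟩
  have hQc : (Q.card : ℝ) ≤ (K : ℝ) ^ 2 := by
    have h1 : Q.card ≤ K * K := by
      refine (Finset.card_le_card (Finset.filter_subset _ _)).trans ?_
      rw [Finset.card_product]
      exact Nat.mul_le_mul hFc hFc
    have h2 : (Q.card : ℝ) ≤ (K : ℝ) * K := by exact_mod_cast h1
    linarith [(by ring : (K : ℝ) ^ 2 = K * K)]
  have hXc : M * (1 - (1 - P / 2) ^ K - K ^ 2 * Real.exp (-(eps ^ 2 * D / 2))) ≤ X.card := by
    have h1 : J.card ≤ X.card + (U.card + ∑ p ∈ Q, (B p).card) :=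
      (Finset.card_le_card hcover).trans ((Finset.card_union_le _ _).trans
        (Nat.add_le_add_left ((Finset.card_union_le _ _).trans
          (Nat.add_le_add_left Finset.card_biUnion_le _)) _))
    have h2 : M ≤ (X.card : ℝ) + ((U.card : ℝ) + ∑ p ∈ Q, ((B p).card : ℝ)) := by
      rw [hM, ← hJc]
      exact_mod_cast h1
    have h3 : ∑ p ∈ Q, ((B p).card : ℝ) ≤ (K : ℝ) ^ 2 * (M * Real.exp (-(eps ^ 2 * D / 2))) := by
      calc ∑ p ∈ Q, ((B p).card : ℝ) ≤ ∑ _p ∈ Q, M * Real.exp (-(eps ^ 2 * D / 2)) :=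
            Finset.sum_le_sum hBle
        _ = (Q.card : ℝ) * (M * Real.exp (-(eps ^ 2 * D / 2))) := by
            rw [Finset.sum_const, nsmul_eq_mul]
        _ ≤ _ := mul_le_mul_of_nonneg_right hQc (by positivity)
    linarith [hU, (by ring : M * (1 - (1 - P / 2) ^ K - K ^ 2 * Real.exp (-(eps ^ 2 * D / 2))) =
      M - (1 - P / 2) ^ K * M - (K : ℝ) ^ 2 * (M * Real.exp (-(eps ^ 2 * D / 2))))]
  obtain ⟨σ, hσ⟩ := exists_perm C X w₁ hC (by
    intro x hx
    rw [hX, Finset.mem_filter, hJ, Finset.mem_powersetCard] at hx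
    exact hx.1.2)
  rw [Fintype.card_fin, card_filter_act] at hσ
  obtain ⟨hC1, hC2⟩ := act_code C σ w₁ d hC hD2
  set C₁ := (C.image (act σ)).filter (fun s => s ∈ X) with hC₁
  obtain ⟨C', e1, e2, e3⟩ := assign d w₁ w₂ τ i hd hwi F C₁ hF
    (fun x hx => hC1 x (Finset.mem_filter.mp hx).1)
    (fun x hx y hy hne => hC2 x (Finset.mem_filter.mp hx).1 y (Finset.mem_filter.mp hy).1 hne)
    (by
      intro x hx
      have := (Finset.mem_filter.mp hx).2
      rw [hX, Finset.mem_filter] at this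
      exact this.2.1)
    (by
      intro x hx
      have := (Finset.mem_filter.mp hx).2
      rw [hX, Finset.mem_filter] at this
      exact this.2.2)
  refine ⟨C', ?_, ?_, e2, e3⟩
  · rw [e1]
    have h1 : (C.card : ℝ) * X.card ≤ (C₁.card : ℝ) * M := by
      rw [hM]
      exact_mod_cast hσ
    have h2 : (C.card : ℝ) * (M * (1 - (1 - P / 2) ^ K -
        K ^ 2 * Real.exp (-(eps ^ 2 * D / 2)))) ≤ (C₁.card : ℝ) * M :=
      (mul_le_mul_of_nonneg_left hXc (Nat.cast_nonneg _)).trans h1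
    have h3 : ((C.card : ℝ) * (1 - (1 - P / 2) ^ K -
        K ^ 2 * Real.exp (-(eps ^ 2 * D / 2)))) * M ≤ (C₁.card : ℝ) * M := by
      linarith [(by ring : ((C.card : ℝ) * (1 - (1 - P / 2) ^ K -
        K ^ 2 * Real.exp (-(eps ^ 2 * D / 2)))) * M = (C.card : ℝ) * (M * (1 - (1 - P / 2) ^ K -
        K ^ 2 * Real.exp (-(eps ^ 2 * D / 2)))))]
    exact le_of_mul_le_mul_right h3 hMpos
  · rw [e1]
    exact (Finset.card_le_card (Finset.filter_subset _ _)).trans Finset.card_image_le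

end Pool.Agent.Hhelper49.CWE
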