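import Pool.Agent.Hhelper49.CWE.Total
import Pool.Agent.Hhelper49.CWD.Far3
import Pool.Agent.CWPR.Plotkin

set_option autoImplicit false

/-! Long words: weights `w₁ ≤ (1/4 - ε) n`. -/

namespace Pool.Agent.Hhelper49.CWE

open Pool.Agent.Hhelper49.CWC Pool.Agent.Hhelper49.CWD

theorem exp_one (c x : ℝ) (hc : 0 < c) (hx : 2 / c ^ 2 ≤ x) : x ≤ Real.exp (c * x) := by
  have hc2 : 0 < c ^ 2 := by positivity
  have hx0 : 0 < x := lt_of_lt_of_le (by positivity) hx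
  have h1 := Real.pow_div_factorial_le_exp (c * x) (by positivity) 2
  refine le_trans ?_ h1
  have h2 : ((Nat.factorial 2 : ℕ) : ℝ) = 2 := by norm_num [Nat.factorial]
  rw [h2, le_div_iff₀ (by norm_num)]
  rw [div_le_iff₀ hc2] at hx
  nlinarith

theorem exp_two (c x : ℝ) (hc : 0 < c) (hx : 6 / c ^ 3 ≤ x) : x ^ 2 ≤ Real.exp (c * x) := by
  have hc3 : 0 < c ^ 3 := by positivity
  have hx0 : 0 < x := lt_of_lt_of_le (by positivity) hx
  have h1 := Real.pow_div_factorial_le_exp (c * x) (by positivity) 3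
  refine le_trans ?_ h1
  have h2 : ((Nat.factorial 3 : ℕ) : ℝ) = 6 := by norm_num [Nat.factorial]
  rw [h2, le_div_iff₀ (by norm_num)]
  rw [div_le_iff₀ hc3] at hx
  have h3 : x ^ 2 * 6 ≤ x ^ 2 * (x * c ^ 3) := mul_le_mul_of_nonneg_left hx (by positivity)
  linarith [h3, (by ring : x ^ 2 * (x * c ^ 3) = (c * x) ^ 3)]

theorem sqrt_big (x : ℝ) (hx : 400 ≤ x) : 8 * (4 * √x + 1) ≤ 3 * x := by
  have h4 : √x * √x = x := Real.mul_self_sqrt (by linarith)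
  have h5 : 20 ≤ √x := by
    apply Real.le_sqrt_of_sq_le
    linarith
  have h6 : √x * 20 ≤ √x * √x := mul_le_mul_of_nonneg_left h5 (Real.sqrt_nonneg x)
  rw [h4] at h6
  linarith

theorem tau_up (n w k τ i : ℝ) (hτk : τ = k + 2 * i) (hi : i * (n + 2) ≤ (w + 1) * (τ + 1))
    (h : 2 * k + 2 * w ≤ 3 * n - 2) : τ * (n - 2 * w) ≤ n * k + 3 * n := by
  have h3 : τ * (n + 2) = k * (n + 2) + 2 * (i * (n + 2)) := by
    rw [hτk]
    ring
  linarith [h3, (by ring : τ * (n - 2 * w) = τ * (n + 2) - 2 * ((w + 1) * (τ + 1)) + 2 * (w + 1)),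
    (by ring : k * (n + 2) = n * k + 2 * k)]

theorem tau_lo (n w k τ i : ℝ) (hτk : τ = k + 2 * i) (hi : (w + 1) * (τ + 1) ≤ (i + 1) * (n + 2))
    (hk : 0 ≤ k) (hw : 0 ≤ w) (hn : 4 ≤ n) : n * k - 3 * n ≤ τ * (n - 2 * w) := by
  have h3 : τ * (n + 2) = k * (n + 2) + 2 * (i * (n + 2)) := by
    rw [hτk]
    ring
  linarith [h3, (by ring : τ * (n - 2 * w) = τ * (n + 2) - 2 * ((w + 1) * (τ + 1)) + 2 * (w + 1)),
    (by ring : k * (n + 2) = n * k + 2 * k), (by ring : (i + 1) * (n + 2) = i * (n + 2) + (n + 2))]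

theorem err (n a e : ℝ) (hn : 9 ≤ n) (ha : 0 ≤ a) (han : a ≤ n) (he1 : e ≤ 3 * n)
    (he2 : -(3 * n) ≤ e) : -(4 * n ^ 3) ≤ e * (n * a - e) := by
  have hn0 : 0 ≤ n := by linarith
  have h7 : 0 ≤ n * a := mul_nonneg hn0 ha
  have h8 : n * a ≤ n * n := mul_le_mul_of_nonneg_left han hn0
  have h10 : -(3 * n) * (n * a) ≤ e * (n * a) := mul_le_mul_of_nonneg_right he2 h7
  have h11 : e * e ≤ 9 * n ^ 2 := by
    have : |e| ≤ 3 * n := abs_le.mpr ⟨he2, he1⟩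
    calc e * e = |e| * |e| := (abs_mul_abs_self e).symm
      _ ≤ (3 * n) * (3 * n) := mul_le_mul this this (abs_nonneg e) (by linarith)
      _ = 9 * n ^ 2 := by ring
  have h12 : 3 * n * (n * a) ≤ 3 * n * (n * n) := mul_le_mul_of_nonneg_left h8 (by linarith)
  have h13 : 9 * n ^ 2 ≤ n * n ^ 2 := mul_le_mul_of_nonneg_right hn (by positivity)
  linarith [(by ring : e * (n * a - e) = e * (n * a) - e * e),
    (by ring : 3 * n * (n * n) = 3 * n ^ 3), (by ring : n * n ^ 2 = n ^ 3),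
    (by ring : -(3 * n) * (n * a) = -(3 * n * (n * a)))]

/-- Distances below `2 n (w₂ - w₁) (n - w₁ - w₂) / (n - 2 w₁)²`. -/
theorem multi_dist (ε : ℝ) (hε : 0 < ε) (hε1 : ε ≤ 1) : ∃ n₀ : ℕ, ∀ n : ℕ, n₀ ≤ n →
    ∀ d w₁ w₂ : ℕ, 1 ≤ d → w₁ < w₂ → 2 * w₂ ≤ n →
    (w₁ : ℝ) ≤ (1 / 4 - ε) * n → ε * n ≤ (w₂ : ℝ) - w₁ →
    (1 + ε) * ((d : ℝ) * ((n : ℝ) - 2 * w₁) ^ 2) ≤
      2 * (n : ℝ) * (((w₂ : ℝ) - w₁) * (n - w₁ - w₂)) → Mono n d w₁ w₂ := by
  set lam : ℝ := ε ^ 2 / 16 with hlam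
  have hlam0 : 0 < lam := by positivity
  set c₁ : ℝ := lam ^ 2 * ε / 2 with hc₁
  have hc₁0 : 0 < c₁ := by positivity
  set c₂ : ℝ := ε ^ 2 * (ε / 8) / 2 with hc₂
  have hc₂0 : 0 < c₂ := by positivity
  obtain ⟨n₁, hn₁⟩ := exists_nat_ge (2 / c₁ ^ 2)
  obtain ⟨n₂, hn₂⟩ := exists_nat_ge (6 / c₂ ^ 3)
  obtain ⟨n₃, hn₃⟩ := exists_nat_ge (100 / ε ^ 2)
  refine ⟨max n₁ (max n₂ (max n₃ 400)), ?_⟩
  intro n hn d w₁ w₂ hd h12 h2 hw4 hk hreg
  have m1 : n₁ ≤ n := (le_max_left _ _).trans hn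
  have m2 : n₂ ≤ n := (le_max_left _ _).trans ((le_max_right _ _).trans hn)
  have m3 : n₃ ≤ n :=
    (le_max_left _ _).trans ((le_max_right _ _).trans ((le_max_right _ _).trans hn))
  have m4 : 400 ≤ n :=
    (le_max_right _ _).trans ((le_max_right _ _).trans ((le_max_right _ _).trans hn))
  have r1 : 2 / c₁ ^ 2 ≤ (n : ℝ) := hn₁.trans (by exact_mod_cast m1)
  have r2 : 6 / c₂ ^ 3 ≤ (n : ℝ) := hn₂.trans (by exact_mod_cast m2)
  have r3 : 100 / ε ^ 2 ≤ (n : ℝ) := hn₃.trans (by exact_mod_cast m3)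
  have r4 : (400 : ℝ) ≤ n := by exact_mod_cast m4
  have hnpos : (0 : ℝ) < n := by linarith
  have hnR : 2 * (w₂ : ℝ) ≤ n := by exact_mod_cast h2
  have hw0 : (0 : ℝ) ≤ w₁ := Nat.cast_nonneg _
  set k : ℝ := (w₂ : ℝ) - w₁ with hkdef
  set g : ℝ := (n : ℝ) - 2 * w₁ with hg
  set h : ℝ := (n : ℝ) - w₁ - w₂ with hh
  have hkh : h = g - k := by rw [hh, hg, hkdef]; ring
  have hk0 : 0 < k := lt_of_lt_of_le (by positivity) hk
  have h2k : 2 * k ≤ g := by rw [hg, hkdef]; linarith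
  have hgn : g ≤ n := by rw [hg]; linarith
  have hg2 : (n : ℝ) / 2 ≤ g := by
    have : ε * n > 0 := by positivity
    rw [hg]
    linarith
  have hg0 : 0 < g := by linarith
  have hh4 : (n : ℝ) / 4 ≤ h := by rw [hkh]; linarith
  -- τ
  obtain ⟨N, hN⟩ : ∃ N, n = w₁ + N := ⟨n - w₁, by omega⟩
  obtain ⟨τ, hτ, hτw⟩ := exists_tau w₁ N w₂ h12.le (by omega)
  rw [← hN] at hτ hτw
  set i := (w₁ + 1) * (τ + 1) / (n + 2) with hi
  have hi1 : (i : ℝ) * ((n : ℝ) + 2) ≤ ((w₁ : ℝ) + 1) * (τ + 1) := by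
    have : i * (n + 2) ≤ (w₁ + 1) * (τ + 1) := Nat.div_mul_le_self _ _
    exact_mod_cast this
  have hi2 : ((w₁ : ℝ) + 1) * (τ + 1) ≤ ((i : ℝ) + 1) * ((n : ℝ) + 2) := by
    have : (w₁ + 1) * (τ + 1) ≤ (i + 1) * (n + 2) := by
      have h1 := Nat.lt_div_mul_add (a := (w₁ + 1) * (τ + 1)) (b := n + 2) (by omega)
      rw [← hi] at h1
      have h2 : (i + 1) * (n + 2) = i * (n + 2) + (n + 2) := by ring
      omega
    exact_mod_cast this
  have hτk : (τ : ℝ) = k + 2 * i := by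
    have : (w₂ : ℝ) + 2 * i = w₁ + τ := by exact_mod_cast hτw
    rw [hkdef]
    linarith
  have hup : (τ : ℝ) * g ≤ n * k + 3 * n :=
    tau_up n w₁ k τ i hτk hi1 (by rw [hkdef]; linarith)
  have hlo : (n : ℝ) * k - 3 * n ≤ τ * g :=
    tau_lo n w₁ k τ i hτk hi2 hk0.le hw0 (by linarith)
  have hτk2 : k ≤ τ := by
    have : (0 : ℝ) ≤ i := Nat.cast_nonneg _
    rw [hτk]
    linarith
  have hτ0 : (0 : ℝ) < τ := by linarith
  have hτlt : (τ : ℝ) < n := by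
    have h3 : (τ : ℝ) * g < n * g := by
      have h4 : (n : ℝ) * (2 * k) ≤ n * g := mul_le_mul_of_nonneg_left h2k hnpos.le
      have h5 : (n : ℝ) * 12 < n * g := mul_lt_mul_of_pos_left (by linarith) hnpos
      linarith
    exact lt_of_mul_lt_mul_right h3 hg0.le
  -- the product
  have hprod : (n : ℝ) ^ 2 * (k * h) - 4 * n ^ 3 ≤ τ * (n - τ) * g ^ 2 := by
    set e : ℝ := τ * g - n * k with he
    have he1 : e ≤ 3 * n := by rw [he]; linarith
    have he2 : -(3 * n) ≤ e := by rw [he]; linarith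
    have h3 : τ * (n - τ) * g ^ 2 = (n * k + e) * (n * h - e) := by
      rw [he, hkh]
      ring
    rw [h3]
    have h4 : (n * k + e) * (n * h - e) = (n : ℝ) ^ 2 * (k * h) + e * (n * (h - k) - e) := by ring
    rw [h4]
    have h5 : 0 ≤ h - k := by rw [hkh]; linarith
    have h6 : h - k ≤ n := by rw [hkh]; linarith
    have h9 := err n (h - k) e (by linarith) h5 h6 he1 he2
    linarith
  have hkh0 : ε * n ^ 2 / 4 ≤ k * h := by
    have : (ε * n) * ((n : ℝ) / 4) ≤ k * h := mul_le_mul hk hh4 (by positivity) hk0.le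
    linarith [this, (by ring : (ε * n) * ((n : ℝ) / 4) = ε * n ^ 2 / 4)]
  have r3' : 100 ≤ (n : ℝ) * ε ^ 2 := by rwa [div_le_iff₀ (by positivity)] at r3
  have hprod2 : (1 - ε / 4) * ((n : ℝ) ^ 2 * (k * h)) ≤ τ * (n - τ) * g ^ 2 := by
    have h3 : 4 * (n : ℝ) ^ 3 ≤ ε / 4 * ((n : ℝ) ^ 2 * (k * h)) := by
      have h4 : ε / 4 * ((n : ℝ) ^ 2 * (ε * n ^ 2 / 4)) ≤ ε / 4 * ((n : ℝ) ^ 2 * (k * h)) := by
        apply mul_le_mul_of_nonneg_left _ (by positivity)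
        exact mul_le_mul_of_nonneg_left hkh0 (by positivity)
      have h5 : 4 * (n : ℝ) ^ 3 ≤ ε / 4 * ((n : ℝ) ^ 2 * (ε * n ^ 2 / 4)) := by
        have h6 : ε / 4 * ((n : ℝ) ^ 2 * (ε * n ^ 2 / 4)) = (n : ℝ) ^ 3 * ((n * ε ^ 2) / 16) := by
          ring
        rw [h6]
        have h7 : (n : ℝ) ^ 3 * 4 ≤ (n : ℝ) ^ 3 * ((n * ε ^ 2) / 16) :=
          mul_le_mul_of_nonneg_left (by linarith) (by positivity)
        linarith
      linarith
    linarith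
  -- real form of the distance bound
  set R : ℝ := 2 * (τ * (1 - τ / n - lam)) with hR
  have hRe : R * (n * g ^ 2) = 2 * (τ * (n - τ) * g ^ 2) - 2 * (lam * τ) * (n * g ^ 2) := by
    rw [hR]
    field_simp
  have hg2' : 0 < (n : ℝ) * g ^ 2 := by positivity
  have hlamτ : 2 * (lam * τ) * (n * g ^ 2) ≤ ε / 2 * ((n : ℝ) ^ 2 * (k * h)) := by
    have h3 : 2 * (lam * τ) * (n * g ^ 2) ≤ 2 * (lam * n) * (n * n ^ 2) := by
      apply mul_le_mul
      · have : lam * τ ≤ lam * n := mul_le_mul_of_nonneg_left hτlt.le hlam0.le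
        linarith
      · apply mul_le_mul_of_nonneg_left _ hnpos.le
        exact pow_le_pow_left₀ hg0.le hgn 2
      · positivity
      · positivity
    have h4 : ε / 2 * ((n : ℝ) ^ 2 * (ε * n ^ 2 / 4)) ≤ ε / 2 * ((n : ℝ) ^ 2 * (k * h)) := by
      apply mul_le_mul_of_nonneg_left _ (by positivity)
      exact mul_le_mul_of_nonneg_left hkh0 (by positivity)
    have h5 : 2 * (lam * n) * (n * n ^ 2) = ε / 2 * ((n : ℝ) ^ 2 * (ε * n ^ 2 / 4)) := by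
      rw [hlam]
      ring
    linarith
  have hX0 : 0 ≤ (n : ℝ) ^ 2 * (k * h) := by
    have : 0 < h := by linarith
    positivity
  have hRlow : (2 - ε) * ((n : ℝ) ^ 2 * (k * h)) ≤ R * (n * g ^ 2) := by
    rw [hRe]
    linarith
  have hdR : (d : ℝ) ≤ R := by
    have h3 : (1 + ε) * ((d : ℝ) * (n * g ^ 2)) ≤ (1 + ε) * (R * (n * g ^ 2)) := by
      calc (1 + ε) * ((d : ℝ) * (n * g ^ 2)) = n * ((1 + ε) * ((d : ℝ) * g ^ 2)) := by ring
        _ ≤ n * (2 * n * (k * h)) := mul_le_mul_of_nonneg_left hreg hnpos.le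
        _ = 2 * ((n : ℝ) ^ 2 * (k * h)) := by ring
        _ ≤ (1 + ε) * ((2 - ε) * ((n : ℝ) ^ 2 * (k * h))) := by
            have : 2 ≤ (1 + ε) * (2 - ε) := by
              have h5 : ε * ε ≤ 1 * ε := mul_le_mul_of_nonneg_right hε1 hε.le
              linarith [(by ring : (1 + ε) * (2 - ε) = 2 + ε - ε * ε)]
            calc 2 * ((n : ℝ) ^ 2 * (k * h)) ≤ ((1 + ε) * (2 - ε)) * ((n : ℝ) ^ 2 * (k * h)) :=
                  mul_le_mul_of_nonneg_right this hX0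
              _ = _ := by ring
        _ ≤ (1 + ε) * (R * (n * g ^ 2)) := mul_le_mul_of_nonneg_left hRlow (by linarith)
    have h4 := le_of_mul_le_mul_left h3 (by linarith)
    exact le_of_mul_le_mul_right h4 hg2'
  have hR8 : ε / 4 * n ≤ R := by
    have h3 : (ε / 4 * n) * (n * g ^ 2) ≤ R * (n * g ^ 2) := by
      refine le_trans ?_ hRlow
      have h4 : (n : ℝ) ^ 2 * (ε * n ^ 2 / 4) ≤ (n : ℝ) ^ 2 * (k * h) :=
        mul_le_mul_of_nonneg_left hkh0 (by positivity)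
      have h5 : (ε / 4 * n) * (n * g ^ 2) ≤ (ε / 4 * n) * (n * n ^ 2) := by
        apply mul_le_mul_of_nonneg_left _ (by positivity)
        apply mul_le_mul_of_nonneg_left _ hnpos.le
        exact pow_le_pow_left₀ hg0.le hgn 2
      have h6 : (ε / 4 * n) * (n * (n : ℝ) ^ 2) = (n : ℝ) ^ 2 * (ε * n ^ 2 / 4) := by ring
      have h7 : 1 * ((n : ℝ) ^ 2 * (k * h)) ≤ (2 - ε) * ((n : ℝ) ^ 2 * (k * h)) :=
        mul_le_mul_of_nonneg_right (by linarith) hX0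
      linarith
    exact le_of_mul_le_mul_right h3 hg2'
  have hR0 : 0 ≤ R := by
    have : 0 ≤ ε / 4 * n := by positivity
    linarith
  set D := ⌊R⌋₊ with hDdef
  have hDle : (D : ℝ) ≤ R := Nat.floor_le hR0
  have hDge : R - 1 ≤ (D : ℝ) := (Nat.sub_one_lt_floor R).le
  have hD8 : ε / 8 * n ≤ (D : ℝ) := by
    have h3 : 1 ≤ ε / 8 * n := by
      have h5 : ε * (n * ε) ≤ 1 * (n * ε) := mul_le_mul_of_nonneg_right hε1 (by positivity)
      linarith [(by ring : (n : ℝ) * ε ^ 2 = ε * (n * ε)), (by ring : ε / 8 * (n : ℝ) = (n * ε) / 8)]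
    linarith
  refine crit n d w₁ w₂ τ i D ε lam hd (Nat.le_floor hdR) hε.le hlam0.le (by omega) ?_ ?_ ?_ hi hτw
    hDle ?_ ?_ ?_
  · have : (w₁ : ℝ) / n ≤ 1 / 4 - ε := by
      rw [div_le_iff₀ hnpos]
      exact hw4
    linarith
  · have : 0 < τ := by exact_mod_cast hτ0
    omega
  · exact_mod_cast hτlt
  · refine (exp_one c₁ n hc₁0 r1).trans (Real.exp_le_exp.mpr ?_)
    rw [hc₁]
    have : lam ^ 2 * (ε * n) ≤ lam ^ 2 * τ :=
      mul_le_mul_of_nonneg_left (hk.trans hτk2) (by positivity)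
    linarith
  · exact sqrt_big n r4
  · have h3 := exp_two c₂ n hc₂0 r2
    have h4 : Real.exp (c₂ * n) ≤ Real.exp (ε ^ 2 * D / 2) := by
      apply Real.exp_le_exp.mpr
      rw [hc₂]
      have : ε ^ 2 * (ε / 8 * n) ≤ ε ^ 2 * D := mul_le_mul_of_nonneg_left hD8 (by positivity)
      linarith
    rw [Real.exp_neg, ← div_eq_mul_inv, div_le_one (Real.exp_pos _)]
    exact h3.trans h4

end Pool.Agent.Hhelper49.CWE
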