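import Pool.Agent.Hhelper49.CWE.Almost
import Pool.Agent.Hhelper49.CWE.Asym

set_option autoImplicit false

/-! The loss is exponentially small in `w₂ - w₁`. -/

namespace Pool.Agent.Hhelper49.CWE

open Pool.Agent.Hhelper49.CWC Pool.Agent.Hhelper49.CWD

theorem numA (x : ℝ) (hx : 1120 * 8 * 128 ^ 4 ≤ x) :
    14 * x ^ 2 * Real.exp (-(x / 128)) ≤ 3 / (20 * √x) / 4 := by
  have hx1 : 1 ≤ x := le_trans (by norm_num) hx
  have hx0 : 0 < x := by linarith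
  have hs0 : 0 < √x := Real.sqrt_pos.mpr hx0
  have hsx : √x ≤ x := by
    rw [Real.sqrt_le_left hx0.le]
    nlinarith
  have h1 := Real.pow_div_factorial_le_exp (x / 128) (by positivity) 4
  have h2 : ((Nat.factorial 4 : ℕ) : ℝ) = 24 := by norm_num [Nat.factorial]
  rw [h2] at h1
  have h3 : 1120 * x ^ 3 ≤ 3 * Real.exp (x / 128) := by
    have h4 : 1120 * x ^ 3 ≤ 3 * ((x / 128) ^ 4 / 24) := by
      have h5 : x ^ 3 * (1120 * 8 * 128 ^ 4) ≤ x ^ 3 * x := mul_le_mul_of_nonneg_left hx (by positivity)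
      have h6 : 3 * ((x / 128) ^ 4 / 24) = x ^ 3 * x / (8 * 128 ^ 4) := by ring
      rw [h6, le_div_iff₀ (by positivity)]
      linarith
    linarith
  have he : 0 < Real.exp (x / 128) := Real.exp_pos _
  have e1 : 3 / (20 * √x) / 4 = 3 / (80 * √x) := by
    rw [div_div]
    ring_nf
  rw [e1, Real.exp_neg, ← div_eq_mul_inv, div_le_div_iff₀ he (by positivity)]
  calc 14 * x ^ 2 * (80 * √x) = 1120 * x ^ 2 * √x := by ring
    _ ≤ 1120 * x ^ 2 * x := mul_le_mul_of_nonneg_left hsx (by positivity)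
    _ = 1120 * x ^ 3 := by ring
    _ ≤ 3 * Real.exp (x / 128) := h3

theorem numB (ε x : ℝ) (hε : 0 < ε) (hx : 392 * 120 * 16 ^ 5 / ε ^ 10 ≤ x) :
    196 * x ^ 4 * Real.exp (-(ε ^ 2 * x / 8)) ≤ 1 / 2 * Real.exp (-(ε ^ 2 * x / 16)) := by
  have hx0 : 0 < x := lt_of_lt_of_le (by positivity) hx
  rw [div_le_iff₀ (by positivity)] at hx
  have h1 := Real.pow_div_factorial_le_exp (ε ^ 2 * x / 16) (by positivity) 5
  have h2 : ((Nat.factorial 5 : ℕ) : ℝ) = 120 := by norm_num [Nat.factorial]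
  rw [h2] at h1
  have h3 : 392 * x ^ 4 ≤ Real.exp (ε ^ 2 * x / 16) := by
    refine le_trans ?_ h1
    have h4 : x ^ 4 * (392 * 120 * 16 ^ 5) ≤ x ^ 4 * (x * ε ^ 10) :=
      mul_le_mul_of_nonneg_left hx (by positivity)
    have h5 : (ε ^ 2 * x / 16) ^ 5 / 120 = x ^ 4 * (x * ε ^ 10) / (120 * 16 ^ 5) := by ring
    rw [h5, le_div_iff₀ (by positivity)]
    linarith
  have e1 : Real.exp (-(ε ^ 2 * x / 8)) =
      Real.exp (-(ε ^ 2 * x / 16)) * Real.exp (-(ε ^ 2 * x / 16)) := by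
    rw [← Real.exp_add]
    congr 1
    ring
  rw [e1]
  have h6 : 392 * x ^ 4 * Real.exp (-(ε ^ 2 * x / 16)) ≤ 1 := by
    rw [Real.exp_neg, ← div_eq_mul_inv, div_le_one (Real.exp_pos _)]
    exact h3
  have h7 := mul_le_mul_of_nonneg_right h6 (Real.exp_pos (-(ε ^ 2 * x / 16))).le
  linarith [(by ring : 392 * x ^ 4 * Real.exp (-(ε ^ 2 * x / 16)) *
    Real.exp (-(ε ^ 2 * x / 16)) = 2 * (196 * x ^ 4 * (Real.exp (-(ε ^ 2 * x / 16)) *
    Real.exp (-(ε ^ 2 * x / 16)))))]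

theorem numC (ε x : ℝ) (hε : 0 < ε) (hε1 : ε ≤ 1) (hx : 2 ≤ x) :
    Real.exp (-x) ≤ 1 / 2 * Real.exp (-(ε ^ 2 * x / 16)) := by
  have h1 : ε ^ 2 ≤ 1 := by
    calc ε ^ 2 ≤ 1 ^ 2 := pow_le_pow_left₀ hε.le hε1 2
      _ = 1 := one_pow 2
  have h2 : ε ^ 2 * x ≤ 1 * x := mul_le_mul_of_nonneg_right h1 (by linarith)
  have h3 : (2 : ℝ) ≤ Real.exp (x - ε ^ 2 * x / 16) := by
    have h4 := Real.add_one_le_exp (x - ε ^ 2 * x / 16)
    linarith
  have e1 : Real.exp (-(ε ^ 2 * x / 16)) = Real.exp (x - ε ^ 2 * x / 16) * Real.exp (-x) := by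
    rw [← Real.exp_add]
    congr 1
    ring
  rw [e1]
  have h5 := mul_le_mul_of_nonneg_right h3 (Real.exp_pos (-x)).le
  linarith

/-- For `w₁ ≤ (1/4 - ε) n` all but the fraction `exp (- ε² (w₂ - w₁) / 16)` of a code is lifted. -/
theorem almost_asym (ε : ℝ) (hε : 0 < ε) (hε1 : ε ≤ 1) : ∃ k₀ : ℕ, ∀ n d w₁ w₂ : ℕ, 1 ≤ d →
    (w₁ : ℝ) ≤ (1 / 4 - ε) * n → w₁ + k₀ ≤ w₂ → 2 * w₂ ≤ n →
    ∀ C : Finset (Finset (Fin n)), (∀ x ∈ C, x.card = w₁) →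
    (∀ x ∈ C, ∀ y ∈ C, x ≠ y → d ≤ (symmDiff x y).card) →
    ∃ C' : Finset (Finset (Fin n)),
      (C.card : ℝ) * (1 - Real.exp (-(ε ^ 2 * ((w₂ : ℝ) - w₁) / 16))) ≤ C'.card ∧
      C'.card ≤ C.card ∧ (∀ x ∈ C', x.card = w₂) ∧
      (∀ x ∈ C', ∀ y ∈ C', x ≠ y → d ≤ (symmDiff x y).card) := by
  obtain ⟨k₁, hk₁⟩ := exists_nat_ge (392 * 120 * 16 ^ 5 / ε ^ 10)
  refine ⟨max k₁ (1120 * 8 * 128 ^ 4), ?_⟩
  intro n d w₁ w₂ hd hw4 hk h2 C hC hD
  have hkA : w₁ + k₁ ≤ w₂ := (Nat.add_le_add_left (le_max_left _ _) _).trans hk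
  have hkB : w₁ + 1120 * 8 * 128 ^ 4 ≤ w₂ := (Nat.add_le_add_left (le_max_right _ _) _).trans hk
  set k : ℝ := (w₂ : ℝ) - w₁ with hkdef
  have hkA' : (k₁ : ℝ) ≤ k := by
    have : (w₁ : ℝ) + k₁ ≤ w₂ := by exact_mod_cast hkA
    rw [hkdef]
    linarith
  have hkB' : (1120 * 8 * 128 ^ 4 : ℝ) ≤ k := by
    have : ((w₁ + 1120 * 8 * 128 ^ 4 : ℕ) : ℝ) ≤ w₂ := by exact_mod_cast hkB
    push_cast at this
    rw [hkdef]
    linarith
  have hkbig : (1000 : ℝ) ≤ k := le_trans (by norm_num) hkB'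
  have hk0 : 0 < k := by linarith
  have hexp1 : Real.exp (-(ε ^ 2 * k / 16)) ≤ 1 := by
    rw [Real.exp_le_one_iff]
    have : 0 ≤ ε ^ 2 * k / 16 := by positivity
    linarith
  rcases Nat.eq_zero_or_pos w₁ with h0 | hw1
  · -- weight zero
    have hc1 : C.card ≤ 1 := by
      rw [Finset.card_le_one]
      intro a ha b hb
      have e1 := hC a ha
      have e2 := hC b hb
      rw [h0, Finset.card_eq_zero] at e1 e2
      rw [e1, e2]
    obtain ⟨C', e1, e2, e3⟩ := tiny n d w₂ (by omega) C hc1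
    refine ⟨C', ?_, e1.le, e2, e3⟩
    rw [e1]
    have h3 : (0 : ℝ) ≤ C.card := Nat.cast_nonneg _
    have h4 := mul_le_mul_of_nonneg_left
      (sub_le_self 1 (Real.exp_pos (-(ε ^ 2 * k / 16))).le) h3
    linarith
  have hnR : 2 * (w₂ : ℝ) ≤ n := by exact_mod_cast h2
  have hw0 : (0 : ℝ) ≤ w₁ := Nat.cast_nonneg _
  have hn2k : 2 * k ≤ n := by rw [hkdef]; linarith
  have hnbig : (2000 : ℝ) ≤ n := by linarith
  have hnpos : (0 : ℝ) < n := by linarith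
  have hεn : 0 < ε * n := by positivity
  set g : ℝ := (n : ℝ) - 2 * w₁ with hg
  have h2k : 2 * k ≤ g := by rw [hg, hkdef]; linarith
  have hg2 : (n : ℝ) / 2 ≤ g := by rw [hg]; linarith
  have hg0 : 0 < g := by linarith
  have h12 : w₁ < w₂ := by omega
  -- τ
  obtain ⟨N, hN⟩ : ∃ N, n = w₁ + N := ⟨n - w₁, by omega⟩
  obtain ⟨τ, hτ, hτw⟩ := exists_tau w₁ N w₂ h12.le (by omega)
  have hmode := mode_large2 w₁ N τ hw1 (by omega)
  rw [← hN] at hτ hτw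
  set i := (w₁ + 1) * (τ + 1) / (n + 2) with hi
  have hi1 : (i : ℝ) * ((n : ℝ) + 2) ≤ ((w₁ : ℝ) + 1) * (τ + 1) := by
    have : i * (n + 2) ≤ (w₁ + 1) * (τ + 1) := Nat.div_mul_le_self _ _
    exact_mod_cast this
  have hτk : (τ : ℝ) = k + 2 * i := by
    have : (w₂ : ℝ) + 2 * i = w₁ + τ := by exact_mod_cast hτw
    rw [hkdef]
    linarith
  have hup : (τ : ℝ) * g ≤ n * k + 3 * n :=
    tau_up n w₁ k τ i hτk hi1 (by rw [hkdef]; linarith)
  have hτk2 : k ≤ τ := by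
    have : (0 : ℝ) ≤ i := Nat.cast_nonneg _
    rw [hτk]
    linarith
  have hτ0 : (0 : ℝ) < τ := by linarith
  have hτ58 : (τ : ℝ) ≤ 5 / 8 * n := by
    have h3 : (τ : ℝ) * g ≤ (5 / 8 * n) * g := by
      have h4 : (n : ℝ) * (2 * k) ≤ n * g := mul_le_mul_of_nonneg_left h2k hnpos.le
      have h5 : (n : ℝ) * 24 ≤ n * g := mul_le_mul_of_nonneg_left (by linarith) hnpos.le
      linarith
    exact le_of_mul_le_mul_right h3 hg0
  have hτlt : (τ : ℝ) < n := by linarith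
  have hτltN : τ < n := by exact_mod_cast hτlt
  have hm := hmode (by omega) (τ : ℝ) hτ0 (by
    have e : ((w₁ : ℝ) + N) = n := by exact_mod_cast hN.symm
    rw [e, div_le_iff₀ hnpos, mul_comm]
    exact mul_le_mul_of_nonneg_left (by linarith) hτ0.le)
  rw [← hN, ← hi] at hm
  have hNe : n - w₁ = N := by omega
  set s : ℝ := √(τ : ℝ) with hs
  have hs1 : 1 ≤ s := by
    rw [hs]
    apply Real.le_sqrt_of_sq_le
    linarith
  have hss : s * s = τ := Real.mul_self_sqrt hτ0.le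
  set P : ℝ := 3 / (20 * s) with hPdef
  have hP0 : 0 < P := by positivity
  have hP : P * (n.choose τ : ℝ) ≤ (hyp w₁ (n - w₁) τ i : ℝ) := by
    rw [hNe]
    have hH0 : (0 : ℝ) ≤ (hyp w₁ N τ i : ℝ) := Nat.cast_nonneg _
    have h3 : (4 * s + 1) * (hyp w₁ N τ i : ℝ) ≤ (5 * s) * (hyp w₁ N τ i : ℝ) :=
      mul_le_mul_of_nonneg_right (by linarith) hH0
    have h4 : 3 / 4 * (n.choose τ : ℝ) ≤ (5 * s) * (hyp w₁ N τ i : ℝ) := hm.trans h3
    have h5 : P * (n.choose τ : ℝ) = 3 / 4 * (n.choose τ : ℝ) / (5 * s) := by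
      rw [hPdef]
      field_simp
      ring
    rw [h5, div_le_iff₀ (by positivity)]
    linarith
  set D := τ / 2 with hDdef
  have hD1 : (D : ℝ) ≤ τ / 2 := by
    have : D * 2 ≤ τ := Nat.div_mul_le_self _ _
    have h3 : (D : ℝ) * 2 ≤ τ := by exact_mod_cast this
    linarith
  have hD2' : (τ : ℝ) / 4 ≤ D := by
    have h3 : τ ≤ 2 * D + 1 := by omega
    have h4 : (τ : ℝ) ≤ 2 * D + 1 := by exact_mod_cast h3
    linarith
  have hD1' : 1 ≤ D := by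
    have : (1 : ℝ) ≤ D := by linarith
    exact_mod_cast this
  have hDb : (D : ℝ) ≤ 2 * (τ * (1 - τ / n - 1 / 8)) := by
    have h3 : (τ : ℝ) / n ≤ 5 / 8 := by
      rw [div_le_iff₀ hnpos]
      exact hτ58
    have h4 : (τ : ℝ) * (1 / 4) ≤ τ * (1 - τ / n - 1 / 8) :=
      mul_le_mul_of_nonneg_left (by linarith) hτ0.le
    linarith
  set K := 14 * τ ^ 2 with hK
  have hKR : (K : ℝ) = 14 * (τ : ℝ) ^ 2 := by
    rw [hK]
    push_cast
    ring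
  have hKq : (K : ℝ) * Real.exp (-((1 / 8 : ℝ) ^ 2 * τ / 2)) ≤ P / 4 := by
    rw [hKR]
    have e : (1 / 8 : ℝ) ^ 2 * τ / 2 = τ / 128 := by ring
    rw [e]
    exact numA τ (by linarith)
  obtain ⟨C', h3, h4, h5, h6⟩ := almost n d w₁ w₂ τ i D K ε (1 / 8) P hd hε.le (by norm_num) hD1'
    (by omega) (by
      have : (w₁ : ℝ) / n ≤ 1 / 4 - ε := by
        rw [div_le_iff₀ hnpos]
        exact hw4
      linarith) hτltN hτw hP0 hP (by omega) hDb hKq C hC hD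
  refine ⟨C', le_trans (mul_le_mul_of_nonneg_left ?_ (Nat.cast_nonneg _)) h3, h4, h5, h6⟩
  -- the two errors
  have hP1 : P ≤ 1 := by
    rw [hPdef, div_le_one (by positivity)]
    linarith
  have hE1 : (1 - P / 2) ^ K ≤ Real.exp (-(τ : ℝ)) := by
    have h7 : 1 - P / 2 ≤ Real.exp (-(P / 2)) := by
      have := Real.add_one_le_exp (-(P / 2))
      linarith
    have h8 : (1 - P / 2) ^ K ≤ (Real.exp (-(P / 2))) ^ K :=
      pow_le_pow_left₀ (by linarith) h7 K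
    refine h8.trans ?_
    rw [← Real.exp_nat_mul]
    apply Real.exp_le_exp.mpr
    rw [hKR, hPdef]
    have h9 : 14 * (τ : ℝ) ^ 2 * -(3 / (20 * s) / 2) = -(21 / 20 * (τ * s)) := by
      rw [← hss]
      field_simp
      ring
    rw [h9]
    have h10 : (τ : ℝ) * 1 ≤ τ * s := mul_le_mul_of_nonneg_left hs1 hτ0.le
    linarith
  have hE2 : (K : ℝ) ^ 2 * Real.exp (-(ε ^ 2 * D / 2)) ≤
      196 * (τ : ℝ) ^ 4 * Real.exp (-(ε ^ 2 * τ / 8)) := by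
    rw [hKR]
    have h7 : Real.exp (-(ε ^ 2 * D / 2)) ≤ Real.exp (-(ε ^ 2 * τ / 8)) := by
      apply Real.exp_le_exp.mpr
      have : ε ^ 2 * ((τ : ℝ) / 4) ≤ ε ^ 2 * D := mul_le_mul_of_nonneg_left hD2' (by positivity)
      linarith
    calc (14 * (τ : ℝ) ^ 2) ^ 2 * Real.exp (-(ε ^ 2 * D / 2))
        ≤ (14 * (τ : ℝ) ^ 2) ^ 2 * Real.exp (-(ε ^ 2 * τ / 8)) :=
          mul_le_mul_of_nonneg_left h7 (by positivity)
      _ = _ := by ring
  have hB := numB ε τ hε (hk₁.trans (hkA'.trans hτk2))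
  have hC' := numC ε τ hε hε1 (by linarith)
  have hfin : Real.exp (-(ε ^ 2 * (τ : ℝ) / 16)) ≤ Real.exp (-(ε ^ 2 * k / 16)) := by
    apply Real.exp_le_exp.mpr
    have : ε ^ 2 * k ≤ ε ^ 2 * τ := mul_le_mul_of_nonneg_left hτk2 (by positivity)
    linarith
  linarith

end Pool.Agent.Hhelper49.CWE
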