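import Pool.Agent.Hhelper49.CWE.Fam

set_option autoImplicit false

/-! A code of weight `w₁ < n/4` flipped on many sets at once. -/

namespace Pool.Agent.Hhelper49.CWE

open Pool.Agent.Hhelper49.CWC Pool.Agent.Hhelper49.CWD

/-- `x` may be flipped on the set `T` of the family `F`. -/
def Ok {V : Type*} [DecidableEq V] (F : Finset (Finset V)) (i : ℕ) (x T : Finset V) : Prop :=
  (x ∩ T).card = i ∧
    ∀ T' ∈ F, T' ≠ T → 4 * (x ∩ symmDiff T T').card ≤ (symmDiff T T').card

/-- Distance of two flipped words. -/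
theorem dist_flip {V : Type*} [DecidableEq V] (x y U : Finset V)
    (hx : 4 * (x ∩ U).card ≤ U.card) (hy : 4 * (y ∩ U).card ≤ U.card) :
    (symmDiff x y).card ≤ (symmDiff (symmDiff x y) U).card := by
  have h1 := card_symmDiff_add (symmDiff x y) U
  have h2 : (symmDiff x y ∩ U).card ≤ (x ∩ U).card + (y ∩ U).card := by
    refine (Finset.card_le_card ?_).trans (Finset.card_union_le _ _)
    intro u hu
    rw [Finset.mem_inter, Finset.mem_symmDiff] at hu
    rw [Finset.mem_union, Finset.mem_inter, Finset.mem_inter]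
    tauto
  omega

theorem symm_four {V : Type*} [DecidableEq V] (x T y T' : Finset V) :
    symmDiff (symmDiff x T) (symmDiff y T') = symmDiff (symmDiff x y) (symmDiff T T') :=
  symmDiff_symmDiff_symmDiff_comm x T y T'

open Classical in
/-- The flipped code. -/
theorem core {V : Type*} [DecidableEq V] (d w₁ w₂ τ i : ℕ) (hd : 1 ≤ d)
    (hw : w₂ + 2 * i = w₁ + τ) (F C : Finset (Finset V)) (hF : ∀ T ∈ F, T.card = τ)
    (hF2 : ∀ T ∈ F, ∀ T' ∈ F, T ≠ T' → d ≤ (symmDiff T T').card)
    (hC : ∀ x ∈ C, x.card = w₁)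
    (hD : ∀ x ∈ C, ∀ y ∈ C, x ≠ y → d ≤ (symmDiff x y).card) :
    ∃ C' : Finset (Finset V), C'.card = ∑ x ∈ C, (F.filter (fun T => Ok F i x T)).card ∧
      (∀ x ∈ C', x.card = w₂) ∧
      (∀ x ∈ C', ∀ y ∈ C', x ≠ y → d ≤ (symmDiff x y).card) := by
  set S : Finset (Finset V × Finset V) := (C ×ˢ F).filter (fun q => Ok F i q.1 q.2) with hS
  have hdist : ∀ q ∈ S, ∀ r ∈ S, q ≠ r →
      d ≤ (symmDiff (symmDiff q.1 q.2) (symmDiff r.1 r.2)).card := by
    intro q hq r hr hne
    rw [hS, Finset.mem_filter, Finset.mem_product] at hq hr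
    rw [symm_four]
    by_cases h2 : q.2 = r.2
    · have h1 : q.1 ≠ r.1 := fun h => hne (Prod.ext h h2)
      rw [h2, symmDiff_self, symmDiff_bot]
      exact hD _ hq.1.1 _ hr.1.1 h1
    · by_cases h1 : q.1 = r.1
      · rw [h1, symmDiff_self, bot_symmDiff]
        exact hF2 _ hq.1.2 _ hr.1.2 h2
      · refine (hD _ hq.1.1 _ hr.1.1 h1).trans (dist_flip _ _ _ ?_ ?_)
        · exact hq.2.2 r.2 hr.1.2 (fun h => h2 h.symm)
        · have := hr.2.2 q.2 hq.1.2 h2
          rwa [symmDiff_comm r.2 q.2] at this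
  have hinj : Set.InjOn (fun q : Finset V × Finset V => symmDiff q.1 q.2) (S : Set _) := by
    intro q hq r hr h
    by_contra hne
    have h1 := hdist q hq r hr hne
    have h2 : symmDiff q.1 q.2 = symmDiff r.1 r.2 := h
    rw [h2, symmDiff_self] at h1
    simp at h1
    omega
  refine ⟨S.image (fun q => symmDiff q.1 q.2), ?_, ?_, ?_⟩
  · rw [Finset.card_image_of_injOn hinj, hS, Finset.card_filter, Finset.sum_product]
    apply Finset.sum_congr rfl
    intro x _
    rw [Finset.card_filter]
  · intro z hz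
    obtain ⟨q, hq, rfl⟩ := Finset.mem_image.mp hz
    rw [hS, Finset.mem_filter, Finset.mem_product] at hq
    have h1 := card_symmDiff_add q.1 q.2
    rw [hC _ hq.1.1, hF _ hq.1.2, hq.2.1] at h1
    omega
  · intro z hz z' hz' hne
    obtain ⟨q, hq, rfl⟩ := Finset.mem_image.mp hz
    obtain ⟨r, hr, rfl⟩ := Finset.mem_image.mp hz'
    apply hdist q hq r hr
    rintro rfl
    exact hne rfl

/-- Averaging of a function over the images of a code. -/
theorem exists_perm_sum {V : Type*} [DecidableEq V] [Fintype V] (C : Finset (Finset V))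
    (f : Finset V → ℕ) (w : ℕ) (hC : ∀ s ∈ C, s.card = w) :
    ∃ σ : Equiv.Perm V, C.card * ∑ t ∈ Finset.powersetCard w (Finset.univ : Finset V), f t ≤
      (∑ s ∈ C, f (act σ s)) * (Fintype.card V).choose w := by
  rcases C.eq_empty_or_nonempty with h0 | ⟨c0, hc0⟩
  · refine ⟨1, ?_⟩
    rw [h0]
    simp
  by_contra hcon
  push Not at hcon
  set J := Finset.powersetCard w (Finset.univ : Finset V) with hJ
  set N := num c0 c0 with hN
  have hconst : ∀ s t : Finset V, s.card = w → t.card = w → num s t = N := by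
    intro s t hs ht
    have h1 := hC c0 hc0
    exact le_antisymm (num_le _ _ _ _ (by omega) (by omega)) (num_le _ _ _ _ (by omega) (by omega))
  have htot : (Fintype.card V).choose w * N = Fintype.card (Equiv.Perm V) := by
    rw [← num_total c0 w (hC c0 hc0)]
    rw [Finset.sum_congr rfl (fun t ht => hconst c0 t (hC c0 hc0)
      (Finset.mem_powersetCard.mp ht).2)]
    rw [Finset.sum_const, Finset.card_powersetCard, Finset.card_univ, smul_eq_mul]
  have hsum : ∑ σ : Equiv.Perm V, ∑ s ∈ C, f (act σ s) = C.card * (∑ t ∈ J, f t) * N := by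
    rw [Finset.sum_comm]
    have h2 : ∀ s ∈ C, ∑ σ : Equiv.Perm V, f (act σ s) = (∑ t ∈ J, f t) * N := by
      intro s hs
      have h3 : ∀ σ : Equiv.Perm V, f (act σ s) = ∑ t ∈ J, if act σ s = t then f t else 0 := by
        intro σ
        rw [Finset.sum_ite_eq, if_pos]
        rw [hJ, Finset.mem_powersetCard]
        exact ⟨Finset.subset_univ _, by rw [card_act, hC s hs]⟩
      rw [Finset.sum_congr rfl (fun σ _ => h3 σ), Finset.sum_comm, Finset.sum_mul]
      apply Finset.sum_congr rfl
      intro t ht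
      rw [← Finset.sum_filter, Finset.sum_const, smul_eq_mul, mul_comm]
      have h4 := hconst s t (hC s hs) (Finset.mem_powersetCard.mp ht).2
      unfold num at h4
      rw [h4]
    rw [Finset.sum_congr rfl h2, Finset.sum_const, smul_eq_mul, mul_assoc]
  have hlt : ∑ σ : Equiv.Perm V, (∑ s ∈ C, f (act σ s)) * (Fintype.card V).choose w <
      ∑ _σ : Equiv.Perm V, C.card * ∑ t ∈ J, f t :=
    Finset.sum_lt_sum_of_nonempty Finset.univ_nonempty (fun σ _ => hcon σ)
  rw [← Finset.sum_mul, hsum, Finset.sum_const, Finset.card_univ, smul_eq_mul, ← htot] at hlt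
  have : C.card * (∑ t ∈ J, f t) * N * (Fintype.card V).choose w =
      (Fintype.card V).choose w * N * (C.card * ∑ t ∈ J, f t) := by ring
  omega

end Pool.Agent.Hhelper49.CWE
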