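import Pool.Agent.Hhelper49.CWE.Core

set_option autoImplicit false

/-! Every word is lifted twice, by two disjoint sets. -/

namespace Pool.Agent.Hhelper49.CWE

open Pool.Agent.Hhelper49.CWC Pool.Agent.Hhelper49.CWD

/-- One of the two sets of a pair. -/
def pick {V : Type*} (p : Finset V × Finset V) (b : Bool) : Finset V := if b then p.2 else p.1

theorem disj_union {V : Type*} [DecidableEq V] (p : Finset V × Finset V) (τ t : ℕ)
    (h : p.1.card = τ ∧ p.2.card = t ∧ Disjoint p.1 p.2) (b c : Bool) (hbc : b ≠ c) :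
    symmDiff (pick p b) (pick p c) = p.1 ∪ p.2 ∧ (symmDiff (pick p b) (pick p c)).card = τ + t := by
  have h1 : symmDiff (pick p b) (pick p c) = p.1 ∪ p.2 := by
    cases b <;> cases c <;> simp [pick] at hbc ⊢
    · exact h.2.2.symmDiff_eq_sup
    · rw [h.2.2.symm.symmDiff_eq_sup]
      exact Finset.union_comm _ _
  refine ⟨h1, ?_⟩
  rw [h1, Finset.card_union_of_disjoint h.2.2, h.1, h.2.1]

open Classical in
theorem assign_two {V : Type*} [DecidableEq V] (d w₁ w₂ τ t i j : ℕ) (hd : 1 ≤ d)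
    (hwi : w₂ + 2 * i = w₁ + τ) (hwj : w₂ + 2 * j = w₁ + t)
    (F : Finset (Finset V × Finset V)) (C : Finset (Finset V))
    (hF : ∀ p ∈ F, p.1.card = τ ∧ p.2.card = t ∧ Disjoint p.1 p.2)
    (hdt : d ≤ τ + t) (h4 : 4 * (i + j) ≤ τ + t)
    (hC : ∀ x ∈ C, x.card = w₁)
    (hD : ∀ x ∈ C, ∀ y ∈ C, x ≠ y → d ≤ (symmDiff x y).card)
    (h1 : ∀ x ∈ C, ∃ p ∈ F, (x ∩ p.1).card = i ∧ (x ∩ p.2).card = j)
    (h2 : ∀ x ∈ C, ∀ p ∈ F, ∀ q ∈ F, p ≠ q → ∀ b c : Bool,
      4 * (x ∩ symmDiff (pick p b) (pick q c)).card ≤ (symmDiff (pick p b) (pick q c)).card) :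
    ∃ C' : Finset (Finset V), C'.card = 2 * C.card ∧ (∀ x ∈ C', x.card = w₂) ∧
      (∀ x ∈ C', ∀ y ∈ C', x ≠ y → d ≤ (symmDiff x y).card) := by
  have hch : ∀ x : Finset V, ∃ p : Finset V × Finset V, x ∈ C → p ∈ F ∧
      (x ∩ p.1).card = i ∧ (x ∩ p.2).card = j := by
    intro x
    by_cases hx : x ∈ C
    · obtain ⟨p, hp, hi⟩ := h1 x hx
      exact ⟨p, fun _ => ⟨hp, hi⟩⟩
    · exact ⟨(∅, ∅), fun h => absurd h hx⟩
  choose g hg using hch
  -- intersections with the union of a pair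
  have hun : ∀ x ∈ C, ∀ p ∈ F, (x ∩ p.1).card = i → (x ∩ p.2).card = j →
      4 * (x ∩ (p.1 ∪ p.2)).card ≤ τ + t := by
    intro x _ p _ hi hj
    have h5 : x ∩ (p.1 ∪ p.2) = (x ∩ p.1) ∪ (x ∩ p.2) := Finset.inter_union_distrib_left _ _ _
    have h6 := Finset.card_union_le (x ∩ p.1) (x ∩ p.2)
    rw [h5]
    omega
  set f : Finset V × Bool → Finset V := fun z => symmDiff z.1 (pick (g z.1) z.2) with hf
  set S : Finset (Finset V × Bool) := C ×ˢ (Finset.univ : Finset Bool) with hS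
  have hdist : ∀ z ∈ S, ∀ y ∈ S, z ≠ y → d ≤ (symmDiff (f z) (f y)).card := by
    rintro ⟨x, b⟩ hz ⟨y, c⟩ hy hne
    rw [hS, Finset.mem_product] at hz hy
    have hx : x ∈ C := hz.1
    have hy : y ∈ C := hy.1
    show d ≤ (symmDiff (symmDiff x (pick (g x) b)) (symmDiff y (pick (g y) c))).card
    rw [symm_four]
    by_cases hxy : x = y
    · subst hxy
      have hbc : b ≠ c := fun h => hne (by rw [h])
      rw [symmDiff_self, bot_symmDiff, (disj_union (g x) τ t (hF _ (hg x hx).1) b c hbc).2]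
      exact hdt
    · refine (hD x hx y hy hxy).trans ?_
      by_cases hgg : g x = g y
      · by_cases hbc : b = c
        · rw [hgg, hbc, symmDiff_self, symmDiff_bot]
        · obtain ⟨e1, e2⟩ := disj_union (g x) τ t (hF _ (hg x hx).1) b c hbc
          rw [← hgg]
          apply dist_flip
          · rw [e2, e1]
            exact hun x hx _ (hg x hx).1 (hg x hx).2.1 (hg x hx).2.2
          · rw [e2, e1]
            have h7 := hg y hy
            rw [← hgg] at h7
            exact hun y hy _ h7.1 h7.2.1 h7.2.2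
      · exact dist_flip _ _ _ (h2 x hx _ (hg x hx).1 _ (hg y hy).1 hgg b c)
          (h2 y hy _ (hg x hx).1 _ (hg y hy).1 hgg b c)
  have hinj : Set.InjOn f (S : Set _) := by
    intro z hz y hy h
    by_contra hne
    have h3 := hdist z hz y hy hne
    rw [h, symmDiff_self] at h3
    simp at h3
    omega
  refine ⟨S.image f, ?_, ?_, ?_⟩
  · rw [Finset.card_image_of_injOn hinj, hS, Finset.card_product, Finset.card_univ,
      Fintype.card_bool]
    exact mul_comm _ _
  · intro z hz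
    obtain ⟨⟨x, b⟩, hx, rfl⟩ := Finset.mem_image.mp hz
    rw [hS, Finset.mem_product] at hx
    have hxC : x ∈ C := hx.1
    have h3 := card_symmDiff_add x (pick (g x) b)
    obtain ⟨k1, k2, k3⟩ := hg x hxC
    obtain ⟨l1, l2, -⟩ := hF _ k1
    rw [hC x hxC] at h3
    show (symmDiff x (pick (g x) b)).card = w₂
    cases b
    · have e1 : pick (g x) false = (g x).1 := rfl
      rw [e1] at h3 ⊢
      rw [l1, k2] at h3
      omega
    · have e1 : pick (g x) true = (g x).2 := rfl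
      rw [e1] at h3 ⊢
      rw [l2, k3] at h3
      omega
  · intro z hz z' hz' hne
    obtain ⟨x, hx, rfl⟩ := Finset.mem_image.mp hz
    obtain ⟨y, hy, rfl⟩ := Finset.mem_image.mp hz'
    apply hdist x hx y hy
    rintro rfl
    exact hne rfl

end Pool.Agent.Hhelper49.CWE
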