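import Pool.Agent.Hhelper49.CWE.PairCount
import Pool.Agent.Hhelper49.CWE.PairCore
import Pool.Agent.Hhelper49.CWE.Almost

set_option autoImplicit false

/-! Criterion: every word of a half of the code is lifted twice. -/

namespace Pool.Agent.Hhelper49.CWE

open Pool.Agent.Hhelper49.CWC Pool.Agent.Hhelper49.CWD

/-- Sets that are close to a given set. -/
theorem near2 (n s u D : ℕ) (lam : ℝ) (hn : 0 < n) (hl : 0 ≤ lam) (Z : Finset (Fin n))
    (hZ : Z.card = s) (hD : (D : ℝ) ≤ s + u * (1 - 2 * ((s : ℝ) / n) - 2 * lam)) :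
    (((Finset.powersetCard u (Finset.univ : Finset (Fin n))).filter
        (fun T => (symmDiff Z T).card < D)).card : ℝ) ≤
      Real.exp (-(lam ^ 2 * u / 2)) * (n.choose u : ℝ) := by
  have h4 := tail2 Z u (by rw [Fintype.card_fin]; exact hn) lam (((s : ℝ) / n + lam) * u) hl
    (by rw [Fintype.card_fin, hZ])
  rw [Fintype.card_fin] at h4
  rw [mul_comm]
  refine le_trans ?_ h4
  have h5 : (Finset.powersetCard u (Finset.univ : Finset (Fin n))).filter
        (fun T => (symmDiff Z T).card < D) ⊆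
      (Finset.powersetCard u (Finset.univ : Finset (Fin n))).filter
        (fun T => ((s : ℝ) / n + lam) * u ≤ ((T ∩ Z).card : ℝ)) := by
    intro T hT
    rw [Finset.mem_filter] at hT ⊢
    refine ⟨hT.1, ?_⟩
    have h6 := card_symmDiff_add Z T
    rw [(Finset.mem_powersetCard.mp hT.1).2, hZ, Finset.inter_comm Z T] at h6
    have h7 : ((symmDiff Z T).card : ℝ) + 2 * ((T ∩ Z).card : ℝ) = s + u := by
      exact_mod_cast h6
    have h8 : ((symmDiff Z T).card : ℝ) < D := by exact_mod_cast hT.2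
    linarith [(by ring : (s : ℝ) + u * (1 - 2 * ((s : ℝ) / n) - 2 * lam) =
      s + u - 2 * (((s : ℝ) / n + lam) * u))]
  exact_mod_cast Finset.card_le_card h5

theorem double (n d w₁ w₂ τ t i j D K k : ℕ) (eps lam P R : ℝ) (hd : 1 ≤ d) (hε : 0 ≤ eps)
    (hl : 0 ≤ lam) (hn : 0 < n) (hw : w₁ ≤ n) (hw4 : (w₁ : ℝ) / n + eps ≤ 1 / 4)
    (hτt : τ + t ≤ n)
    (hwi : w₂ + 2 * i = w₁ + τ) (hwj : w₂ + 2 * j = w₁ + t) (hi : i ≤ τ) (hj : j ≤ t)
    (hP0 : 0 < P) (hR0 : 0 < R) (hPR : P * R ≤ 2)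
    (hP : P * (n.choose τ : ℝ) ≤ (hyp w₁ (n - w₁) τ i : ℝ))
    (hR : R * ((n - τ).choose t : ℝ) ≤ (hyp (w₁ - i) (n - w₁ - (τ - i)) t j : ℝ))
    (hdt : d ≤ τ + t) (h4 : 4 * (i + j) ≤ τ + t)
    (hsep : ∀ s u : ℕ, (s = τ ∨ s = t) → (u = τ ∨ u = t) →
      (D : ℝ) ≤ s + u * (1 - 2 * ((s : ℝ) / n) - 2 * lam))
    (hk : k ≤ τ) (hk' : k ≤ t)
    (hKq : (K : ℝ) * (4 * Real.exp (-(lam ^ 2 * k / 2))) ≤ P * R / 8)
    (hgood : (1 - P * R / 2) ^ K + 4 * (K : ℝ) ^ 2 * Real.exp (-(eps ^ 2 * D / 2)) ≤ 1 / 2) :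
    Mono n d w₁ w₂ := by
  classical
  intro C hC hD2
  set B := prs (Fin n) τ t with hB
  set J := Finset.powersetCard w₁ (Finset.univ : Finset (Fin n)) with hJ
  have hJc : J.card = n.choose w₁ := by
    rw [hJ, Finset.card_powersetCard, Finset.card_univ, Fintype.card_fin]
  have hBc := prs_card (V := Fin n) τ t
  have hBc2 := prs_card2 (V := Fin n) τ t
  rw [Fintype.card_fin, ← hB] at hBc hBc2
  have hBpos : 0 < B.card := by
    rw [hBc]
    exact Nat.mul_pos (Nat.choose_pos (by omega)) (Nat.choose_pos (by omega))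
  have hBR : (0 : ℝ) < B.card := by exact_mod_cast hBpos
  have hBmem : ∀ p ∈ B, p.1.card = τ ∧ p.2.card = t ∧ Disjoint p.1 p.2 := by
    intro p hp
    rw [hB, prs, Finset.mem_filter, Finset.mem_product, Finset.mem_powersetCard,
      Finset.mem_powersetCard] at hp
    exact ⟨hp.1.1.2, hp.1.2.2, hp.2⟩
  set e : ℝ := Real.exp (-(lam ^ 2 * k / 2)) with he
  have he0 : 0 < e := Real.exp_pos _
  -- pairs close to a given set
  have hclose : ∀ (Z : Finset (Fin n)), (Z.card = τ ∨ Z.card = t) → ∀ c : Bool,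
      ((B.filter (fun q => (symmDiff Z (pick q c)).card < D)).card : ℝ) ≤ e * B.card := by
    intro Z hZ c
    have hexp : ∀ u : ℕ, k ≤ u → Real.exp (-(lam ^ 2 * u / 2)) ≤ e := by
      intro u hu
      apply Real.exp_le_exp.mpr
      have h1 : (k : ℝ) ≤ u := by exact_mod_cast hu
      have h2 : lam ^ 2 * (k : ℝ) ≤ lam ^ 2 * u := mul_le_mul_of_nonneg_left h1 (by positivity)
      linarith
    cases c
    · have h1 := prs_fst (V := Fin n) τ t (fun T => (symmDiff Z T).card < D)
      rw [Fintype.card_fin] at h1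
      have h2 : (B.filter (fun q => (symmDiff Z (pick q false)).card < D)).card =
          ((Finset.powersetCard τ (Finset.univ : Finset (Fin n))).filter
            (fun T => (symmDiff Z T).card < D)).card * (n - τ).choose t := h1
      rw [h2, hBc]
      push_cast
      have h3 := near2 n Z.card τ D lam hn hl Z rfl (hsep _ _ hZ (Or.inl rfl))
      have h4 : Real.exp (-(lam ^ 2 * τ / 2)) * (n.choose τ : ℝ) ≤ e * (n.choose τ : ℝ) :=
        mul_le_mul_of_nonneg_right (hexp τ hk) (Nat.cast_nonneg _)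
      have h5 := mul_le_mul_of_nonneg_right (h3.trans h4)
        (Nat.cast_nonneg ((n - τ).choose t) (α := ℝ))
      linarith
    · have h1 := prs_snd (V := Fin n) τ t (fun T => (symmDiff Z T).card < D)
      rw [Fintype.card_fin] at h1
      have h2 : (B.filter (fun q => (symmDiff Z (pick q true)).card < D)).card =
          ((Finset.powersetCard t (Finset.univ : Finset (Fin n))).filter
            (fun T => (symmDiff Z T).card < D)).card * (n - t).choose τ := h1
      rw [h2, hBc2]
      push_cast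
      have h3 := near2 n Z.card t D lam hn hl Z rfl (hsep _ _ hZ (Or.inr rfl))
      have h4 : Real.exp (-(lam ^ 2 * t / 2)) * (n.choose t : ℝ) ≤ e * (n.choose t : ℝ) :=
        mul_le_mul_of_nonneg_right (hexp t hk') (Nat.cast_nonneg _)
      have h5 := mul_le_mul_of_nonneg_right (h3.trans h4)
        (Nat.cast_nonneg ((n - t).choose τ) (α := ℝ))
      linarith
  set β : Finset (Fin n) × Finset (Fin n) → Finset (Fin n) × Finset (Fin n) → Prop :=
    fun p q => ∀ b c : Bool, D ≤ (symmDiff (pick p b) (pick q c)).card with hβ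
  obtain ⟨F, hFB, hFc, -, hF2, hU⟩ := greedy2 J B
    (fun x p => (x ∩ p.1).card = i ∧ (x ∩ p.2).card = j) (fun _ => True) β (P * R) K
    (mul_pos hP0 hR0) hPR hBpos
    (by
      intro x hx
      have hx2 := (Finset.mem_powersetCard.mp hx).2
      exact prs_meet x τ t i j w₁ P R hx2 hi hj hR0.le
        (by rw [Fintype.card_fin]; exact hP) (by rw [Fintype.card_fin]; exact hR))
    (by
      intro p q h b c
      rw [symmDiff_comm]
      exact h c b)
    (by
      simp only [not_true_eq_false, Finset.filter_false, Finset.card_empty, Nat.cast_zero]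
      positivity)
    (by
      intro p hp _
      have hsub : B.filter (fun q => ¬ β p q) ⊆
          (Finset.univ : Finset (Bool × Bool)).biUnion (fun z =>
            B.filter (fun q => (symmDiff (pick p z.1) (pick q z.2)).card < D)) := by
        intro q hq
        rw [Finset.mem_filter] at hq
        obtain ⟨hqB, hqβ⟩ := hq
        have hqβ' : ¬ (∀ b c : Bool, D ≤ (symmDiff (pick p b) (pick q c)).card) := hqβ
        push Not at hqβ'
        obtain ⟨b, c, hlt⟩ := hqβ'
        rw [Finset.mem_biUnion]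
        exact ⟨(b, c), Finset.mem_univ _, Finset.mem_filter.mpr ⟨hqB, hlt⟩⟩
      have h1 : ((B.filter (fun q => ¬ β p q)).card : ℝ) ≤
          ∑ z : Bool × Bool,
            ((B.filter (fun q => (symmDiff (pick p z.1) (pick q z.2)).card < D)).card : ℝ) := by
        exact_mod_cast (Finset.card_le_card hsub).trans Finset.card_biUnion_le
      have h2 : ∑ z : Bool × Bool,
            ((B.filter (fun q => (symmDiff (pick p z.1) (pick q z.2)).card < D)).card : ℝ) ≤
          ∑ _z : Bool × Bool, e * B.card := by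
        apply Finset.sum_le_sum
        rintro ⟨b, c⟩ _
        apply hclose
        cases b
        · left
          exact (hBmem p hp).1
        · right
          exact (hBmem p hp).2.1
      rw [Finset.sum_const, Finset.card_univ, Fintype.card_prod, Fintype.card_bool,
        nsmul_eq_mul] at h2
      push_cast at h2
      have h3 := mul_le_mul_of_nonneg_left (h1.trans h2) (Nat.cast_nonneg K (α := ℝ))
      have h4 := mul_le_mul_of_nonneg_right hKq hBR.le
      linarith [(by ring : (K : ℝ) * (2 * 2 * (e * B.card)) = K * (4 * e) * B.card)])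
    K le_rfl
  set M : ℝ := (n.choose w₁ : ℝ) with hM
  have hMpos : 0 < M := by
    rw [hM]
    exact_mod_cast Nat.choose_pos hw
  set U := J.filter (fun x => ∀ p ∈ F, ¬ ((x ∩ p.1).card = i ∧ (x ∩ p.2).card = j)) with hUdef
  set Zs : (((Finset (Fin n) × Finset (Fin n)) × (Finset (Fin n) × Finset (Fin n))) ×
      (Bool × Bool)) → Finset (Fin n) := fun z =>
    symmDiff (pick z.1.1 z.2.1) (pick z.1.2 z.2.2) with hZs
  set Bd : (((Finset (Fin n) × Finset (Fin n)) × (Finset (Fin n) × Finset (Fin n))) ×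
      (Bool × Bool)) → Finset (Finset (Fin n)) := fun z =>
    J.filter (fun x => ((Zs z).card : ℝ) / 4 ≤ ((x ∩ Zs z).card : ℝ)) with hBd
  set Q := ((F ×ˢ F).filter (fun p => p.1 ≠ p.2)) ×ˢ (Finset.univ : Finset (Bool × Bool)) with hQ
  have hBle : ∀ z ∈ Q, ((Bd z).card : ℝ) ≤ M * Real.exp (-(eps ^ 2 * D / 2)) := by
    intro z hz
    rw [hQ, Finset.mem_product, Finset.mem_filter, Finset.mem_product] at hz
    have h1 := tail (Zs z) w₁ (by rw [Fintype.card_fin]; exact hw)
      (by rw [Fintype.card_fin]; exact hn) eps (((Zs z).card : ℝ) / 4) hε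
      (by
        rw [Fintype.card_fin]
        have h0 : (0 : ℝ) ≤ ((Zs z).card : ℝ) := Nat.cast_nonneg _
        have := mul_le_mul_of_nonneg_right hw4 h0
        linarith)
    rw [Fintype.card_fin] at h1
    refine h1.trans (mul_le_mul_of_nonneg_left (Real.exp_le_exp.mpr ?_) hMpos.le)
    have h2 : (D : ℝ) ≤ ((Zs z).card : ℝ) := by
      exact_mod_cast hF2 _ hz.1.1.1 _ hz.1.1.2 hz.1.2 z.2.1 z.2.2
    have h3 : eps ^ 2 * (D : ℝ) ≤ eps ^ 2 * ((Zs z).card : ℝ) :=
      mul_le_mul_of_nonneg_left h2 (by positivity)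
    linarith
  set X := J.filter (fun x => (∃ p ∈ F, (x ∩ p.1).card = i ∧ (x ∩ p.2).card = j) ∧
      ∀ p ∈ F, ∀ q ∈ F, p ≠ q → ∀ b c : Bool,
      4 * (x ∩ symmDiff (pick p b) (pick q c)).card ≤ (symmDiff (pick p b) (pick q c)).card)
    with hX
  have hcover : J ⊆ X ∪ (U ∪ Q.biUnion Bd) := by
    intro x hx
    rw [Finset.mem_union, Finset.mem_union, hX, Finset.mem_filter, hUdef, Finset.mem_filter,
      Finset.mem_biUnion]
    by_cases h1 : ∃ p ∈ F, (x ∩ p.1).card = i ∧ (x ∩ p.2).card = j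
    · by_cases h2 : ∀ p ∈ F, ∀ q ∈ F, p ≠ q → ∀ b c : Bool,
        4 * (x ∩ symmDiff (pick p b) (pick q c)).card ≤ (symmDiff (pick p b) (pick q c)).card
      · exact Or.inl ⟨hx, h1, h2⟩
      · right
        right
        push Not at h2
        obtain ⟨p, hp, q, hq, hne, b, c, hlt⟩ := h2
        refine ⟨((p, q), (b, c)), ?_, ?_⟩
        · rw [hQ, Finset.mem_product, Finset.mem_filter, Finset.mem_product]
          exact ⟨⟨⟨hp, hq⟩, hne⟩, Finset.mem_univ _⟩
        · rw [hBd, Finset.mem_filter]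
          refine ⟨hx, ?_⟩
          have h3 : ((symmDiff (pick p b) (pick q c)).card : ℝ) ≤
              4 * ((x ∩ symmDiff (pick p b) (pick q c)).card : ℝ) := by
            exact_mod_cast hlt.le
          show ((symmDiff (pick p b) (pick q c)).card : ℝ) / 4 ≤
            ((x ∩ symmDiff (pick p b) (pick q c)).card : ℝ)
          linarith
    · right
      left
      refine ⟨hx, ?_⟩
      intro p hp h
      exact h1 ⟨p, hp, h⟩
  have hQc : (Q.card : ℝ) ≤ 4 * (K : ℝ) ^ 2 := by
    have h1 : Q.card ≤ (K * K) * 4 := by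
      rw [hQ, Finset.card_product, Finset.card_univ, Fintype.card_prod, Fintype.card_bool]
      apply Nat.mul_le_mul_right
      refine (Finset.card_le_card (Finset.filter_subset _ _)).trans ?_
      rw [Finset.card_product]
      exact Nat.mul_le_mul hFc hFc
    have h2 : (Q.card : ℝ) ≤ ((K : ℝ) * K) * 4 := by exact_mod_cast h1
    linarith [(by ring : (K : ℝ) ^ 2 = K * K)]
  have hXc : M * (1 / 2) ≤ X.card := by
    have h1 : J.card ≤ X.card + (U.card + ∑ p ∈ Q, (Bd p).card) :=
      (Finset.card_le_card hcover).trans ((Finset.card_union_le _ _).trans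
        (Nat.add_le_add_left ((Finset.card_union_le _ _).trans
          (Nat.add_le_add_left Finset.card_biUnion_le _)) _))
    have h2 : M ≤ (X.card : ℝ) + ((U.card : ℝ) + ∑ p ∈ Q, ((Bd p).card : ℝ)) := by
      rw [hM, ← hJc]
      exact_mod_cast h1
    have h3 : ∑ p ∈ Q, ((Bd p).card : ℝ) ≤
        (4 * (K : ℝ) ^ 2) * (M * Real.exp (-(eps ^ 2 * D / 2))) := by
      calc ∑ p ∈ Q, ((Bd p).card : ℝ) ≤ ∑ _p ∈ Q, M * Real.exp (-(eps ^ 2 * D / 2)) :=
            Finset.sum_le_sum hBle
        _ = (Q.card : ℝ) * (M * Real.exp (-(eps ^ 2 * D / 2))) := by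
            rw [Finset.sum_const, nsmul_eq_mul]
        _ ≤ _ := mul_le_mul_of_nonneg_right hQc (by positivity)
    have h4 : (U.card : ℝ) ≤ (1 - P * R / 2) ^ K * M := by
      rw [hM, ← hJc]
      convert hU
    have h5 := mul_le_mul_of_nonneg_right hgood hMpos.le
    linarith [(by ring : ((1 - P * R / 2) ^ K + 4 * (K : ℝ) ^ 2 *
      Real.exp (-(eps ^ 2 * D / 2))) * M = (1 - P * R / 2) ^ K * M +
      (4 * (K : ℝ) ^ 2) * (M * Real.exp (-(eps ^ 2 * D / 2))))]
  obtain ⟨σ, hσ⟩ := exists_perm C X w₁ hC (by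
    intro x hx
    rw [hX, Finset.mem_filter, hJ, Finset.mem_powersetCard] at hx
    exact hx.1.2)
  rw [Fintype.card_fin, card_filter_act] at hσ
  obtain ⟨hC1, hC2⟩ := act_code C σ w₁ d hC hD2
  set C₁ := (C.image (act σ)).filter (fun s => s ∈ X) with hC₁
  obtain ⟨C', e1, e2, e3⟩ := assign_two d w₁ w₂ τ t i j hd hwi hwj F C₁
    (fun p hp => hBmem p (hFB hp)) hdt h4
    (fun x hx => hC1 x (Finset.mem_filter.mp hx).1)
    (fun x hx y hy hne => hC2 x (Finset.mem_filter.mp hx).1 y (Finset.mem_filter.mp hy).1 hne)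
    (by
      intro x hx
      have := (Finset.mem_filter.mp hx).2
      rw [hX, Finset.mem_filter] at this
      exact this.2.1)
    (by
      intro x hx
      have := (Finset.mem_filter.mp hx).2
      rw [hX, Finset.mem_filter] at this
      exact this.2.2)
  refine shrink C C' ?_ e2 e3
  rw [e1]
  have h1 : (C.card : ℝ) * X.card ≤ (C₁.card : ℝ) * M := by
    rw [hM]
    exact_mod_cast hσ
  have h2 : (C.card : ℝ) * (M * (1 / 2)) ≤ (C₁.card : ℝ) * M :=
    (mul_le_mul_of_nonneg_left hXc (Nat.cast_nonneg _)).trans h1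
  have h3 : (C.card : ℝ) * M ≤ (2 * (C₁.card : ℝ)) * M := by linarith
  have h5 := le_of_mul_le_mul_right h3 hMpos
  exact_mod_cast h5

end Pool.Agent.Hhelper49.CWE
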