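import Pool.Agent.Hhelper49.CWE.Double
import Pool.Agent.Hhelper49.CWE.Near

set_option autoImplicit false

/-! Distances below `2 n (w₂ - w₁) / (n - 2 w₁)`. -/

namespace Pool.Agent.Hhelper49.CWE

open Pool.Agent.Hhelper49.CWC Pool.Agent.Hhelper49.CWD

theorem exp_sq (A c n : ℝ) (hc : 0 < c) (hn0 : 0 < n) (hn : 6 * A / c ^ 3 ≤ n) :
    A * n ^ 2 ≤ Real.exp (c * n) := by
  have h1 := Real.pow_div_factorial_le_exp (c * n) (by positivity) 3
  have h3 : ((Nat.factorial 3 : ℕ) : ℝ) = 6 := by norm_num [Nat.factorial]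
  rw [h3] at h1
  rw [div_le_iff₀ (by positivity)] at hn
  have h4 : (6 * A) * n ^ 2 ≤ (n * c ^ 3) * n ^ 2 := mul_le_mul_of_nonneg_right hn (by positivity)
  have h5 : (c * n) ^ 3 / 6 = (n * c ^ 3) * n ^ 2 / 6 := by ring
  have h6 : A * n ^ 2 ≤ (n * c ^ 3) * n ^ 2 / 6 := by linarith
  linarith

theorem second_up (n g k τ t : ℝ) (hn : 0 < n) (hg : 0 < g) (hk : 9 ≤ k) (h2k : 2 * k ≤ g)
    (hB : n * k - 3 * n ≤ τ * g) (hC : t * (g - k) ≤ (n - τ) * k + 3 * (n - τ)) :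
    t * g ≤ n * (k + 7) := by
  have hgk : k ≤ g - k := by linarith
  have hgk0 : 0 < g - k := by linarith
  have h1 : (t * (g - k)) * g ≤ ((n - τ) * k + 3 * (n - τ)) * g :=
    mul_le_mul_of_nonneg_right hC hg.le
  have h2 : (k + 3) * (n * k - 3 * n) ≤ (k + 3) * (τ * g) :=
    mul_le_mul_of_nonneg_left hB (by linarith)
  have h3 : (t * g) * (g - k) ≤ (n * (k + 7)) * (g - k) := by
    have h4 : n * (3 * (k + 3)) ≤ n * (4 * (g - k)) :=
      mul_le_mul_of_nonneg_left (by linarith) hn.le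
    linarith [(by ring : ((n - τ) * k + 3 * (n - τ)) * g = (k + 3) * (n * g) - (k + 3) * (τ * g)),
      (by ring : (k + 3) * (n * k - 3 * n) = (k + 3) * (n * g) - (k + 3) * n * (g - k) -
        n * (3 * (k + 3))),
      (by ring : (n * (k + 7)) * (g - k) = (k + 3) * n * (g - k) + n * (4 * (g - k))),
      (by ring : (t * (g - k)) * g = (t * g) * (g - k))]
  exact le_of_mul_le_mul_right h3 hgk0

theorem second_lo (n g k τ t : ℝ) (hn : 0 < n) (hg : 0 < g) (hk : 9 ≤ k) (h2k : 2 * k ≤ g)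
    (hA : τ * g ≤ n * k + 3 * n) (hD : (n - τ) * k - 3 * (n - τ) ≤ t * (g - k)) :
    n * (k - 6) ≤ t * g := by
  have hgk : k ≤ g - k := by linarith
  have hgk0 : 0 < g - k := by linarith
  have h1 : ((n - τ) * k - 3 * (n - τ)) * g ≤ (t * (g - k)) * g :=
    mul_le_mul_of_nonneg_right hD hg.le
  have h2 : (k - 3) * (τ * g) ≤ (k - 3) * (n * k + 3 * n) :=
    mul_le_mul_of_nonneg_left hA (by linarith)
  have h3 : (n * (k - 6)) * (g - k) ≤ (t * g) * (g - k) := by
    have h4 : n * (3 * (k - 3)) ≤ n * (3 * (g - k)) :=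
      mul_le_mul_of_nonneg_left (by linarith) hn.le
    linarith [(by ring : ((n - τ) * k - 3 * (n - τ)) * g = (k - 3) * (n * g) - (k - 3) * (τ * g)),
      (by ring : (k - 3) * (n * k + 3 * n) = (k - 3) * (n * g) - (k - 3) * n * (g - k) +
        n * (3 * (k - 3))),
      (by ring : (n * (k - 6)) * (g - k) = (k - 3) * n * (g - k) - n * (3 * (g - k))),
      (by ring : (t * (g - k)) * g = (t * g) * (g - k))]
  exact le_of_mul_le_mul_right h3 hgk0

/-- Distances below `2 n (w₂ - w₁) / (n - 2 w₁)`. -/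
theorem double_dist (ε : ℝ) (hε : 0 < ε) (hε1 : ε ≤ 1) : ∃ k₀ : ℕ, ∀ n d w₁ w₂ : ℕ,
    1 ≤ d → w₁ + k₀ ≤ w₂ → 2 * w₂ ≤ n →
    (w₁ : ℝ) ≤ (1 / 4 - ε) * n →
    (1 + ε) * ((d : ℝ) * ((n : ℝ) - 2 * w₁)) ≤ 2 * (n : ℝ) * ((w₂ : ℝ) - w₁) →
    Mono n d w₁ w₂ := by
  set lam : ℝ := 1 / 8 with hlam
  have hlam0 : 0 < lam := by positivity
  set c₁ : ℝ := lam ^ 2 / 2 with hc₁
  have hc₁0 : 0 < c₁ := by positivity
  set c₂ : ℝ := ε ^ 2 / 16 with hc₂
  have hc₂0 : 0 < c₂ := by positivity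
  obtain ⟨n₁, hn₁⟩ := exists_nat_ge (6 * 1200000 / c₁ ^ 3)
  obtain ⟨n₂, hn₂⟩ := exists_nat_ge (6 * 2560000 / c₂ ^ 3)
  obtain ⟨n₃, hn₃⟩ := exists_nat_ge (200 / ε)
  refine ⟨max n₁ (max n₂ n₃), ?_⟩
  intro n d w₁ w₂ hd hk0 h2 hw4 hreg
  have m1 : n₁ ≤ w₂ - w₁ := by
    have := le_max_left n₁ (max n₂ n₃)
    omega
  have m2 : n₂ ≤ w₂ - w₁ := by
    have := (le_max_left n₂ n₃).trans (le_max_right n₁ _)
    omega
  have m3 : n₃ ≤ w₂ - w₁ := by
    have := (le_max_right n₂ n₃).trans (le_max_right n₁ _)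
    omega
  have h12' : w₁ ≤ w₂ := by omega
  have hknat : ((w₂ - w₁ : ℕ) : ℝ) = (w₂ : ℝ) - w₁ := by rw [Nat.cast_sub h12']
  set k : ℝ := (w₂ : ℝ) - w₁ with hkdef
  have r1 : 6 * 1200000 / c₁ ^ 3 ≤ k := by
    rw [← hknat]
    exact hn₁.trans (by exact_mod_cast m1)
  have r2 : 6 * 2560000 / c₂ ^ 3 ≤ k := by
    rw [← hknat]
    exact hn₂.trans (by exact_mod_cast m2)
  have r3 : 200 / ε ≤ k := by
    rw [← hknat]
    exact hn₃.trans (by exact_mod_cast m3)
  have hk00 : 0 < k := lt_of_lt_of_le (by positivity) r3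
  have hεk : 200 ≤ ε * k := by
    rw [div_le_iff₀ hε] at r3
    linarith
  have hk200 : 200 ≤ k := by
    have : ε * k ≤ 1 * k := mul_le_mul_of_nonneg_right hε1 hk00.le
    linarith
  have hk200N : 200 ≤ w₂ - w₁ := by
    have : (200 : ℝ) ≤ ((w₂ - w₁ : ℕ) : ℝ) := by
      rw [hknat]
      exact hk200
    exact_mod_cast this
  have h12 : w₁ < w₂ := by omega
  have hnR : 2 * (w₂ : ℝ) ≤ n := by exact_mod_cast h2
  have hw0 : (0 : ℝ) ≤ w₁ := Nat.cast_nonneg _
  have hkn : 2 * k ≤ n := by rw [hkdef]; linarith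
  have hnpos : (0 : ℝ) < n := by linarith
  have r6 : 200 ≤ (n : ℝ) := by linarith
  rcases Nat.lt_or_ge w₁ 12 with hs | hs
  · exact mono_double8 n d w₁ w₂ hd (by omega) h2 (by omega)
  set g : ℝ := (n : ℝ) - 2 * w₁ with hg
  have h2k : 2 * k ≤ g := by rw [hg, hkdef]; linarith
  have hgn : g ≤ n := by rw [hg]; linarith
  have hg2 : (1 / 2 + 2 * ε) * (n : ℝ) ≤ g := by rw [hg]; linarith
  have hg0 : 0 < g := by linarith
  have hεn0 : 0 < ε * (n : ℝ) := by positivity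
  have hw12N : 12 ≤ w₁ := hs
  have hw12 : (12 : ℝ) ≤ w₁ := by exact_mod_cast hs
  have hw4N : 4 * w₁ ≤ n := by
    have : 4 * (w₁ : ℝ) ≤ n := by linarith
    exact_mod_cast this
  -- the first set
  obtain ⟨N, hN⟩ : ∃ N, n = w₁ + N := ⟨n - w₁, by omega⟩
  obtain ⟨τ, hτ, hτw⟩ := exists_tau w₁ N w₂ h12.le (by omega)
  have hτposN : 0 < τ := by omega
  have hτpos : (0 : ℝ) < τ := by exact_mod_cast hτposN
  have hmode := mode_large2 w₁ N τ (by omega) (by omega) hτ τ hτpos (by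
    rw [div_le_iff₀ (by exact_mod_cast (by omega : 0 < w₁ + N))]
    have h3 : (0 : ℝ) ≤ N := Nat.cast_nonneg _
    have h4 : (τ : ℝ) * w₁ ≤ τ * ((w₁ : ℝ) + N) :=
      mul_le_mul_of_nonneg_left (by linarith) hτpos.le
    linarith)
  have hNn : N = n - w₁ := by omega
  rw [← hN] at hτ hτw hmode
  rw [hNn] at hmode
  set i := (w₁ + 1) * (τ + 1) / (n + 2) with hi
  have hi1 : (i : ℝ) * ((n : ℝ) + 2) ≤ ((w₁ : ℝ) + 1) * (τ + 1) := by
    have : i * (n + 2) ≤ (w₁ + 1) * (τ + 1) := Nat.div_mul_le_self _ _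
    exact_mod_cast this
  have hi2 : ((w₁ : ℝ) + 1) * (τ + 1) ≤ ((i : ℝ) + 1) * ((n : ℝ) + 2) := by
    have : (w₁ + 1) * (τ + 1) ≤ (i + 1) * (n + 2) := by
      have h1 := Nat.lt_div_mul_add (a := (w₁ + 1) * (τ + 1)) (b := n + 2) (by omega)
      rw [← hi] at h1
      have h2 : (i + 1) * (n + 2) = i * (n + 2) + (n + 2) := by ring
      omega
    exact_mod_cast this
  have hi0 : (0 : ℝ) ≤ i := Nat.cast_nonneg _
  have hτk : (τ : ℝ) = k + 2 * i := by
    have : (w₂ : ℝ) + 2 * i = w₁ + τ := by exact_mod_cast hτw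
    rw [hkdef]
    linarith
  have hA : (τ : ℝ) * g ≤ n * k + 3 * n :=
    tau_up n w₁ k τ i hτk hi1 (by rw [hkdef]; linarith)
  have hB : (n : ℝ) * k - 3 * n ≤ τ * g :=
    tau_lo n w₁ k τ i hτk hi2 (by linarith) hw0 (by linarith)
  have hkτ : k ≤ τ := by linarith
  have hτ6 : (τ : ℝ) ≤ n / 2 + 6 := by
    have h3 : (τ : ℝ) * g ≤ (n / 2 + 6) * g := by
      have h4 : (n : ℝ) * (2 * k) ≤ n * g := mul_le_mul_of_nonneg_left h2k hnpos.le
      linarith
    exact le_of_mul_le_mul_right h3 hg0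
  -- the intersection is smaller than the word
  have hiw : i + 1 ≤ w₁ := by
    have h3 : (i : ℝ) * ((n : ℝ) + 2) < w₁ * (n + 2) := by
      have h4 : ((w₁ : ℝ) + 1) * (τ + 1) ≤ (w₁ + 1) * (n / 2 + 7) :=
        mul_le_mul_of_nonneg_left (by linarith) (by linarith)
      have h5 : 200 * (w₁ : ℝ) ≤ n * w₁ := mul_le_mul_of_nonneg_right r6 hw0
      have h6 : 12 * (n : ℝ) ≤ w₁ * n := mul_le_mul_of_nonneg_right hw12 hnpos.le
      linarith
    have h4 : (i : ℝ) < w₁ := lt_of_mul_lt_mul_right h3 (by linarith)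
    have h5 : i < w₁ := by exact_mod_cast h4
    omega
  -- the second set
  set w' := w₁ - i with hw'
  set N' := n - w₁ - (τ - i) with hN'
  have hτi : i ≤ τ := by omega
  have hN'1 : N' + w₂ + i = n := by omega
  have hwN' : w' + N' = n - τ := by omega
  obtain ⟨t, ht, htw⟩ := exists_tau w' N' (w' + (w₂ - w₁)) (by omega) (by omega)
  have hn'pos : 0 < w' + N' := by omega
  have htposN : 0 < t := by omega
  have htpos : (0 : ℝ) < t := by exact_mod_cast htposN
  have hmode' := mode_large2 w' N' t (by omega) (by omega) ht t htpos (by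
    rw [div_le_iff₀ (by exact_mod_cast hn'pos)]
    have h3 : (0 : ℝ) ≤ N' := Nat.cast_nonneg _
    have h4 : (t : ℝ) * w' ≤ t * ((w' : ℝ) + N') :=
      mul_le_mul_of_nonneg_left (by linarith) htpos.le
    linarith)
  set j := (w' + 1) * (t + 1) / (w' + N' + 2) with hj
  have hj1 : (j : ℝ) * (((w' + N' : ℕ) : ℝ) + 2) ≤ ((w' : ℝ) + 1) * (t + 1) := by
    have : j * (w' + N' + 2) ≤ (w' + 1) * (t + 1) := Nat.div_mul_le_self _ _
    exact_mod_cast this
  have hj2 : ((w' : ℝ) + 1) * (t + 1) ≤ ((j : ℝ) + 1) * (((w' + N' : ℕ) : ℝ) + 2) := by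
    have : (w' + 1) * (t + 1) ≤ (j + 1) * (w' + N' + 2) := by
      have h1 := Nat.lt_div_mul_add (a := (w' + 1) * (t + 1)) (b := w' + N' + 2) (by omega)
      rw [← hj] at h1
      have h2 : (j + 1) * (w' + N' + 2) = j * (w' + N' + 2) + (w' + N' + 2) := by ring
      omega
    exact_mod_cast this
  have hτn : τ ≤ n := hτ
  have hn'R : ((w' + N' : ℕ) : ℝ) = (n : ℝ) - τ := by
    rw [hwN', Nat.cast_sub hτn]
  have hw'R : (w' : ℝ) = (w₁ : ℝ) - i := by
    rw [hw', Nat.cast_sub (by omega)]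
  rw [hn'R] at hj1 hj2
  have htN : w₂ + 2 * j = w₁ + t := by omega
  have hj0 : (0 : ℝ) ≤ j := Nat.cast_nonneg _
  have htk : (t : ℝ) = k + 2 * j := by
    have : (w₂ : ℝ) + 2 * j = w₁ + t := by exact_mod_cast htN
    rw [hkdef]
    linarith
  have hg' : ((n : ℝ) - τ) - 2 * w' = g - k := by
    rw [hw'R, hg, hτk]
    ring
  have hn'4 : (4 : ℝ) ≤ (n : ℝ) - τ := by linarith
  have hC : (t : ℝ) * (g - k) ≤ (n - τ) * k + 3 * (n - τ) := by
    rw [← hg']
    exact tau_up (n - τ) w' k t j htk hj1 (by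
      have h3 : 0 ≤ (g - k) - k := by linarith
      linarith)
  have hD : ((n : ℝ) - τ) * k - 3 * (n - τ) ≤ t * (g - k) := by
    rw [← hg']
    exact tau_lo (n - τ) w' k t j htk hj2 (by linarith) (Nat.cast_nonneg _) hn'4
  have hkt : k ≤ t := by linarith
  have htup := second_up n g k τ t hnpos hg0 (by linarith) h2k hB hC
  have htlo := second_lo n g k τ t hnpos hg0 (by linarith) h2k hA hD
  have ht14 : (t : ℝ) ≤ n / 2 + 14 := by
    have h3 : (t : ℝ) * g ≤ (n / 2 + 14) * g := by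
      have h4 : (n : ℝ) * (2 * k) ≤ n * g := mul_le_mul_of_nonneg_left h2k hnpos.le
      linarith
    exact le_of_mul_le_mul_right h3 hg0
  have hτ2k : (τ : ℝ) ≤ 2 * k := by
    have h3 : (τ : ℝ) * g ≤ (2 * k) * g := by
      have h4 : (2 * k) * ((1 / 2 + 2 * ε) * (n : ℝ)) ≤ (2 * k) * g :=
        mul_le_mul_of_nonneg_left hg2 (by linarith)
      have h5 : 200 * (n : ℝ) ≤ (ε * k) * n := mul_le_mul_of_nonneg_right hεk hnpos.le
      linarith
    exact le_of_mul_le_mul_right h3 hg0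
  have ht2k : (t : ℝ) ≤ 2 * k := by
    have h3 : (t : ℝ) * g ≤ (2 * k) * g := by
      have h4 : (2 * k) * ((1 / 2 + 2 * ε) * (n : ℝ)) ≤ (2 * k) * g :=
        mul_le_mul_of_nonneg_left hg2 (by linarith)
      have h5 : 200 * (n : ℝ) ≤ (ε * k) * n := mul_le_mul_of_nonneg_right hεk hnpos.le
      linarith
    exact le_of_mul_le_mul_right h3 hg0
  set D := ⌊k / 4⌋₊ with hDdef
  have hDle : (D : ℝ) ≤ k / 4 := Nat.floor_le (by positivity)
  have hDge : k / 8 ≤ (D : ℝ) := by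
    have h3 := Nat.sub_one_lt_floor (k / 4)
    linarith
  have h2k0 : 0 < 2 * k := by linarith
  have hsq0 : 0 < √(2 * k) := Real.sqrt_pos.mpr h2k0
  have hsq1 : 1 ≤ √(2 * k) := Real.one_le_sqrt.mpr (by linarith)
  have hsqq : √(2 * k) * √(2 * k) = 2 * k := Real.mul_self_sqrt h2k0.le
  set P : ℝ := 3 / (20 * √(2 * k)) with hP
  have hP0 : 0 < P := by positivity
  have hPP : P * P = 9 / (800 * k) := by
    rw [hP, div_mul_div_comm]
    congr 1
    · norm_num
    · linarith [(by ring : 20 * √(2 * k) * (20 * √(2 * k)) = 400 * (√(2 * k) * √(2 * k)))]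
  have hPPn : (9 : ℝ) / (800 * k) * k = 9 / 800 := by
    field_simp
  have hmd : ∀ (A H x : ℝ), 0 ≤ H → x ≤ 2 * k → 3 / 4 * A ≤ (4 * √x + 1) * H → P * A ≤ H := by
    intro A H x hH hx h
    have h2 : √x ≤ √(2 * k) := Real.sqrt_le_sqrt hx
    have h3 : (4 * √x + 1) * H ≤ (5 * √(2 * k)) * H :=
      mul_le_mul_of_nonneg_right (by linarith) hH
    have h4 : (P * A) * (5 * √(2 * k)) = 3 / 4 * A := by
      rw [hP]
      field_simp
      ring
    have h5 : (P * A) * (5 * √(2 * k)) ≤ H * (5 * √(2 * k)) := by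
      rw [h4]
      linarith
    exact le_of_mul_le_mul_right h5 (by positivity)
  have e1 := exp_sq 1200000 c₁ k hc₁0 hk00 r1
  have e2 := exp_sq 2560000 c₂ k hc₂0 hk00 r2
  refine double n d w₁ w₂ τ t i j D (400 * (w₂ - w₁)) (w₂ - w₁) ε lam P P hd hε.le hlam0.le
    (by omega) (by omega) ?_ (by omega) hτw htN hτi (by omega) hP0 hP0 ?_
    (hmd _ _ _ (Nat.cast_nonneg _) hτ2k hmode) ?_ ?_ ?_ ?_ (by omega) (by omega) ?_ ?_
  · have : (w₁ : ℝ) / n ≤ 1 / 4 - ε := by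
      rw [div_le_iff₀ hnpos]
      exact hw4
    linarith
  · rw [hPP, div_le_iff₀ (by positivity)]
    linarith
  · rw [hwN'] at hmode'
    exact hmd _ _ _ (Nat.cast_nonneg _) ht2k hmode'
  · -- d ≤ τ + t
    have h3 : (1 + ε) * ((d : ℝ) * g) ≤ (1 + ε) * (((τ : ℝ) + t) * g) := by
      refine hreg.trans ?_
      have h4 : (n : ℝ) * (2 * k - 9) ≤ ((τ : ℝ) + t) * g := by linarith
      have h5 := mul_le_mul_of_nonneg_left h4 (by linarith : 0 ≤ 1 + ε)
      have h6 : 200 * (n : ℝ) ≤ (ε * k) * n := mul_le_mul_of_nonneg_right hεk hnpos.le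
      have h7 : ε * (n : ℝ) ≤ 1 * n := mul_le_mul_of_nonneg_right hε1 hnpos.le
      linarith [(by ring : (1 + ε) * ((n : ℝ) * (2 * k - 9)) =
        2 * (n : ℝ) * k - 9 * n + 2 * ((ε * k) * n) - 9 * (ε * n))]
    have h4 := le_of_mul_le_mul_left h3 (by linarith)
    have h5 := le_of_mul_le_mul_right h4 hg0
    exact_mod_cast h5
  · -- intersections
    have h3 : 4 * ((i : ℝ) + j) ≤ τ + t := by linarith
    exact_mod_cast h3
  · -- separation
    intro s u hs hu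
    have hs1 : k ≤ (s : ℝ) ∧ (s : ℝ) ≤ n / 2 + 14 := by
      rcases hs with rfl | rfl
      · exact ⟨hkτ, by linarith⟩
      · exact ⟨hkt, ht14⟩
    have hu1 : (u : ℝ) ≤ 2 * k := by
      rcases hu with rfl | rfl
      · exact hτ2k
      · exact ht2k
    have hu0 : (0 : ℝ) ≤ u := Nat.cast_nonneg _
    have h3 : -(28 + k / 2) ≤ (u : ℝ) * (1 - 2 * ((s : ℝ) / n) - 2 * lam) := by
      have h4 : -(28 / n) ≤ 1 - 2 * ((s : ℝ) / n) := by
        have h5 : (s : ℝ) / n ≤ (n / 2 + 14) / n := div_le_div_of_nonneg_right hs1.2 hnpos.le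
        have h6 : ((n : ℝ) / 2 + 14) / n = 1 / 2 + 14 / n := by
          field_simp
        rw [h6] at h5
        linarith [(by ring : 28 / (n : ℝ) = 2 * (14 / n))]
      have h5 : (u : ℝ) * (28 / n + 2 * lam) ≤ 28 + k / 2 := by
        have h6 : (u : ℝ) * (28 / n) ≤ n * (28 / n) :=
          mul_le_mul_of_nonneg_right (by linarith) (by positivity)
        have h7 : (n : ℝ) * (28 / n) = 28 := by
          field_simp
        have h8 : (u : ℝ) * (2 * lam) ≤ (2 * k) * (2 * lam) :=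
          mul_le_mul_of_nonneg_right hu1 (by positivity)
        have h9 : (2 * k) * (2 * lam) = k / 2 := by
          rw [hlam]
          ring
        linarith
      have h7 : (u : ℝ) * (-(28 / n + 2 * lam)) ≤ u * (1 - 2 * ((s : ℝ) / n) - 2 * lam) :=
        mul_le_mul_of_nonneg_left (by linarith) hu0
      linarith
    linarith [hs1.1]
  · -- K q
    push_cast [Nat.cast_sub h12']
    rw [hPP, ← hkdef]
    set E := Real.exp (-(lam ^ 2 * k / 2)) with hE
    have hE0 : 0 < E := Real.exp_pos _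
    have h4 : E * Real.exp (c₁ * k) = 1 := by
      rw [hE, ← Real.exp_add, hc₁]
      rw [(by ring : -(lam ^ 2 * k / 2) + lam ^ 2 / 2 * k = 0), Real.exp_zero]
    have h5 : E * (1200000 * k ^ 2) ≤ 1 := by
      rw [← h4]
      exact mul_le_mul_of_nonneg_left e1 hE0.le
    rw [div_div, le_div_iff₀ (by positivity)]
    linarith [(by ring : 400 * k * (4 * E) * (800 * k * 8) =
      (E * (1200000 * k ^ 2)) * (10240000 / 1200000))]
  · -- good words
    push_cast [Nat.cast_sub h12']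
    rw [hPP, ← hkdef]
    have h3 : (1 - 9 / (800 * k) / 2) ^ (400 * (w₂ - w₁)) ≤ 1 / 4 := by
      have h4 : (1 - 9 / (800 * k) / 2) ^ (400 * (w₂ - w₁)) ≤
          Real.exp (-(9 / (800 * k) / 2)) ^ (400 * (w₂ - w₁)) := by
        apply pow_le_pow_left₀
        · have : 9 / (800 * k) ≤ 1 := by
            rw [div_le_one (by positivity)]
            linarith
          linarith
        · exact Real.one_sub_le_exp_neg _
      have h5 : Real.exp (-(9 / (800 * k) / 2)) ^ (400 * (w₂ - w₁)) = Real.exp (-(9 / 4)) := by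
        rw [← Real.exp_nat_mul]
        congr 1
        push_cast [Nat.cast_sub h12']
        rw [← hkdef]
        linarith [(by ring : 400 * k * (-(9 / (800 * k) / 2)) =
          -200 * (9 / (800 * k) * k))]
      rw [h5] at h4
      refine h4.trans ?_
      rw [Real.exp_neg, inv_eq_one_div]
      apply one_div_le_one_div_of_le (by norm_num)
      have := Real.quadratic_le_exp_of_nonneg (x := 9 / 4) (by norm_num)
      linarith
    have h4 : 4 * (400 * k) ^ 2 * Real.exp (-(ε ^ 2 * D / 2)) ≤ 1 / 4 := by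
      have h5 : Real.exp (c₂ * k) ≤ Real.exp (ε ^ 2 * D / 2) := by
        apply Real.exp_le_exp.mpr
        rw [hc₂]
        have : ε ^ 2 * (k / 8) ≤ ε ^ 2 * D := mul_le_mul_of_nonneg_left hDge (by positivity)
        linarith
      set E := Real.exp (-(ε ^ 2 * D / 2)) with hE
      have hE0 : 0 < E := Real.exp_pos _
      have h6 : E * Real.exp (ε ^ 2 * D / 2) = 1 := by
        rw [hE, ← Real.exp_add, neg_add_cancel, Real.exp_zero]
      have h7 : E * (2560000 * k ^ 2) ≤ 1 := by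
        rw [← h6]
        exact mul_le_mul_of_nonneg_left (e2.trans h5) hE0.le
      linarith [(by ring : 4 * (400 * k) ^ 2 * E = (E * (2560000 * k ^ 2)) / 4)]
    linarith

end Pool.Agent.Hhelper49.CWE
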