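import Pool.Agent.Hhelper49.CWE.Mgf

set_option autoImplicit false

/-! Many sets of the same size far apart. -/

namespace Pool.Agent.Hhelper49.CWE

open Pool.Agent.Hhelper49.CWC Pool.Agent.Hhelper49.CWD

theorem exists_family (n τ D K : ℕ) (lam : ℝ) (hn : 0 < n) (hτ : τ ≤ n) (hl : 0 ≤ lam)
    (hD : (D : ℝ) ≤ 2 * (τ * (1 - τ / n - lam)))
    (hK : (K : ℝ) ≤ Real.exp (lam ^ 2 * τ / 2)) :
    ∃ F : Finset (Finset (Fin n)), F.card = K ∧ (∀ T ∈ F, T.card = τ) ∧
      ∀ T ∈ F, ∀ T' ∈ F, T ≠ T' → D ≤ (symmDiff T T').card := by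
  classical
  obtain ⟨C', ⟨hC, hC2⟩, hmax⟩ := exists_largest n D τ
  set J := Finset.powersetCard τ (Finset.univ : Finset (Fin n)) with hJ
  set t : ℝ := ((τ : ℝ) / n + lam) * τ with ht
  have hτ0 : (0 : ℝ) ≤ τ := Nat.cast_nonneg _
  have hD0 : (0 : ℝ) ≤ D := Nat.cast_nonneg _
  have hcover : J ⊆ C'.biUnion (fun T => J.filter (fun y => t ≤ ((y ∩ T).card : ℝ))) := by
    intro y hy
    have hyc : y.card = τ := (Finset.mem_powersetCard.mp hy).2
    rw [Finset.mem_biUnion]
    by_cases hyC : y ∈ C'
    · refine ⟨y, hyC, ?_⟩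
      rw [Finset.mem_filter]
      refine ⟨hy, ?_⟩
      rw [Finset.inter_self, hyc, ht]
      nlinarith
    · by_contra hcon
      push Not at hcon
      have h1 : ∀ T ∈ C', D ≤ (symmDiff y T).card := by
        intro T hT
        have h2 := hcon T hT
        rw [Finset.mem_filter] at h2
        push Not at h2
        have h3 := h2 hy
        have h4 := card_symmDiff_add y T
        rw [hyc, hC T hT] at h4
        have h5 : ((symmDiff y T).card : ℝ) + 2 * ((y ∩ T).card : ℝ) = τ + τ := by
          exact_mod_cast h4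
        have h6 : (D : ℝ) ≤ ((symmDiff y T).card : ℝ) := by
          rw [ht] at h3
          nlinarith
        exact_mod_cast h6
      have h2 := hmax (insert y C') ?_ ?_
      · rw [Finset.card_insert_of_notMem hyC] at h2
        omega
      · intro s hs
        rcases Finset.mem_insert.mp hs with rfl | hs
        · exact hyc
        · exact hC s hs
      · intro s hs s' hs' hne
        rcases Finset.mem_insert.mp hs with e | hs1
        · rcases Finset.mem_insert.mp hs' with e' | hs2
          · exact absurd (e.trans e'.symm) hne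
          · rw [e]
            exact h1 s' hs2
        · rcases Finset.mem_insert.mp hs' with e' | hs2
          · rw [e', symmDiff_comm]
            exact h1 s hs1
          · exact hC2 s hs1 s' hs2 hne
  have hcard : (n.choose τ : ℝ) ≤ (C'.card : ℝ) * ((n.choose τ : ℝ) *
      Real.exp (-(lam ^ 2 * τ / 2))) := by
    have h1 : J.card ≤ ∑ T ∈ C', (J.filter (fun y => t ≤ ((y ∩ T).card : ℝ))).card :=
      (Finset.card_le_card hcover).trans Finset.card_biUnion_le
    have h2 : (J.card : ℝ) = (n.choose τ : ℝ) := by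
      rw [hJ, Finset.card_powersetCard, Finset.card_univ, Fintype.card_fin]
    rw [← h2]
    have h3 : (J.card : ℝ) ≤
        ∑ T ∈ C', ((J.filter (fun y => t ≤ ((y ∩ T).card : ℝ))).card : ℝ) := by
      exact_mod_cast h1
    refine h3.trans ?_
    rw [← nsmul_eq_mul, ← Finset.sum_const]
    apply Finset.sum_le_sum
    intro T hT
    have h4 := tail T τ (by rw [Fintype.card_fin]; exact hτ) (by rw [Fintype.card_fin]; exact hn)
      lam t hl (by rw [Fintype.card_fin, hC T hT])
    rw [Fintype.card_fin, hC T hT] at h4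
    rw [h2]
    exact h4
  have hpos : (0 : ℝ) < (n.choose τ : ℝ) := by exact_mod_cast Nat.choose_pos hτ
  have hge : Real.exp (lam ^ 2 * τ / 2) ≤ (C'.card : ℝ) := by
    have h1 : (n.choose τ : ℝ) * 1 ≤ (n.choose τ : ℝ) *
        ((C'.card : ℝ) * Real.exp (-(lam ^ 2 * τ / 2))) := by
      rw [mul_one]
      calc (n.choose τ : ℝ) ≤ (C'.card : ℝ) * ((n.choose τ : ℝ) *
            Real.exp (-(lam ^ 2 * τ / 2))) := hcard
        _ = _ := by ring
    have h2 := le_of_mul_le_mul_left h1 hpos
    rw [Real.exp_neg, ← div_eq_mul_inv, le_div_iff₀ (Real.exp_pos _), one_mul] at h2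
    exact h2
  have hKC : K ≤ C'.card := by exact_mod_cast hK.trans hge
  obtain ⟨F, hF, hFc⟩ := Finset.exists_subset_card_eq hKC
  exact ⟨F, hFc, fun T hT => hC T (hF hT), fun T hT T' hT' hne => hC2 T (hF hT) T' (hF hT') hne⟩

end Pool.Agent.Hhelper49.CWE
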