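import Pool.Agent.Hhelper49.CWE.Greedy2

set_option autoImplicit false

/-! Codes with few words are lifted completely. -/

namespace Pool.Agent.Hhelper49.CWE

open Pool.Agent.Hhelper49.CWC Pool.Agent.Hhelper49.CWD

theorem few (n d w₁ w₂ τ i K : ℕ) (lam P : ℝ) (hd : 1 ≤ d) (hl : 0 ≤ lam) (hn : 0 < n)
    (hτn : τ ≤ n) (hwi : w₂ + 2 * i = w₁ + τ) (hP0 : 0 < P) (hP2 : P ≤ 2)
    (hP : P * (n.choose τ : ℝ) ≤ (hyp w₁ (n - w₁) τ i : ℝ)) (hiτ : i ≤ τ)
    (hz : ∀ e z : ℝ, (d : ℝ) ≤ e → e ≤ n →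
      e * (n - 2 * τ) + τ * n - 2 * lam * n ^ 2 ≤ z * n → 0 ≤ z → z ≤ n →
      lam * n ≤ z ∧ 2 * (τ + lam * n) * z ≤ (z + τ - d) * n)
    (C : Finset (Finset (Fin n))) (hC : ∀ x ∈ C, x.card = w₁)
    (hD : ∀ x ∈ C, ∀ y ∈ C, x ≠ y → d ≤ (symmDiff x y).card)
    (hK1 : 1 ≤ K)
    (hKC : (K : ℝ) * ((C.card : ℝ) ^ 2 * Real.exp (-(lam ^ 3 * n / 2))) ≤ P / 8)
    (hcov : (1 - P / 2) ^ K * (C.card : ℝ) < 1) :
    ∃ C' : Finset (Finset (Fin n)), C'.card = C.card ∧ (∀ x ∈ C', x.card = w₂) ∧
      (∀ x ∈ C', ∀ y ∈ C', x ≠ y → d ≤ (symmDiff x y).card) := by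
  classical
  have hnR : (0 : ℝ) < n := by exact_mod_cast hn
  set B := Finset.powersetCard τ (Finset.univ : Finset (Fin n)) with hB
  have hBc : (B.card : ℝ) = (n.choose τ : ℝ) := by
    rw [hB, Finset.card_powersetCard, Finset.card_univ, Fintype.card_fin]
  have hBpos : 0 < B.card := by
    rw [hB, Finset.card_powersetCard, Finset.card_univ, Fintype.card_fin]
    exact Nat.choose_pos hτn
  have hBR : (0 : ℝ) < B.card := by exact_mod_cast hBpos
  set Q := (C ×ˢ C).filter (fun p => p.1 ≠ p.2) with hQ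
  have hQc : (Q.card : ℝ) ≤ (C.card : ℝ) ^ 2 := by
    have h1 : Q.card ≤ C.card * C.card := by
      refine (Finset.card_le_card (Finset.filter_subset _ _)).trans ?_
      rw [Finset.card_product]
    have h2 : (Q.card : ℝ) ≤ (C.card : ℝ) * C.card := by exact_mod_cast h1
    linarith [(by ring : (C.card : ℝ) ^ 2 = C.card * C.card)]
  set q : ℝ := Real.exp (-(lam ^ 3 * n / 2)) with hq
  have hq0 : 0 < q := Real.exp_pos _
  set α : Finset (Fin n) → Prop := fun T => ∀ x ∈ C, ∀ y ∈ C, x ≠ y →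
    ((symmDiff x y ∩ T).card : ℝ) ≤ τ * ((symmDiff x y).card : ℝ) / n + lam * n with hα
  set β : Finset (Fin n) → Finset (Fin n) → Prop := fun S T => ∀ x ∈ C, ∀ y ∈ C, x ≠ y →
    d ≤ (symmDiff (symmDiff x y) (symmDiff S T)).card with hβ
  have hcard_le : ∀ U : Finset (Fin n), (U.card : ℝ) ≤ n := by
    intro U
    have h1 : U.card ≤ n := by
      have := Finset.card_le_univ U
      rwa [Fintype.card_fin] at this
    exact_mod_cast h1
  -- tail in the form used here
  have htail : ∀ U : Finset (Fin n), lam * n ≤ (U.card : ℝ) →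
      ((B.filter (fun T => (τ / n + lam) * (U.card : ℝ) ≤ ((T ∩ U).card : ℝ))).card : ℝ) ≤
        q * B.card := by
    intro U hU
    have h1 := tail U τ (by rw [Fintype.card_fin]; exact hτn)
      (by rw [Fintype.card_fin]; exact hn) lam ((τ / n + lam) * (U.card : ℝ)) hl
      (by rw [Fintype.card_fin])
    rw [Fintype.card_fin, ← hBc] at h1
    refine h1.trans ?_
    rw [mul_comm]
    apply mul_le_mul_of_nonneg_right _ hBR.le
    apply Real.exp_le_exp.mpr
    have h2 : lam ^ 2 * (lam * n) ≤ lam ^ 2 * (U.card : ℝ) :=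
      mul_le_mul_of_nonneg_left hU (by positivity)
    linarith [(by ring : lam ^ 2 * (lam * (n : ℝ)) = lam ^ 3 * n)]
  -- sets that are bad for a pair
  have hbadα : ((B.filter (fun T => ¬ α T)).card : ℝ) ≤ (C.card : ℝ) ^ 2 * q * B.card := by
    have h1 : B.filter (fun T => ¬ α T) ⊆ Q.biUnion (fun p => B.filter (fun T =>
        ¬ (((symmDiff p.1 p.2 ∩ T).card : ℝ) ≤
          τ * ((symmDiff p.1 p.2).card : ℝ) / n + lam * n))) := by
      intro T hT
      rw [Finset.mem_filter] at hT
      obtain ⟨hTB, hTα⟩ := hT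
      have hTα' : ¬ (∀ x ∈ C, ∀ y ∈ C, x ≠ y → ((symmDiff x y ∩ T).card : ℝ) ≤
        τ * ((symmDiff x y).card : ℝ) / n + lam * n) := hTα
      push Not at hTα'
      obtain ⟨x, hx, y, hy, hne, hlt⟩ := hTα'
      rw [Finset.mem_biUnion]
      refine ⟨(x, y), ?_, ?_⟩
      · rw [hQ, Finset.mem_filter, Finset.mem_product]
        exact ⟨⟨hx, hy⟩, hne⟩
      · rw [Finset.mem_filter]
        exact ⟨hTB, not_le.mpr hlt⟩
    have h2 : ∀ p ∈ Q, ((B.filter (fun T =>
        ¬ (((symmDiff p.1 p.2 ∩ T).card : ℝ) ≤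
          τ * ((symmDiff p.1 p.2).card : ℝ) / n + lam * n))).card : ℝ) ≤ q * B.card := by
      intro p _
      set U := symmDiff p.1 p.2 with hU
      have hUn := hcard_le U
      rcases lt_or_ge (U.card : ℝ) (lam * n) with hs | hs
      · have h3 : B.filter (fun T => ¬ (((U ∩ T).card : ℝ) ≤ τ * (U.card : ℝ) / n + lam * n)) = ∅ := by
          apply Finset.filter_eq_empty_iff.mpr
          intro T _
          rw [not_not]
          have h4 : ((U ∩ T).card : ℝ) ≤ U.card := by
            exact_mod_cast Finset.card_le_card Finset.inter_subset_left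
          have h5 : 0 ≤ τ * (U.card : ℝ) / n := by positivity
          linarith
        rw [h3]
        simp only [Finset.card_empty, Nat.cast_zero]
        positivity
      · refine le_trans ?_ (htail U hs)
        have h3 : B.filter (fun T => ¬ (((U ∩ T).card : ℝ) ≤ τ * (U.card : ℝ) / n + lam * n)) ⊆
            B.filter (fun T => (τ / n + lam) * (U.card : ℝ) ≤ ((T ∩ U).card : ℝ)) := by
          intro T hT
          rw [Finset.mem_filter] at hT ⊢
          refine ⟨hT.1, ?_⟩
          have h4 := not_le.mp hT.2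
          rw [Finset.inter_comm U T] at h4
          have h5 : lam * (U.card : ℝ) ≤ lam * n := mul_le_mul_of_nonneg_left hUn hl
          linarith [(by ring : ((τ : ℝ) / n + lam) * (U.card : ℝ) =
            τ * (U.card : ℝ) / n + lam * U.card)]
        exact_mod_cast Finset.card_le_card h3
    have h3 : ((B.filter (fun T => ¬ α T)).card : ℝ) ≤ ∑ p ∈ Q, ((B.filter (fun T =>
        ¬ (((symmDiff p.1 p.2 ∩ T).card : ℝ) ≤
          τ * ((symmDiff p.1 p.2).card : ℝ) / n + lam * n))).card : ℝ) := by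
      exact_mod_cast (Finset.card_le_card h1).trans Finset.card_biUnion_le
    refine h3.trans ((Finset.sum_le_sum h2).trans ?_)
    rw [Finset.sum_const, nsmul_eq_mul]
    have h4 : (Q.card : ℝ) * (q * B.card) ≤ (C.card : ℝ) ^ 2 * (q * B.card) :=
      mul_le_mul_of_nonneg_right hQc (by positivity)
    linarith [(by ring : (C.card : ℝ) ^ 2 * (q * B.card) = (C.card : ℝ) ^ 2 * q * B.card)]
  have hbadβ : ∀ S ∈ B, α S → ((B.filter (fun T => ¬ β S T)).card : ℝ) ≤
      (C.card : ℝ) ^ 2 * q * B.card := by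
    intro S hSB hS
    have hSc : S.card = τ := (Finset.mem_powersetCard.mp hSB).2
    have h1 : B.filter (fun T => ¬ β S T) ⊆ Q.biUnion (fun p => B.filter (fun T =>
        (symmDiff (symmDiff (symmDiff p.1 p.2) S) T).card < d)) := by
      intro T hT
      rw [Finset.mem_filter] at hT
      obtain ⟨hTB, hTβ⟩ := hT
      have hTβ' : ¬ (∀ x ∈ C, ∀ y ∈ C, x ≠ y →
        d ≤ (symmDiff (symmDiff x y) (symmDiff S T)).card) := hTβ
      push Not at hTβ'
      obtain ⟨x, hx, y, hy, hne, hlt⟩ := hTβ'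
      rw [Finset.mem_biUnion]
      refine ⟨(x, y), ?_, ?_⟩
      · rw [hQ, Finset.mem_filter, Finset.mem_product]
        exact ⟨⟨hx, hy⟩, hne⟩
      · rw [Finset.mem_filter]
        refine ⟨hTB, ?_⟩
        rw [symmDiff_assoc (symmDiff x y) S T]
        exact hlt
    have h2 : ∀ p ∈ Q, ((B.filter (fun T =>
        (symmDiff (symmDiff (symmDiff p.1 p.2) S) T).card < d)).card : ℝ) ≤ q * B.card := by
      intro p hp
      rw [hQ, Finset.mem_filter, Finset.mem_product] at hp
      set U := symmDiff p.1 p.2 with hU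
      set Z := symmDiff U S with hZ
      have hUn := hcard_le U
      have hZn := hcard_le Z
      have hdU : (d : ℝ) ≤ U.card := by
        exact_mod_cast hD _ hp.1.1 _ hp.1.2 hp.2
      have hSα := hS _ hp.1.1 _ hp.1.2 hp.2
      rw [← hU] at hSα
      have h3 := card_symmDiff_add U S
      rw [hSc, ← hZ] at h3
      have h4 : (Z.card : ℝ) + 2 * ((U ∩ S).card : ℝ) = U.card + τ := by exact_mod_cast h3
      have h5 : (U.card : ℝ) * (n - 2 * τ) + τ * n - 2 * lam * n ^ 2 ≤ (Z.card : ℝ) * n := by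
        have h6 : ((U ∩ S).card : ℝ) * n ≤ τ * (U.card : ℝ) + lam * n * n := by
          have h7 := mul_le_mul_of_nonneg_right hSα hnR.le
          have h8 : (τ * (U.card : ℝ) / n + lam * n) * n = τ * (U.card : ℝ) + lam * n * n := by
            field_simp
          linarith
        have h9 : (Z.card : ℝ) * n = (U.card : ℝ) * n + τ * n - 2 * (((U ∩ S).card : ℝ) * n) := by
          linarith [congrArg (fun t : ℝ => t * n) h4,
            (by ring : ((Z.card : ℝ) + 2 * ((U ∩ S).card : ℝ)) * n =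
              (Z.card : ℝ) * n + 2 * (((U ∩ S).card : ℝ) * n)),
            (by ring : ((U.card : ℝ) + τ) * n = (U.card : ℝ) * n + τ * n)]
        linarith [(by ring : (U.card : ℝ) * (n - 2 * τ) = (U.card : ℝ) * n - 2 * (τ * (U.card : ℝ))),
          (by ring : 2 * lam * (n : ℝ) ^ 2 = 2 * (lam * n * n))]
      obtain ⟨hz1, hz2⟩ := hz U.card Z.card hdU hUn h5 (Nat.cast_nonneg _) hZn
      refine le_trans ?_ (htail Z hz1)
      have h10 : B.filter (fun T => (symmDiff Z T).card < d) ⊆
          B.filter (fun T => (τ / n + lam) * (Z.card : ℝ) ≤ ((T ∩ Z).card : ℝ)) := by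
        intro T hT
        rw [Finset.mem_filter] at hT ⊢
        refine ⟨hT.1, ?_⟩
        have hTc : T.card = τ := (Finset.mem_powersetCard.mp hT.1).2
        have h11 := card_symmDiff_add Z T
        rw [hTc, Finset.inter_comm Z T] at h11
        have h12 : ((symmDiff Z T).card : ℝ) + 2 * ((T ∩ Z).card : ℝ) = Z.card + τ := by
          exact_mod_cast h11
        have h13 : ((symmDiff Z T).card : ℝ) ≤ d := by exact_mod_cast hT.2.le
        have h14 : (τ / n + lam) * (Z.card : ℝ) ≤ ((Z.card : ℝ) + τ - d) / 2 := by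
          have h15 : ((τ / n + lam) * (Z.card : ℝ)) * n ≤ (((Z.card : ℝ) + τ - d) / 2) * n := by
            have h16 : ((τ / n + lam) * (Z.card : ℝ)) * n = (τ + lam * n) * Z.card := by
              field_simp
            rw [h16]
            linarith
          exact le_of_mul_le_mul_right h15 hnR
        linarith
      exact_mod_cast Finset.card_le_card h10
    have h3 : ((B.filter (fun T => ¬ β S T)).card : ℝ) ≤ ∑ p ∈ Q, ((B.filter (fun T =>
        (symmDiff (symmDiff (symmDiff p.1 p.2) S) T).card < d)).card : ℝ) := by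
      exact_mod_cast (Finset.card_le_card h1).trans Finset.card_biUnion_le
    refine h3.trans ((Finset.sum_le_sum h2).trans ?_)
    rw [Finset.sum_const, nsmul_eq_mul]
    have h4 : (Q.card : ℝ) * (q * B.card) ≤ (C.card : ℝ) ^ 2 * (q * B.card) :=
      mul_le_mul_of_nonneg_right hQc (by positivity)
    linarith [(by ring : (C.card : ℝ) ^ 2 * (q * B.card) = (C.card : ℝ) ^ 2 * q * B.card)]
  have hKR : (1 : ℝ) ≤ K := by exact_mod_cast hK1
  have hC2q : 0 ≤ (C.card : ℝ) ^ 2 * q := by positivity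
  obtain ⟨F, hFB, -, -, hF2, hU⟩ := greedy2 C B (fun x T => (x ∩ T).card = i) α β P K hP0 hP2 hBpos
    (by
      intro x hx
      rw [hBc]
      refine hP.trans ?_
      have h1 := card_meet x τ i hiτ
      rw [Fintype.card_fin, hC x hx] at h1
      unfold hyp
      exact_mod_cast h1)
    (by
      intro S T h x hx y hy hne
      rw [symmDiff_comm T S]
      exact h x hx y hy hne)
    (by
      refine hbadα.trans (mul_le_mul_of_nonneg_right ?_ hBR.le)
      have h1 : 1 * ((C.card : ℝ) ^ 2 * q) ≤ K * ((C.card : ℝ) ^ 2 * q) :=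
        mul_le_mul_of_nonneg_right hKR hC2q
      linarith)
    (by
      intro S hS hSα
      have h1 := mul_le_mul_of_nonneg_left (hbadβ S hS hSα) (Nat.cast_nonneg K (α := ℝ))
      have h2 := mul_le_mul_of_nonneg_right hKC hBR.le
      linarith [(by ring : (K : ℝ) * ((C.card : ℝ) ^ 2 * q * B.card) =
        K * ((C.card : ℝ) ^ 2 * q) * B.card)])
    K le_rfl
  have hU0 := Finset.card_eq_zero.mp (Nat.cast_lt_one.mp (hU.trans_lt hcov))
  apply assign2 d w₁ w₂ τ i hd hwi F C (fun T hT => (Finset.mem_powersetCard.mp (hFB hT)).2) hC hD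
  · intro x hx
    by_contra hcon
    push Not at hcon
    rw [Finset.eq_empty_iff_forall_notMem] at hU0
    apply hU0 x
    simp only [Finset.mem_filter]
    exact ⟨hx, fun T hT h => hcon T hT h⟩
  · intro S hS T hT hne x hx y hy hxy
    exact hF2 S hS T hT hne x hx y hy hxy

end Pool.Agent.Hhelper49.CWE
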