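import Pool.Agent.Hhelper49.CWE.FewAsym

set_option autoImplicit false

/-! Codes with few words, for weights whose difference is small compared with the length. -/

namespace Pool.Agent.Hhelper49.CWE

open Pool.Agent.Hhelper49.CWC Pool.Agent.Hhelper49.CWD

theorem meet_eq {V : Type*} [Fintype V] [DecidableEq V] (W : Finset V) (τ j : ℕ) (hj : j ≤ τ) :
    W.card.choose j * (Fintype.card V - W.card).choose (τ - j) =
      ((Finset.powersetCard τ (Finset.univ : Finset V)).filter
        (fun T => (W ∩ T).card = j)).card := by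
  classical
  have h1 : ∑ j ∈ Finset.range (τ + 1),
      W.card.choose j * (Fintype.card V - W.card).choose (τ - j) =
      ∑ j ∈ Finset.range (τ + 1), ((Finset.powersetCard τ (Finset.univ : Finset V)).filter
        (fun T => (W ∩ T).card = j)).card := by
    have h2 := hyp_sum W.card (Fintype.card V - W.card) τ
    unfold hyp at h2
    rw [h2, Nat.add_sub_cancel' (Finset.card_le_univ W)]
    have h3 : (Finset.powersetCard τ (Finset.univ : Finset V)).card =
        (Fintype.card V).choose τ := by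
      rw [Finset.card_powersetCard, Finset.card_univ]
    rw [← h3]
    apply Finset.card_eq_sum_card_fiberwise
    intro T hT
    rw [Finset.mem_coe, Finset.mem_powersetCard] at hT
    rw [Finset.mem_coe, Finset.mem_range]
    have := Finset.card_le_card (Finset.inter_subset_right (s₁ := W) (s₂ := T))
    show (W ∩ T).card < τ + 1
    omega
  have h4 : ∀ j ∈ Finset.range (τ + 1),
      W.card.choose j * (Fintype.card V - W.card).choose (τ - j) ≤
      ((Finset.powersetCard τ (Finset.univ : Finset V)).filter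
        (fun T => (W ∩ T).card = j)).card := by
    intro j hj
    rw [Finset.mem_range] at hj
    exact card_meet W τ j (by omega)
  exact (Finset.sum_eq_sum_iff_of_le h4).mp h1 j (Finset.mem_range.mpr (by omega))

theorem tail2 {V : Type*} [Fintype V] [DecidableEq V] (U : Finset V) (τ : ℕ)
    (hV : 0 < Fintype.card V) (lam t : ℝ) (hl : 0 ≤ lam)
    (ht : ((U.card : ℝ) / Fintype.card V + lam) * τ ≤ t) :
    (((Finset.powersetCard τ (Finset.univ : Finset V)).filter
      (fun T => t ≤ ((T ∩ U).card : ℝ))).card : ℝ) ≤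
      ((Fintype.card V).choose τ : ℝ) * Real.exp (-(lam ^ 2 * τ / 2)) := by
  classical
  have hcount : ∀ W : Finset V, ((Finset.powersetCard τ (Finset.univ : Finset V)).filter
      (fun T => t ≤ ((T ∩ W).card : ℝ))).card =
      ∑ j ∈ (Finset.range (τ + 1)).filter (fun j : ℕ => t ≤ (j : ℝ)),
        W.card.choose j * (Fintype.card V - W.card).choose (τ - j) := by
    intro W
    have hmaps : ∀ T ∈ (Finset.powersetCard τ (Finset.univ : Finset V)).filter
        (fun T => t ≤ ((T ∩ W).card : ℝ)),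
        (T ∩ W).card ∈ (Finset.range (τ + 1)).filter (fun j : ℕ => t ≤ (j : ℝ)) := by
      intro T hT
      rw [Finset.mem_filter, Finset.mem_powersetCard] at hT
      rw [Finset.mem_filter, Finset.mem_range]
      refine ⟨?_, hT.2⟩
      have := Finset.card_le_card (Finset.inter_subset_left (s₁ := T) (s₂ := W))
      omega
    rw [Finset.card_eq_sum_card_fiberwise hmaps]
    apply Finset.sum_congr rfl
    intro j hj
    rw [Finset.mem_filter, Finset.mem_range] at hj
    rw [meet_eq W τ j (by omega)]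
    congr 1
    ext T
    simp only [Finset.mem_filter]
    constructor
    · rintro ⟨⟨h1, -⟩, h3⟩
      rw [Finset.inter_comm W T]
      exact ⟨h1, h3⟩
    · rintro ⟨h1, h3⟩
      rw [Finset.inter_comm W T] at h3
      exact ⟨⟨h1, by rw [h3]; exact hj.2⟩, h3⟩
  set u := U.card with hu
  have huV : u ≤ Fintype.card V := Finset.card_le_univ U
  set A := Finset.powersetCard u (Finset.univ : Finset V) with hA
  set B := Finset.powersetCard τ (Finset.univ : Finset V) with hB
  set g := (B.filter (fun T => t ≤ ((T ∩ U).card : ℝ))).card with hg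
  have hsum : ∑ W ∈ A, (B.filter (fun T => t ≤ ((T ∩ W).card : ℝ))).card =
      ∑ T ∈ B, (A.filter (fun W => t ≤ ((W ∩ T).card : ℝ))).card := by
    simp only [Finset.card_filter]
    rw [Finset.sum_comm]
    refine Finset.sum_congr rfl fun T _ => Finset.sum_congr rfl fun W _ => ?_
    rw [Finset.inter_comm T W]
  have hleft : ∑ W ∈ A, (B.filter (fun T => t ≤ ((T ∩ W).card : ℝ))).card = A.card * g := by
    rw [← smul_eq_mul, ← Finset.sum_const]
    apply Finset.sum_congr rfl
    intro W hW
    have hWc : W.card = u := (Finset.mem_powersetCard.mp hW).2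
    rw [hg, hcount W, hcount U, hWc]
  have hAc : A.card = (Fintype.card V).choose u := by
    rw [hA, Finset.card_powersetCard, Finset.card_univ]
  have hBc : B.card = (Fintype.card V).choose τ := by
    rw [hB, Finset.card_powersetCard, Finset.card_univ]
  have hApos : (0 : ℝ) < A.card := by
    rw [hAc]
    exact_mod_cast Nat.choose_pos huV
  have hright : ∀ T ∈ B, ((A.filter (fun W => t ≤ ((W ∩ T).card : ℝ))).card : ℝ) ≤
      A.card * Real.exp (-(lam ^ 2 * τ / 2)) := by
    intro T hT
    have hTc : T.card = τ := (Finset.mem_powersetCard.mp hT).2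
    have h1 := tail T u huV hV lam t hl (by rw [hTc]; exact ht)
    rw [hTc, ← hAc] at h1
    exact h1
  have h1 : ((A.card * g : ℕ) : ℝ) ≤ ∑ T ∈ B, (A.card * Real.exp (-(lam ^ 2 * τ / 2)) : ℝ) := by
    rw [← hleft, hsum]
    push_cast
    exact Finset.sum_le_sum hright
  rw [Finset.sum_const, nsmul_eq_mul, hBc] at h1
  push_cast at h1
  have h2 : (A.card : ℝ) * g ≤ A.card * (((Fintype.card V).choose τ : ℝ) *
      Real.exp (-(lam ^ 2 * τ / 2))) := by
    linarith [(by ring : (A.card : ℝ) * (((Fintype.card V).choose τ : ℝ) *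
      Real.exp (-(lam ^ 2 * τ / 2))) = ((Fintype.card V).choose τ : ℝ) *
      (A.card * Real.exp (-(lam ^ 2 * τ / 2))))]
  exact le_of_mul_le_mul_left h2 hApos

theorem few2 (n d w₁ w₂ τ i K : ℕ) (lam P : ℝ) (hd : 1 ≤ d) (hl : 0 ≤ lam) (hn : 0 < n)
    (hτn : τ ≤ n) (hwi : w₂ + 2 * i = w₁ + τ) (hP0 : 0 < P) (hP2 : P ≤ 2)
    (hP : P * (n.choose τ : ℝ) ≤ (hyp w₁ (n - w₁) τ i : ℝ)) (hiτ : i ≤ τ)
    (hdn : (d : ℝ) + 3 * τ ≤ (1 / 2 - lam) * n)
    (C : Finset (Finset (Fin n))) (hC : ∀ x ∈ C, x.card = w₁)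
    (hD : ∀ x ∈ C, ∀ y ∈ C, x ≠ y → d ≤ (symmDiff x y).card)
    (hK1 : 1 ≤ K)
    (hKC : (K : ℝ) * ((C.card : ℝ) ^ 2 * Real.exp (-(lam ^ 2 * τ / 2))) ≤ P / 8)
    (hcov : (1 - P / 2) ^ K * (C.card : ℝ) < 1) :
    ∃ C' : Finset (Finset (Fin n)), C'.card = C.card ∧ (∀ x ∈ C', x.card = w₂) ∧
      (∀ x ∈ C', ∀ y ∈ C', x ≠ y → d ≤ (symmDiff x y).card) := by
  classical
  have hnR : (0 : ℝ) < n := by exact_mod_cast hn
  set B := Finset.powersetCard τ (Finset.univ : Finset (Fin n)) with hB
  have hBc : (B.card : ℝ) = (n.choose τ : ℝ) := by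
    rw [hB, Finset.card_powersetCard, Finset.card_univ, Fintype.card_fin]
  have hBpos : 0 < B.card := by
    rw [hB, Finset.card_powersetCard, Finset.card_univ, Fintype.card_fin]
    exact Nat.choose_pos hτn
  have hBR : (0 : ℝ) < B.card := by exact_mod_cast hBpos
  set Q := (C ×ˢ C).filter (fun p => p.1 ≠ p.2) with hQ
  have hQc : (Q.card : ℝ) ≤ (C.card : ℝ) ^ 2 := by
    have h1 : Q.card ≤ C.card * C.card := by
      refine (Finset.card_le_card (Finset.filter_subset _ _)).trans ?_
      rw [Finset.card_product]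
    have h2 : (Q.card : ℝ) ≤ (C.card : ℝ) * C.card := by exact_mod_cast h1
    linarith [(by ring : (C.card : ℝ) ^ 2 = C.card * C.card)]
  set q : ℝ := Real.exp (-(lam ^ 2 * τ / 2)) with hq
  have hq0 : 0 < q := Real.exp_pos _
  -- sets that meet a given set too much
  set bad : Finset (Fin n) → Finset (Finset (Fin n)) := fun Z => B.filter (fun T =>
    ((Z.card : ℝ) / n + lam) * τ ≤ ((T ∩ Z).card : ℝ)) with hbad
  have hbadc : ∀ Z : Finset (Fin n), ((bad Z).card : ℝ) ≤ q * B.card := by
    intro Z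
    have h1 := tail2 Z τ (by rw [Fintype.card_fin]; exact hn) lam
      (((Z.card : ℝ) / n + lam) * τ) hl (by rw [Fintype.card_fin])
    rw [Fintype.card_fin, ← hBc] at h1
    rw [mul_comm]
    exact h1
  -- the other sets increase the size
  have hgood : ∀ Z : Finset (Fin n), (Z.card : ℝ) ≤ (1 / 2 - lam) * n → ∀ T ∈ B, T ∉ bad Z →
      Z.card ≤ (symmDiff Z T).card := by
    intro Z hZ T hT hTb
    have hTc : T.card = τ := (Finset.mem_powersetCard.mp hT).2
    have h1 : ((T ∩ Z).card : ℝ) < ((Z.card : ℝ) / n + lam) * τ := by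
      by_contra hcon
      exact hTb (Finset.mem_filter.mpr ⟨hT, not_lt.mp hcon⟩)
    have h2 := card_symmDiff_add Z T
    rw [hTc, Finset.inter_comm Z T] at h2
    have h3 : ((symmDiff Z T).card : ℝ) + 2 * ((T ∩ Z).card : ℝ) = Z.card + τ := by
      exact_mod_cast h2
    have h4 : (Z.card : ℝ) / n ≤ 1 / 2 - lam := by
      rw [div_le_iff₀ hnR]
      exact hZ
    have h5 : ((Z.card : ℝ) / n + lam) * τ ≤ 1 / 2 * τ := by
      apply mul_le_mul_of_nonneg_right _ (Nat.cast_nonneg _)
      linarith
    have h6 : (Z.card : ℝ) ≤ ((symmDiff Z T).card : ℝ) := by linarith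
    exact_mod_cast h6
  have hsub : ∀ (Z T : Finset (Fin n)), T ∈ B → Z.card ≤ (symmDiff Z T).card + τ := by
    intro Z T hT
    have hTc : T.card = τ := (Finset.mem_powersetCard.mp hT).2
    have h2 := card_symmDiff_add Z T
    rw [hTc] at h2
    have h3 := Finset.card_le_card (Finset.inter_subset_right (s₁ := Z) (s₂ := T))
    rw [hTc] at h3
    omega
  have hsup : ∀ (Z T : Finset (Fin n)), T ∈ B → (symmDiff Z T).card ≤ Z.card + τ := by
    intro Z T hT
    have hTc : T.card = τ := (Finset.mem_powersetCard.mp hT).2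
    have h2 := card_symmDiff_add Z T
    rw [hTc] at h2
    omega
  set α : Finset (Fin n) → Prop := fun T => ∀ x ∈ C, ∀ y ∈ C, x ≠ y →
    T ∉ bad (symmDiff x y) with hα
  set β : Finset (Fin n) → Finset (Fin n) → Prop := fun S T => ∀ x ∈ C, ∀ y ∈ C, x ≠ y →
    d ≤ (symmDiff (symmDiff x y) (symmDiff S T)).card with hβ
  -- sets that are bad for a pair
  have hbadα : ((B.filter (fun T => ¬ α T)).card : ℝ) ≤ (C.card : ℝ) ^ 2 * q * B.card := by
    have h1 : B.filter (fun T => ¬ α T) ⊆ Q.biUnion (fun p => bad (symmDiff p.1 p.2)) := by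
      intro T hT
      rw [Finset.mem_filter] at hT
      obtain ⟨hTB, hTα⟩ := hT
      have hTα' : ¬ (∀ x ∈ C, ∀ y ∈ C, x ≠ y → T ∉ bad (symmDiff x y)) := hTα
      push Not at hTα'
      obtain ⟨x, hx, y, hy, hne, hlt⟩ := hTα'
      rw [Finset.mem_biUnion]
      refine ⟨(x, y), ?_, hlt⟩
      rw [hQ, Finset.mem_filter, Finset.mem_product]
      exact ⟨⟨hx, hy⟩, hne⟩
    have h3 : ((B.filter (fun T => ¬ α T)).card : ℝ) ≤
        ∑ p ∈ Q, ((bad (symmDiff p.1 p.2)).card : ℝ) := by
      exact_mod_cast (Finset.card_le_card h1).trans Finset.card_biUnion_le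
    refine h3.trans ((Finset.sum_le_sum fun p _ => hbadc (symmDiff p.1 p.2)).trans ?_)
    rw [Finset.sum_const, nsmul_eq_mul]
    have h4 : (Q.card : ℝ) * (q * B.card) ≤ (C.card : ℝ) ^ 2 * (q * B.card) :=
      mul_le_mul_of_nonneg_right hQc (by positivity)
    linarith [(by ring : (C.card : ℝ) ^ 2 * (q * B.card) = (C.card : ℝ) ^ 2 * q * B.card)]
  have hbadβ : ∀ S ∈ B, α S → ((B.filter (fun T => ¬ β S T)).card : ℝ) ≤
      (C.card : ℝ) ^ 2 * q * B.card := by
    intro S hSB hS
    have h1 : B.filter (fun T => ¬ β S T) ⊆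
        Q.biUnion (fun p => bad (symmDiff (symmDiff p.1 p.2) S)) := by
      intro T hT
      rw [Finset.mem_filter] at hT
      obtain ⟨hTB, hTβ⟩ := hT
      have hTβ' : ¬ (∀ x ∈ C, ∀ y ∈ C, x ≠ y →
        d ≤ (symmDiff (symmDiff x y) (symmDiff S T)).card) := hTβ
      push Not at hTβ'
      obtain ⟨x, hx, y, hy, hne, hlt⟩ := hTβ'
      rw [Finset.mem_biUnion]
      refine ⟨(x, y), ?_, ?_⟩
      · rw [hQ, Finset.mem_filter, Finset.mem_product]
        exact ⟨⟨hx, hy⟩, hne⟩
      · by_contra hTb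
        rw [← symmDiff_assoc (symmDiff x y) S T] at hlt
        have h2 := hS x hx y hy hne
        have h3 := hD x hx y hy hne
        have h4 := hsub (symmDiff x y) S hSB
        have h5 := hsub (symmDiff (symmDiff x y) S) T hTB
        have h6 := hsup (symmDiff x y) S hSB
        have h7 : (((symmDiff x y).card : ℝ)) ≤ d + 2 * τ := by
          have : (symmDiff x y).card ≤ d + 2 * τ := by omega
          exact_mod_cast this
        have hτ0 : (0 : ℝ) ≤ τ := Nat.cast_nonneg _
        have h8 := hgood (symmDiff x y) (by linarith) S hSB h2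
        have h9 := hgood (symmDiff (symmDiff x y) S) (by
          have : (((symmDiff (symmDiff x y) S).card : ℝ)) ≤ ((symmDiff x y).card : ℝ) + τ := by
            exact_mod_cast h6
          linarith) T hTB hTb
        omega
    have h3 : ((B.filter (fun T => ¬ β S T)).card : ℝ) ≤
        ∑ p ∈ Q, ((bad (symmDiff (symmDiff p.1 p.2) S)).card : ℝ) := by
      exact_mod_cast (Finset.card_le_card h1).trans Finset.card_biUnion_le
    refine h3.trans ((Finset.sum_le_sum fun p _ => hbadc _).trans ?_)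
    rw [Finset.sum_const, nsmul_eq_mul]
    have h4 : (Q.card : ℝ) * (q * B.card) ≤ (C.card : ℝ) ^ 2 * (q * B.card) :=
      mul_le_mul_of_nonneg_right hQc (by positivity)
    linarith [(by ring : (C.card : ℝ) ^ 2 * (q * B.card) = (C.card : ℝ) ^ 2 * q * B.card)]
  have hKR : (1 : ℝ) ≤ K := by exact_mod_cast hK1
  have hC2q : 0 ≤ (C.card : ℝ) ^ 2 * q := by positivity
  obtain ⟨F, hFB, -, -, hF2, hU⟩ := greedy2 C B (fun x T => (x ∩ T).card = i) α β P K hP0 hP2 hBpos
    (by
      intro x hx
      rw [hBc]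
      refine hP.trans ?_
      have h1 := card_meet x τ i hiτ
      rw [Fintype.card_fin, hC x hx] at h1
      unfold hyp
      exact_mod_cast h1)
    (by
      intro S T h x hx y hy hne
      rw [symmDiff_comm T S]
      exact h x hx y hy hne)
    (by
      refine hbadα.trans (mul_le_mul_of_nonneg_right ?_ hBR.le)
      have h1 : 1 * ((C.card : ℝ) ^ 2 * q) ≤ K * ((C.card : ℝ) ^ 2 * q) :=
        mul_le_mul_of_nonneg_right hKR hC2q
      linarith)
    (by
      intro S hS hSα
      have h1 := mul_le_mul_of_nonneg_left (hbadβ S hS hSα) (Nat.cast_nonneg K (α := ℝ))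
      have h2 := mul_le_mul_of_nonneg_right hKC hBR.le
      linarith [(by ring : (K : ℝ) * ((C.card : ℝ) ^ 2 * q * B.card) =
        K * ((C.card : ℝ) ^ 2 * q) * B.card)])
    K le_rfl
  have hU0 := Finset.card_eq_zero.mp (Nat.cast_lt_one.mp (hU.trans_lt hcov))
  apply assign2 d w₁ w₂ τ i hd hwi F C (fun T hT => (Finset.mem_powersetCard.mp (hFB hT)).2) hC hD
  · intro x hx
    by_contra hcon
    push Not at hcon
    rw [Finset.eq_empty_iff_forall_notMem] at hU0
    apply hU0 x
    simp only [Finset.mem_filter]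
    exact ⟨hx, fun T hT h => hcon T hT h⟩
  · intro S hS T hT hne x hx y hy hxy
    exact hF2 S hS T hT hne x hx y hy hxy

end Pool.Agent.Hhelper49.CWE
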