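import Pool.Agent.Hhelper49.CWE.Few
import Pool.Agent.Hhelper49.CWE.Asym

set_option autoImplicit false

/-! Codes with at most `exp (c n)` words, for weights whose difference is at least `ε n`. -/

namespace Pool.Agent.Hhelper49.CWE

open Pool.Agent.Hhelper49.CWC Pool.Agent.Hhelper49.CWD

/-- The inequality used for pairs of words. -/
theorem pair_num (ε n τ d e z lam : ℝ) (hε : 0 < ε) (hε2 : ε ≤ 1 / 2) (hlam : lam = ε ^ 3 / 4)
    (hn0 : 0 < n) (hτ : ε * n ≤ τ) (hτ2 : 2 * τ ≤ n + ε ^ 2 / 4 * n)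
    (hd0 : 0 ≤ d) (hd : d ≤ (1 / 2 - ε ^ 2) * n) (hde : d ≤ e) (hen : e ≤ n)
    (hz : e * (n - 2 * τ) + τ * n - 2 * lam * n ^ 2 ≤ z * n) (hz0 : 0 ≤ z) (hzn : z ≤ n) :
    lam * n ≤ z ∧ 2 * (τ + lam * n) * z ≤ (z + τ - d) * n := by
  have e2 : ε ^ 2 ≤ 1 / 4 := by
    have h1 : ε * ε ≤ (1 / 2) * (1 / 2) := mul_le_mul hε2 hε2 hε.le (by norm_num)
    linarith [(by ring : ε ^ 2 = ε * ε)]
  have e2' : 0 < ε ^ 2 := by positivity
  have e3 : ε ^ 3 ≤ ε ^ 2 / 2 := by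
    have h1 : ε ^ 2 * ε ≤ ε ^ 2 * (1 / 2) := mul_le_mul_of_nonneg_left hε2 e2'.le
    linarith [(by ring : ε ^ 3 = ε ^ 2 * ε)]
  have e3' : ε ^ 3 ≤ ε / 4 := by
    have h1 : ε * ε ^ 2 ≤ ε * (1 / 4) := mul_le_mul_of_nonneg_left e2 hε.le
    linarith [(by ring : ε ^ 3 = ε * ε ^ 2)]
  have hlam0 : 0 < lam := by rw [hlam]; positivity
  have hn2 : 0 < n ^ 2 := by positivity
  have hn3 : 0 < n ^ 3 := by positivity
  have he0 : 0 ≤ e := hd0.trans hde
  rcases le_or_gt 0 (n - 2 * τ) with ha | ha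
  · refine ⟨?_, ?_⟩
    · have h1 : 0 ≤ e * (n - 2 * τ) := mul_nonneg he0 ha
      have h2 : (ε * n) * n ≤ τ * n := mul_le_mul_of_nonneg_right hτ hn0.le
      have h3 : (lam * n) * n ≤ z * n := by
        refine le_trans ?_ hz
        have h4 : 3 * lam * n ^ 2 ≤ ε * n ^ 2 := by
          apply mul_le_mul_of_nonneg_right _ hn2.le
          rw [hlam]
          linarith
        linarith [(by ring : (lam * n) * n = lam * n ^ 2), (by ring : (ε * n) * n = ε * n ^ 2)]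
      exact le_of_mul_le_mul_right h3 hn0
    · have h1 : (d * (n - 2 * τ) + τ * n - 2 * lam * n ^ 2) * (n - 2 * τ) ≤
          (z * n) * (n - 2 * τ) := by
        apply mul_le_mul_of_nonneg_right _ ha
        have := mul_le_mul_of_nonneg_right hde ha
        linarith
      have hτ0 : 0 ≤ τ := le_trans (by positivity) hτ
      have h2 : 2 * lam * n ^ 2 * (n - 2 * τ) ≤ 2 * lam * n ^ 2 * n := by
        apply mul_le_mul_of_nonneg_left _ (by positivity)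
        linarith
      have h3 : 2 * lam * n ^ 2 * z ≤ 2 * lam * n ^ 2 * n :=
        mul_le_mul_of_nonneg_left hzn (by positivity)
      have h4 : (ε * n * n) * (2 * ε ^ 2 * n) ≤ (2 * τ * (n - τ)) * (n - 2 * d) := by
        apply mul_le_mul
        · have h5 : (ε * n) * n ≤ τ * (2 * (n - τ)) :=
            mul_le_mul hτ (by linarith) hn0.le hτ0
          linarith [(by ring : τ * (2 * (n - τ)) = 2 * τ * (n - τ))]
        · linarith
        · positivity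
        · have : 0 ≤ n - τ := by linarith
          positivity
      have h6 : (2 * (τ + lam * n) * z) * n ≤ ((z + τ - d) * n) * n := by
        have h7 : ((z + τ - d) * n) * n - (2 * (τ + lam * n) * z) * n =
            (z * n) * (n - 2 * τ) + (τ - d) * n ^ 2 - 2 * lam * n ^ 2 * z := by ring
        have h8 : (d * (n - 2 * τ) + τ * n - 2 * lam * n ^ 2) * (n - 2 * τ) + (τ - d) * n ^ 2 =
            (2 * τ * (n - τ)) * (n - 2 * d) - 2 * lam * n ^ 2 * (n - 2 * τ) := by ring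
        have h9 : (ε * n * n) * (2 * ε ^ 2 * n) = 2 * ε ^ 3 * n ^ 3 := by ring
        have h10 : 2 * lam * n ^ 2 * n = ε ^ 3 / 2 * n ^ 3 := by rw [hlam]; ring
        have h11 : 0 ≤ ε ^ 3 * n ^ 3 := by positivity
        linarith
      exact le_of_mul_le_mul_right h6 hn0
  · have ha2 : -(ε ^ 2 / 4 * n) ≤ n - 2 * τ := by linarith
    refine ⟨?_, ?_⟩
    · have h1 : -(ε ^ 2 / 4 * n * n) ≤ e * (n - 2 * τ) := by
        have h2 : e * (-(ε ^ 2 / 4 * n)) ≤ e * (n - 2 * τ) := mul_le_mul_of_nonneg_left ha2 he0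
        have h3 : e * (ε ^ 2 / 4 * n) ≤ n * (ε ^ 2 / 4 * n) :=
          mul_le_mul_of_nonneg_right hen (by positivity)
        linarith
      have h2 : (n / 2) * n ≤ τ * n := mul_le_mul_of_nonneg_right (by linarith) hn0.le
      have h3 : (lam * n) * n ≤ z * n := by
        refine le_trans ?_ hz
        have h4 : (3 * lam + ε ^ 2 / 4) * n ^ 2 ≤ 1 / 2 * n ^ 2 := by
          apply mul_le_mul_of_nonneg_right _ hn2.le
          rw [hlam]
          linarith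
        linarith [(by ring : (lam * n) * n = lam * n ^ 2), (by ring : (n / 2) * n = 1 / 2 * n ^ 2),
          (by ring : ε ^ 2 / 4 * n * n = ε ^ 2 / 4 * n ^ 2)]
      exact le_of_mul_le_mul_right h3 hn0
    · have h1 : -(ε ^ 2 / 4 * n * n) ≤ z * (n - 2 * τ) := by
        have h2 : z * (-(ε ^ 2 / 4 * n)) ≤ z * (n - 2 * τ) := mul_le_mul_of_nonneg_left ha2 hz0
        have h3 : z * (ε ^ 2 / 4 * n) ≤ n * (ε ^ 2 / 4 * n) :=
          mul_le_mul_of_nonneg_right hzn (by positivity)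
        linarith
      have h2 : (ε ^ 2 * n) * n ≤ (τ - d) * n := mul_le_mul_of_nonneg_right (by linarith) hn0.le
      have h3 : 2 * lam * n * z ≤ 2 * lam * n * n := mul_le_mul_of_nonneg_left hzn (by positivity)
      have h4 : 2 * lam * n * n ≤ ε ^ 2 / 4 * n * n := by
        rw [hlam]
        have h5 : 2 * (ε ^ 3 / 4) * (n * n) ≤ ε ^ 2 / 4 * (n * n) :=
          mul_le_mul_of_nonneg_right (by linarith) (by positivity)
        linarith
      have h6 : 0 ≤ ε ^ 2 * n * n := by positivity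
      linarith [(by ring : (z + τ - d) * n - 2 * (τ + lam * n) * z =
        z * (n - 2 * τ) + (τ - d) * n - 2 * lam * n * z)]

theorem numF (c₁ n : ℝ) (hc : 0 < c₁) (hn : 1 ≤ n) (h : 286720 ≤ c₁ ^ 4 * n) :
    14 * n ^ 2 * Real.exp (-(c₁ * n / 2)) ≤ 3 / (20 * √n) / 8 := by
  have hn0 : 0 < n := by linarith
  have hs0 : 0 < √n := Real.sqrt_pos.mpr hn0
  have hsn : √n ≤ n := by
    have h1 : √n * √n = n := Real.mul_self_sqrt hn0.le
    have h2 : 1 ≤ √n := Real.one_le_sqrt.mpr hn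
    have h3 : √n * 1 ≤ √n * √n := mul_le_mul_of_nonneg_left h2 hs0.le
    linarith
  set E := Real.exp (-(c₁ * n / 2)) with hE
  have hE0 : 0 < E := Real.exp_pos _
  have h1 : E * (c₁ ^ 4 * n ^ 4 / 384) ≤ 1 := by
    have h2 := Real.pow_div_factorial_le_exp (c₁ * n / 2) (by positivity) 4
    have h3 : ((Nat.factorial 4 : ℕ) : ℝ) = 24 := by norm_num [Nat.factorial]
    rw [h3] at h2
    have h4 : E * Real.exp (c₁ * n / 2) = 1 := by
      rw [hE, ← Real.exp_add]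
      rw [neg_add_cancel, Real.exp_zero]
    have h5 : E * ((c₁ * n / 2) ^ 4 / 24) ≤ E * Real.exp (c₁ * n / 2) :=
      mul_le_mul_of_nonneg_left h2 hE0.le
    linarith [(by ring : E * ((c₁ * n / 2) ^ 4 / 24) = E * (c₁ ^ 4 * n ^ 4 / 384))]
  rw [div_div, le_div_iff₀ (by positivity)]
  have h6 : 14 * n ^ 2 * E * (20 * √n * 8) = (2240 * n ^ 2 * E) * √n := by ring
  rw [h6]
  have h7 : (2240 * n ^ 2 * E) * √n ≤ (2240 * n ^ 2 * E) * n :=
    mul_le_mul_of_nonneg_left hsn (by positivity)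
  have h8 : (n ^ 3 * E / 128) * 286720 ≤ (n ^ 3 * E / 128) * (c₁ ^ 4 * n) :=
    mul_le_mul_of_nonneg_left h (by positivity)
  linarith [(by ring : (2240 * n ^ 2 * E) * n = (n ^ 3 * E / 128) * 286720),
    (by ring : (n ^ 3 * E / 128) * (c₁ ^ 4 * n) = 3 * (E * (c₁ ^ 4 * n ^ 4 / 384)))]

/-- Codes with at most `exp (c n)` words are matched exactly. -/
theorem few_asym (ε : ℝ) (hε : 0 < ε) (hε1 : ε ≤ 1) : ∃ c : ℝ, 0 < c ∧ ∃ n₀ : ℕ, ∀ n : ℕ, n₀ ≤ n →
    ∀ d w₁ w₂ : ℕ, 1 ≤ d → w₁ < w₂ → 2 * w₂ ≤ n → ε * n ≤ (w₂ : ℝ) - w₁ →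
    ∀ C : Finset (Finset (Fin n)), (C.card : ℝ) ≤ Real.exp (c * n) → (∀ x ∈ C, x.card = w₁) →
    (∀ x ∈ C, ∀ y ∈ C, x ≠ y → d ≤ (symmDiff x y).card) →
    ∃ C' : Finset (Finset (Fin n)), C'.card = C.card ∧ (∀ x ∈ C', x.card = w₂) ∧
      (∀ x ∈ C', ∀ y ∈ C', x ≠ y → d ≤ (symmDiff x y).card) := by
  set lam : ℝ := ε ^ 3 / 4 with hlam
  have hlam0 : 0 < lam := by positivity
  have hlam1 : lam ≤ 1 := by
    have : ε ^ 3 ≤ 1 := pow_le_one₀ hε.le hε1
    rw [hlam]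
    linarith
  set c₁ : ℝ := lam ^ 3 / 2 with hc₁
  have hc₁0 : 0 < c₁ := by positivity
  have hc₁1 : c₁ ≤ 1 := by
    have : lam ^ 3 ≤ 1 := pow_le_one₀ hlam0.le hlam1
    rw [hc₁]
    linarith
  obtain ⟨n₁, hn₁⟩ := CWPR.mono_plotkin (2 * ε ^ 2) (by positivity)
  obtain ⟨n₂, hn₂⟩ := exists_nat_ge (286720 / c₁ ^ 4)
  obtain ⟨n₃, hn₃⟩ := exists_nat_ge (12 / ε ^ 3)
  refine ⟨c₁ / 4, by positivity, max n₁ (max n₂ (max n₃ 4)), ?_⟩
  intro n hn d w₁ w₂ hd h12 h2 hk C hCc hC hD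
  have m1 : n₁ ≤ n := (le_max_left _ _).trans hn
  have m2 : n₂ ≤ n := (le_max_left _ _).trans ((le_max_right _ _).trans hn)
  have m3 : n₃ ≤ n :=
    (le_max_left _ _).trans ((le_max_right _ _).trans ((le_max_right _ _).trans hn))
  have m4 : 4 ≤ n :=
    (le_max_right _ _).trans ((le_max_right _ _).trans ((le_max_right _ _).trans hn))
  have r2 : 286720 ≤ c₁ ^ 4 * (n : ℝ) := by
    have h1 : 286720 / c₁ ^ 4 ≤ (n : ℝ) := hn₂.trans (by exact_mod_cast m2)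
    rw [div_le_iff₀ (by positivity)] at h1
    linarith
  have r3 : 12 ≤ ε ^ 3 * (n : ℝ) := by
    have h1 : 12 / ε ^ 3 ≤ (n : ℝ) := hn₃.trans (by exact_mod_cast m3)
    rw [div_le_iff₀ (by positivity)] at h1
    linarith
  have r4 : (4 : ℝ) ≤ n := by exact_mod_cast m4
  have hnpos : (0 : ℝ) < n := by linarith
  have hnR : 2 * (w₂ : ℝ) ≤ n := by exact_mod_cast h2
  have hw0 : (0 : ℝ) ≤ w₁ := Nat.cast_nonneg _
  have hε2 : ε ≤ 1 / 2 := by
    have h1 : ε * (n : ℝ) ≤ 1 / 2 * n := by linarith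
    exact le_of_mul_le_mul_right h1 hnpos
  have hw₁n : (w₁ : ℝ) ≤ (1 / 2 - ε) * n := by linarith
  rcases Nat.eq_zero_or_pos w₁ with hw | hw
  · apply tiny n d w₂ (by omega) C
    rw [Finset.card_le_one]
    intro x hx y hy
    have h1 := hC x hx
    have h2 := hC y hy
    rw [hw, Finset.card_eq_zero] at h1 h2
    rw [h1, h2]
  rcases lt_or_ge ((1 / 2 - ε ^ 2) * (n : ℝ)) (d : ℝ) with hdl | hdl
  · -- above the Plotkin line
    refine hn₁ n m1 d w₁ w₂ h12 h2 ?_ C hC hD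
    have h3 : (w₁ : ℝ) * ((n : ℝ) - w₁) ≤ (1 / 4 - ε ^ 2) * n ^ 2 := by
      have h4 : 0 ≤ ((1 / 2 - ε) * n - w₁) * ((1 / 2 + ε) * (n : ℝ) - w₁) := by
        apply mul_nonneg (by linarith)
        have : 0 ≤ ε * (n : ℝ) := by positivity
        linarith
      linarith [(by ring : ((1 / 2 - ε) * n - w₁) * ((1 / 2 + ε) * (n : ℝ) - w₁) =
        (1 / 4 - ε ^ 2) * n ^ 2 - w₁ * ((n : ℝ) - w₁))]
    have h5 : (1 + 2 * ε ^ 2) * (2 * w₁ * ((n : ℝ) - w₁)) ≤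
        (1 + 2 * ε ^ 2) * (2 * ((1 / 4 - ε ^ 2) * n ^ 2)) := by
      apply mul_le_mul_of_nonneg_left _ (by positivity)
      linarith
    have h6 : ((1 / 2 - ε ^ 2) * (n : ℝ)) * n ≤ d * n := mul_le_mul_of_nonneg_right hdl.le hnpos.le
    have h7 : 0 ≤ ε ^ 4 * (n : ℝ) ^ 2 := by positivity
    linarith [(by ring : (1 + 2 * ε ^ 2) * (2 * ((1 / 4 - ε ^ 2) * (n : ℝ) ^ 2)) =
      ((1 / 2 - ε ^ 2) * (n : ℝ)) * n - 4 * (ε ^ 4 * (n : ℝ) ^ 2))]
  set k : ℝ := (w₂ : ℝ) - w₁ with hkdef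
  set g : ℝ := (n : ℝ) - 2 * w₁ with hg
  have hk0 : 0 < k := lt_of_lt_of_le (by positivity) hk
  have h2k : 2 * k ≤ g := by rw [hg, hkdef]; linarith
  have hg0 : 0 < g := by linarith
  -- τ
  obtain ⟨N, hN⟩ : ∃ N, n = w₁ + N := ⟨n - w₁, by omega⟩
  obtain ⟨τ, hτ, hτw⟩ := exists_tau w₁ N w₂ h12.le (by omega)
  have hmode := mode_large2 w₁ N τ hw (by omega) hτ n hnpos (by
    rw [div_le_iff₀ (by exact_mod_cast (by omega : 0 < w₁ + N))]
    have h3 : (w₁ : ℝ) ≤ n := by linarith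
    have h4 : (τ : ℝ) ≤ (w₁ : ℝ) + N := by exact_mod_cast hτ
    exact mul_le_mul h3 h4 (Nat.cast_nonneg _) hnpos.le)
  have hNn : N = n - w₁ := by omega
  rw [← hN] at hτ hτw hmode
  rw [hNn] at hmode
  set i := (w₁ + 1) * (τ + 1) / (n + 2) with hi
  have hi1 : (i : ℝ) * ((n : ℝ) + 2) ≤ ((w₁ : ℝ) + 1) * (τ + 1) := by
    have : i * (n + 2) ≤ (w₁ + 1) * (τ + 1) := Nat.div_mul_le_self _ _
    exact_mod_cast this
  have hτk : (τ : ℝ) = k + 2 * i := by
    have : (w₂ : ℝ) + 2 * i = w₁ + τ := by exact_mod_cast hτw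
    rw [hkdef]
    linarith
  have hup : (τ : ℝ) * g ≤ n * k + 3 * n :=
    tau_up n w₁ k τ i hτk hi1 (by rw [hkdef]; linarith)
  have hτk2 : k ≤ τ := by
    have : (0 : ℝ) ≤ i := Nat.cast_nonneg _
    rw [hτk]
    linarith
  have hτ2 : 2 * (τ : ℝ) ≤ n + ε ^ 2 / 4 * n := by
    have h3 : (2 * (τ : ℝ)) * g ≤ (n + ε ^ 2 / 4 * n) * g := by
      have h4 : (n : ℝ) * (2 * k) ≤ n * g := mul_le_mul_of_nonneg_left h2k hnpos.le
      have h5 : ε ^ 2 / 4 * n * (2 * (ε * n)) ≤ ε ^ 2 / 4 * n * g :=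
        mul_le_mul_of_nonneg_left (by linarith) (by positivity)
      have h6 : (n : ℝ) / 2 * 12 ≤ n / 2 * (ε ^ 3 * n) :=
        mul_le_mul_of_nonneg_left r3 (by positivity)
      linarith [(by ring : ε ^ 2 / 4 * (n : ℝ) * (2 * (ε * n)) = n / 2 * (ε ^ 3 * n))]
    exact le_of_mul_le_mul_right h3 hg0
  have hsq0 : 0 < √(n : ℝ) := Real.sqrt_pos.mpr hnpos
  have hsq1 : 1 ≤ √(n : ℝ) := Real.one_le_sqrt.mpr (by linarith)
  have hsqn : √(n : ℝ) ≤ n := by
    have h1 : √(n : ℝ) * √(n : ℝ) = n := Real.mul_self_sqrt hnpos.le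
    have h3 : √(n : ℝ) * 1 ≤ √(n : ℝ) * √(n : ℝ) := mul_le_mul_of_nonneg_left hsq1 hsq0.le
    linarith
  have hP2 : 3 / (20 * √(n : ℝ)) ≤ 3 / 20 := by
    apply div_le_div_of_nonneg_left (by norm_num) (by norm_num)
    linarith
  refine few n d w₁ w₂ τ i (14 * n ^ 2) lam (3 / (20 * √(n : ℝ))) hd hlam0.le (by omega) hτ hτw
    (by positivity) (by linarith) ?_ (by omega) ?_ C hC hD
    (Nat.le_trans (by norm_num : 1 ≤ 14 * 1)
      (Nat.mul_le_mul_left 14 (Nat.one_le_pow 2 n (by omega)))) ?_ ?_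
  · -- the mode
    have h3 : (4 * √(n : ℝ) + 1) * (hyp w₁ (n - w₁) τ i : ℝ) ≤
        (5 * √(n : ℝ)) * (hyp w₁ (n - w₁) τ i : ℝ) :=
      mul_le_mul_of_nonneg_right (by linarith) (Nat.cast_nonneg _)
    have h4 : (3 / (20 * √(n : ℝ)) * (n.choose τ : ℝ)) * (5 * √(n : ℝ)) =
        3 / 4 * (n.choose τ : ℝ) := by
      field_simp
      ring
    have h5 : (3 / (20 * √(n : ℝ)) * (n.choose τ : ℝ)) * (5 * √(n : ℝ)) ≤
        (hyp w₁ (n - w₁) τ i : ℝ) * (5 * √(n : ℝ)) := by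
      rw [h4]
      linarith
    exact le_of_mul_le_mul_right h5 (by positivity)
  · intro e z hde hen hz hz0 hzn
    exact pair_num ε n τ d e z lam hε hε2 hlam hnpos (hk.trans hτk2) hτ2 (Nat.cast_nonneg _) hdl
      hde hen hz hz0 hzn
  · -- the number of rounds
    have h3 : (C.card : ℝ) ^ 2 ≤ Real.exp (c₁ / 4 * n) ^ 2 :=
      pow_le_pow_left₀ (Nat.cast_nonneg _) hCc 2
    have h4 : Real.exp (c₁ / 4 * n) ^ 2 * Real.exp (-(lam ^ 3 * n / 2)) =
        Real.exp (-(c₁ * n / 2)) := by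
      rw [sq, ← Real.exp_add, ← Real.exp_add]
      congr 1
      rw [hc₁]
      ring
    have h5 : (C.card : ℝ) ^ 2 * Real.exp (-(lam ^ 3 * n / 2)) ≤ Real.exp (-(c₁ * n / 2)) := by
      rw [← h4]
      exact mul_le_mul_of_nonneg_right h3 (Real.exp_pos _).le
    push_cast
    exact (mul_le_mul_of_nonneg_left h5 (by positivity)).trans
      (numF c₁ n hc₁0 (by linarith) r2)
  · -- covering
    set P : ℝ := 3 / (20 * √(n : ℝ)) with hP
    have hP0 : 0 < P := by positivity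
    have h3 : (1 - P / 2) ^ (14 * n ^ 2) ≤ Real.exp (-(P / 2)) ^ (14 * n ^ 2) := by
      apply pow_le_pow_left₀ (by linarith)
      exact Real.one_sub_le_exp_neg _
    have h4 : Real.exp (-(P / 2)) ^ (14 * n ^ 2) = Real.exp (-(P / 2 * (14 * n ^ 2))) := by
      rw [← Real.exp_nat_mul]
      congr 1
      push_cast
      ring
    have h5 : (n : ℝ) ≤ P / 2 * (14 * n ^ 2) := by
      have h6 : P / 2 * (14 * (n : ℝ) ^ 2) = 21 * n ^ 2 / (20 * √(n : ℝ)) := by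
        rw [hP]
        field_simp
        norm_num
      rw [h6, le_div_iff₀ (by positivity)]
      have h7 : (n : ℝ) * √(n : ℝ) ≤ n * n := mul_le_mul_of_nonneg_left hsqn hnpos.le
      have h8 : 0 ≤ (n : ℝ) * n := by positivity
      linarith [(by ring : (n : ℝ) ^ 2 = n * n)]
    have h6 : (C.card : ℝ) ≤ Real.exp (n / 4) := by
      refine hCc.trans (Real.exp_le_exp.mpr ?_)
      have : c₁ * (n : ℝ) ≤ 1 * n := mul_le_mul_of_nonneg_right hc₁1 hnpos.le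
      linarith
    calc (1 - P / 2) ^ (14 * n ^ 2) * (C.card : ℝ)
        ≤ Real.exp (-(n : ℝ)) * Real.exp (n / 4) := by
          apply mul_le_mul _ h6 (Nat.cast_nonneg _) (Real.exp_pos _).le
          refine h3.trans ?_
          rw [h4]
          apply Real.exp_le_exp.mpr
          linarith
      _ = Real.exp (-(3 * n / 4)) := by
          rw [← Real.exp_add]
          congr 1
          ring
      _ < 1 := by
          rw [Real.exp_lt_one_iff]
          linarith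

end Pool.Agent.Hhelper49.CWE
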