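import Pool.Agent.Hhelper49.CWE.Few2

set_option autoImplicit false

/-! Codes with at most `exp (c (w₂ - w₁))` words. -/

namespace Pool.Agent.Hhelper49.CWE

open Pool.Agent.Hhelper49.CWC Pool.Agent.Hhelper49.CWD

/-- Codes with at most `exp (c (w₂ - w₁))` words are matched exactly if `w₁ ≤ (1/2 - ε) n`. -/
theorem few_gap (ε : ℝ) (hε : 0 < ε) (hε1 : ε ≤ 1) : ∃ c : ℝ, 0 < c ∧ ∃ k₀ : ℕ,
    ∀ n d w₁ w₂ : ℕ, 1 ≤ d → (w₁ : ℝ) ≤ (1 / 2 - ε) * n → w₁ + k₀ ≤ w₂ → 2 * w₂ ≤ n →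
    ∀ C : Finset (Finset (Fin n)), (C.card : ℝ) ≤ Real.exp (c * ((w₂ : ℝ) - w₁)) →
    (∀ x ∈ C, x.card = w₁) →
    (∀ x ∈ C, ∀ y ∈ C, x ≠ y → d ≤ (symmDiff x y).card) →
    ∃ C' : Finset (Finset (Fin n)), C'.card = C.card ∧ (∀ x ∈ C', x.card = w₂) ∧
      (∀ x ∈ C', ∀ y ∈ C', x ≠ y → d ≤ (symmDiff x y).card) := by
  set η : ℝ := ε ^ 3 / 16 with hη
  have hε3 : ε ^ 3 ≤ 1 := pow_le_one₀ hε.le hε1
  have hη0 : 0 < η := by positivity
  obtain ⟨cA, hcA, n₁, hn₁⟩ := few_asym η hη0 (by rw [hη]; linarith)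
  obtain ⟨n₂, hn₂⟩ := CWPR.mono_plotkin (2 * ε ^ 2) (by positivity)
  set lam : ℝ := ε ^ 2 / 8 with hlam
  have hlam0 : 0 < lam := by positivity
  have hlam1 : lam ≤ 1 := by
    have : ε ^ 2 ≤ 1 := pow_le_one₀ hε.le hε1
    rw [hlam]
    linarith
  set c₁ : ℝ := lam ^ 2 / 2 with hc₁
  have hc₁0 : 0 < c₁ := by positivity
  have hc₁1 : c₁ ≤ 1 := by
    have : lam ^ 2 ≤ 1 := pow_le_one₀ hlam0.le hlam1
    rw [hc₁]
    linarith
  obtain ⟨n₃, hn₃⟩ := exists_nat_ge (286720 / c₁ ^ 4)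
  set c : ℝ := min cA (c₁ / 4) with hc
  have hc0 : 0 < c := lt_min hcA (by positivity)
  have hca : c ≤ cA := min_le_left _ _
  have hcb : c ≤ c₁ / 4 := min_le_right _ _
  refine ⟨c, hc0, max n₁ (max n₂ (max n₃ 4)), ?_⟩
  intro n d w₁ w₂ hd hw₁n hk0 h2 C hCc hC hD
  have m1 : n₁ ≤ w₂ - w₁ := by
    have := le_max_left n₁ (max n₂ (max n₃ 4))
    omega
  have m2 : n₂ ≤ w₂ - w₁ := by
    have := (le_max_left n₂ (max n₃ 4)).trans (le_max_right n₁ _)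
    omega
  have m3 : n₃ ≤ w₂ - w₁ := by
    have := ((le_max_left n₃ 4).trans (le_max_right n₂ _)).trans (le_max_right n₁ _)
    omega
  have m4 : 4 ≤ w₂ - w₁ := by
    have := ((le_max_right n₃ 4).trans (le_max_right n₂ _)).trans (le_max_right n₁ _)
    omega
  have h12 : w₁ < w₂ := by omega
  have hkc : ((w₂ - w₁ : ℕ) : ℝ) = (w₂ : ℝ) - w₁ := by rw [Nat.cast_sub h12.le]
  have hnN : w₂ - w₁ ≤ n := by omega
  set k : ℝ := (w₂ : ℝ) - w₁ with hkdef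
  have r3 : 286720 ≤ c₁ ^ 4 * k := by
    have h1 : 286720 / c₁ ^ 4 ≤ k := by
      rw [← hkc]
      exact hn₃.trans (by exact_mod_cast m3)
    rw [div_le_iff₀ (by positivity)] at h1
    linarith
  have r4 : (4 : ℝ) ≤ k := by
    rw [← hkc]
    exact_mod_cast m4
  have hkn : k ≤ n := by
    rw [← hkc]
    exact_mod_cast hnN
  have hnpos : (0 : ℝ) < n := by linarith
  have hnR : 2 * (w₂ : ℝ) ≤ n := by exact_mod_cast h2
  have hw0 : (0 : ℝ) ≤ w₁ := Nat.cast_nonneg _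
  rcases Nat.eq_zero_or_pos w₁ with hw | hw
  · apply tiny n d w₂ (by omega) C
    rw [Finset.card_le_one]
    intro x hx y hy
    have h1 := hC x hx
    have h2 := hC y hy
    rw [hw, Finset.card_eq_zero] at h1 h2
    rw [h1, h2]
  rcases le_or_gt (η * (n : ℝ)) k with hkη | hkη
  · -- the difference is linear
    apply hn₁ n (by omega) d w₁ w₂ hd h12 h2 hkη C _ hC hD
    refine hCc.trans (Real.exp_le_exp.mpr ?_)
    exact mul_le_mul hca hkn (by linarith) hcA.le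
  rcases lt_or_ge ((1 / 2 - ε ^ 2) * (n : ℝ)) (d : ℝ) with hdl | hdl
  · -- above the Plotkin line
    refine hn₂ n (by omega) d w₁ w₂ h12 h2 ?_ C hC hD
    have h3 : (w₁ : ℝ) * ((n : ℝ) - w₁) ≤ (1 / 4 - ε ^ 2) * n ^ 2 := by
      have h4 : 0 ≤ ((1 / 2 - ε) * n - w₁) * ((1 / 2 + ε) * (n : ℝ) - w₁) := by
        apply mul_nonneg (by linarith)
        have : 0 ≤ ε * (n : ℝ) := by positivity
        linarith
      linarith [(by ring : ((1 / 2 - ε) * n - w₁) * ((1 / 2 + ε) * (n : ℝ) - w₁) =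
        (1 / 4 - ε ^ 2) * n ^ 2 - w₁ * ((n : ℝ) - w₁))]
    have h5 : (1 + 2 * ε ^ 2) * (2 * w₁ * ((n : ℝ) - w₁)) ≤
        (1 + 2 * ε ^ 2) * (2 * ((1 / 4 - ε ^ 2) * n ^ 2)) := by
      apply mul_le_mul_of_nonneg_left _ (by positivity)
      linarith
    have h6 : ((1 / 2 - ε ^ 2) * (n : ℝ)) * n ≤ d * n := mul_le_mul_of_nonneg_right hdl.le hnpos.le
    have h7 : 0 ≤ ε ^ 4 * (n : ℝ) ^ 2 := by positivity
    linarith [(by ring : (1 + 2 * ε ^ 2) * (2 * ((1 / 4 - ε ^ 2) * (n : ℝ) ^ 2)) =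
      ((1 / 2 - ε ^ 2) * (n : ℝ)) * n - 4 * (ε ^ 4 * (n : ℝ) ^ 2))]
  set g : ℝ := (n : ℝ) - 2 * w₁ with hg
  have h2k : 2 * k ≤ g := by rw [hg, hkdef]; linarith
  have hg2 : 2 * (ε * n) ≤ g := by rw [hg]; linarith
  have hg0 : 0 < g := by linarith
  -- τ
  obtain ⟨N, hN⟩ : ∃ N, n = w₁ + N := ⟨n - w₁, by omega⟩
  obtain ⟨τ, hτ, hτw⟩ := exists_tau w₁ N w₂ h12.le (by omega)
  have hτposN : 0 < τ := by omega
  have hτpos : (0 : ℝ) < τ := by exact_mod_cast hτposN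
  have hmode := mode_large2 w₁ N τ hw (by omega) hτ τ hτpos (by
    rw [div_le_iff₀ (by exact_mod_cast (by omega : 0 < w₁ + N))]
    have h3 : (0 : ℝ) ≤ N := Nat.cast_nonneg _
    have h4 : (τ : ℝ) * w₁ ≤ τ * ((w₁ : ℝ) + N) :=
      mul_le_mul_of_nonneg_left (by linarith) hτpos.le
    linarith)
  have hNn : N = n - w₁ := by omega
  rw [← hN] at hτ hτw hmode
  rw [hNn] at hmode
  set i := (w₁ + 1) * (τ + 1) / (n + 2) with hi
  have hi1 : (i : ℝ) * ((n : ℝ) + 2) ≤ ((w₁ : ℝ) + 1) * (τ + 1) := by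
    have : i * (n + 2) ≤ (w₁ + 1) * (τ + 1) := Nat.div_mul_le_self _ _
    exact_mod_cast this
  have hτk : (τ : ℝ) = k + 2 * i := by
    have : (w₂ : ℝ) + 2 * i = w₁ + τ := by exact_mod_cast hτw
    rw [hkdef]
    linarith
  have hup : (τ : ℝ) * g ≤ n * k + 3 * n :=
    tau_up n w₁ k τ i hτk hi1 (by rw [hkdef]; linarith)
  have hτk2 : k ≤ τ := by
    have : (0 : ℝ) ≤ i := Nat.cast_nonneg _
    rw [hτk]
    linarith
  have hτε : τ * ε ≤ k := by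
    have h3 : (τ : ℝ) * (2 * (ε * n)) ≤ τ * g := mul_le_mul_of_nonneg_left hg2 hτpos.le
    have h4 : (n : ℝ) * 3 ≤ n * k := mul_le_mul_of_nonneg_left (by linarith) hnpos.le
    have h5 : (τ * ε) * (n : ℝ) ≤ k * n := by linarith
    exact le_of_mul_le_mul_right h5 hnpos
  have hτn : (τ : ℝ) ≤ ε ^ 2 / 16 * n := by
    have h3 : (τ : ℝ) * ε ≤ (ε ^ 2 / 16 * n) * ε := by
      refine (hτε.trans hkη.le).trans (le_of_eq ?_)
      rw [hη]
      ring
    exact le_of_mul_le_mul_right h3 hε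
  have hsq0 : 0 < √(τ : ℝ) := Real.sqrt_pos.mpr hτpos
  have hsq1 : 1 ≤ √(τ : ℝ) := Real.one_le_sqrt.mpr (by linarith)
  have hsqn : √(τ : ℝ) ≤ τ := by
    have h1 : √(τ : ℝ) * √(τ : ℝ) = τ := Real.mul_self_sqrt hτpos.le
    have h3 : √(τ : ℝ) * 1 ≤ √(τ : ℝ) * √(τ : ℝ) := mul_le_mul_of_nonneg_left hsq1 hsq0.le
    linarith
  have hP2 : 3 / (20 * √(τ : ℝ)) ≤ 3 / 20 := by
    apply div_le_div_of_nonneg_left (by norm_num) (by norm_num)
    linarith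
  refine few2 n d w₁ w₂ τ i (14 * τ ^ 2) lam (3 / (20 * √(τ : ℝ))) hd hlam0.le (by omega) hτ hτw
    (by positivity) (by linarith) ?_ (by omega) ?_ C hC hD
    (Nat.le_trans (by norm_num : 1 ≤ 14 * 1)
      (Nat.mul_le_mul_left 14 (Nat.one_le_pow 2 τ hτposN))) ?_ ?_
  · -- the mode
    have h3 : (4 * √(τ : ℝ) + 1) * (hyp w₁ (n - w₁) τ i : ℝ) ≤
        (5 * √(τ : ℝ)) * (hyp w₁ (n - w₁) τ i : ℝ) :=
      mul_le_mul_of_nonneg_right (by linarith) (Nat.cast_nonneg _)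
    have h4 : (3 / (20 * √(τ : ℝ)) * (n.choose τ : ℝ)) * (5 * √(τ : ℝ)) =
        3 / 4 * (n.choose τ : ℝ) := by
      field_simp
      ring
    have h5 : (3 / (20 * √(τ : ℝ)) * (n.choose τ : ℝ)) * (5 * √(τ : ℝ)) ≤
        (hyp w₁ (n - w₁) τ i : ℝ) * (5 * √(τ : ℝ)) := by
      rw [h4]
      linarith
    exact le_of_mul_le_mul_right h5 (by positivity)
  · have h3 : 0 ≤ ε ^ 2 * (n : ℝ) := by positivity
    rw [hlam]
    linarith
  · -- the number of rounds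
    have h3 : (C.card : ℝ) ^ 2 ≤ Real.exp (c * k) ^ 2 :=
      pow_le_pow_left₀ (Nat.cast_nonneg _) hCc 2
    have h4 : Real.exp (c * k) ^ 2 * Real.exp (-(lam ^ 2 * τ / 2)) ≤
        Real.exp (-(c₁ * τ / 2)) := by
      rw [sq, ← Real.exp_add, ← Real.exp_add]
      apply Real.exp_le_exp.mpr
      have h5 : c * k ≤ c₁ / 4 * τ := mul_le_mul hcb hτk2 (by linarith) (by positivity)
      have h6 : lam ^ 2 * (τ : ℝ) / 2 = c₁ * τ := by
        rw [hc₁]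
        ring
      rw [h6]
      linarith
    have h5 : (C.card : ℝ) ^ 2 * Real.exp (-(lam ^ 2 * τ / 2)) ≤ Real.exp (-(c₁ * τ / 2)) :=
      (mul_le_mul_of_nonneg_right h3 (Real.exp_pos _).le).trans h4
    have h6 : 286720 ≤ c₁ ^ 4 * (τ : ℝ) := by
      have : c₁ ^ 4 * k ≤ c₁ ^ 4 * τ := mul_le_mul_of_nonneg_left hτk2 (by positivity)
      linarith
    push_cast
    exact (mul_le_mul_of_nonneg_left h5 (by positivity)).trans
      (numF c₁ τ hc₁0 (by linarith) h6)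
  · -- covering
    set P : ℝ := 3 / (20 * √(τ : ℝ)) with hP
    have hP0 : 0 < P := by positivity
    have h3 : (1 - P / 2) ^ (14 * τ ^ 2) ≤ Real.exp (-(P / 2)) ^ (14 * τ ^ 2) := by
      apply pow_le_pow_left₀ (by linarith)
      exact Real.one_sub_le_exp_neg _
    have h4 : Real.exp (-(P / 2)) ^ (14 * τ ^ 2) = Real.exp (-(P / 2 * (14 * τ ^ 2))) := by
      rw [← Real.exp_nat_mul]
      congr 1
      push_cast
      ring
    have h5 : (τ : ℝ) ≤ P / 2 * (14 * τ ^ 2) := by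
      have h6 : P / 2 * (14 * (τ : ℝ) ^ 2) = 21 * τ ^ 2 / (20 * √(τ : ℝ)) := by
        rw [hP]
        field_simp
        norm_num
      rw [h6, le_div_iff₀ (by positivity)]
      have h7 : (τ : ℝ) * √(τ : ℝ) ≤ τ * τ := mul_le_mul_of_nonneg_left hsqn hτpos.le
      have h8 : 0 ≤ (τ : ℝ) * τ := by positivity
      linarith [(by ring : (τ : ℝ) ^ 2 = τ * τ)]
    have h6 : (C.card : ℝ) ≤ Real.exp (τ / 4) := by
      refine hCc.trans (Real.exp_le_exp.mpr ?_)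
      have h7 : c * k ≤ 1 / 4 * τ :=
        mul_le_mul (by linarith) hτk2 (by linarith) (by norm_num)
      linarith
    calc (1 - P / 2) ^ (14 * τ ^ 2) * (C.card : ℝ)
        ≤ Real.exp (-(τ : ℝ)) * Real.exp (τ / 4) := by
          apply mul_le_mul _ h6 (Nat.cast_nonneg _) (Real.exp_pos _).le
          refine h3.trans ?_
          rw [h4]
          apply Real.exp_le_exp.mpr
          linarith
      _ = Real.exp (-(3 * τ / 4)) := by
          rw [← Real.exp_add]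
          congr 1
          ring
      _ < 1 := by
          rw [Real.exp_lt_one_iff]
          linarith

end Pool.Agent.Hhelper49.CWE
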