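import Pool.Agent.Hhelper49.CWE.Core

set_option autoImplicit false

/-! A family of sets far apart such that nearly all words meet one of them in `i` points. -/

namespace Pool.Agent.Hhelper49.CWE

open Pool.Agent.Hhelper49.CWC Pool.Agent.Hhelper49.CWD

theorem greedy (n w₁ τ i D K : ℕ) (P q : ℝ) (hD : 1 ≤ D) (hτ : τ ≤ n) (hP0 : 0 < P)
    (hP : ∀ x ∈ Finset.powersetCard w₁ (Finset.univ : Finset (Fin n)),
      P * (n.choose τ : ℝ) ≤ (((Finset.powersetCard τ (Finset.univ : Finset (Fin n))).filter
        (fun T => (x ∩ T).card = i)).card : ℝ))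
    (hq : ∀ T₀ ∈ Finset.powersetCard τ (Finset.univ : Finset (Fin n)),
      (((Finset.powersetCard τ (Finset.univ : Finset (Fin n))).filter
        (fun T => (symmDiff T T₀).card < D)).card : ℝ) ≤ q * (n.choose τ : ℝ))
    (hq0 : 0 ≤ q) (hKq : (K : ℝ) * q ≤ P / 4) :
    ∀ k : ℕ, k ≤ K → ∃ F : Finset (Finset (Fin n)), F.card ≤ k ∧ (∀ T ∈ F, T.card = τ) ∧
      (∀ T ∈ F, ∀ T' ∈ F, T ≠ T' → D ≤ (symmDiff T T').card) ∧
      (((Finset.powersetCard w₁ (Finset.univ : Finset (Fin n))).filter
        (fun x => ∀ T ∈ F, (x ∩ T).card ≠ i)).card : ℝ) ≤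
        (1 - P / 2) ^ k * (n.choose w₁ : ℝ) := by
  classical
  intro k
  induction k with
  | zero =>
    intro _
    refine ⟨∅, by simp, by simp, by simp, ?_⟩
    rw [pow_zero, one_mul]
    have h1 := Finset.card_le_card (Finset.filter_subset (fun x : Finset (Fin n) =>
      ∀ T ∈ (∅ : Finset (Finset (Fin n))), (x ∩ T).card ≠ i)
      (Finset.powersetCard w₁ (Finset.univ : Finset (Fin n))))
    rw [Finset.card_powersetCard, Finset.card_univ, Fintype.card_fin] at h1
    exact_mod_cast h1
  | succ k ih =>
    intro hk
    obtain ⟨F, hFc, hF, hF2, hU⟩ := ih (by omega)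
    set JT := Finset.powersetCard τ (Finset.univ : Finset (Fin n)) with hJT
    set J := Finset.powersetCard w₁ (Finset.univ : Finset (Fin n)) with hJ
    set U := J.filter (fun x => ∀ T ∈ F, (x ∩ T).card ≠ i) with hUdef
    have hMpos : (0 : ℝ) < (n.choose τ : ℝ) := by exact_mod_cast Nat.choose_pos hτ
    have hJTc : (JT.card : ℝ) = (n.choose τ : ℝ) := by
      rw [hJT, Finset.card_powersetCard, Finset.card_univ, Fintype.card_fin]
    have hUpos : 0 ≤ (U.card : ℝ) := Nat.cast_nonneg _
    rcases eq_or_lt_of_le hUpos with h0 | h0
    · -- nothing left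
      refine ⟨F, by omega, hF, hF2, ?_⟩
      have h1 : U.card = 0 := by exact_mod_cast h0.symm
      have h2 : (0 : ℝ) ≤ (1 - P / 2) ^ (k + 1) * (n.choose w₁ : ℝ) := by
        rcases J.eq_empty_or_nonempty with hx | ⟨x, hx⟩
        rotate_left
        · have h3 := hP x hx
          have h4 : ((JT.filter (fun T => (x ∩ T).card = i)).card : ℝ) ≤ (n.choose τ : ℝ) := by
            rw [← hJTc]
            exact_mod_cast Finset.card_le_card (Finset.filter_subset _ _)
          have h5 : P * (n.choose τ : ℝ) ≤ 1 * (n.choose τ : ℝ) := by linarith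
          have h6 : P ≤ 1 := le_of_mul_le_mul_right h5 hMpos
          have h7 : 0 ≤ 1 - P / 2 := by linarith
          positivity
        · have h3 : n.choose w₁ = 0 := by
            have h4 : J.card = n.choose w₁ := by
              rw [hJ, Finset.card_powersetCard, Finset.card_univ, Fintype.card_fin]
            rw [← h4, hx, Finset.card_empty]
          rw [h3]
          simp
      rw [h1]
      simpa using h2
    · -- choose a new set
      set near := F.biUnion (fun T₀ => JT.filter (fun T => (symmDiff T T₀).card < D)) with hnear
      have hnearc : (near.card : ℝ) ≤ P / 4 * (n.choose τ : ℝ) := by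
        have h1 : (near.card : ℝ) ≤
            ∑ T₀ ∈ F, ((JT.filter (fun T => (symmDiff T T₀).card < D)).card : ℝ) := by
          exact_mod_cast Finset.card_biUnion_le
        have h2 : ∑ T₀ ∈ F, ((JT.filter (fun T => (symmDiff T T₀).card < D)).card : ℝ) ≤
            ∑ _T₀ ∈ F, q * (n.choose τ : ℝ) := by
          apply Finset.sum_le_sum
          intro T₀ hT₀
          apply hq T₀
          rw [hJT, Finset.mem_powersetCard]
          exact ⟨Finset.subset_univ _, hF T₀ hT₀⟩
        rw [Finset.sum_const, nsmul_eq_mul] at h2
        have h3 : (F.card : ℝ) ≤ K := by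
          have : F.card ≤ K := by omega
          exact_mod_cast this
        have h4 : (F.card : ℝ) * (q * (n.choose τ : ℝ)) ≤ P / 4 * (n.choose τ : ℝ) := by
          calc (F.card : ℝ) * (q * (n.choose τ : ℝ)) = ((F.card : ℝ) * q) * (n.choose τ : ℝ) := by
                ring
            _ ≤ (K * q) * (n.choose τ : ℝ) := by
                apply mul_le_mul_of_nonneg_right _ hMpos.le
                exact mul_le_mul_of_nonneg_right h3 hq0
            _ ≤ P / 4 * (n.choose τ : ℝ) := mul_le_mul_of_nonneg_right hKq hMpos.le
        linarith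
      set far := JT \ near with hfar
      have hex : ∃ T ∈ far, P / 2 * (U.card : ℝ) ≤
          ((U.filter (fun x => (x ∩ T).card = i)).card : ℝ) := by
        by_contra hcon
        push Not at hcon
        have h1 : ∑ T ∈ far, ((U.filter (fun x => (x ∩ T).card = i)).card : ℝ) ≤
            (n.choose τ : ℝ) * (P / 2 * (U.card : ℝ)) := by
          calc ∑ T ∈ far, ((U.filter (fun x => (x ∩ T).card = i)).card : ℝ)
              ≤ ∑ _T ∈ far, P / 2 * (U.card : ℝ) :=
                Finset.sum_le_sum (fun T hT => (hcon T hT).le)
            _ = (far.card : ℝ) * (P / 2 * (U.card : ℝ)) := by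
                rw [Finset.sum_const, nsmul_eq_mul]
            _ ≤ (n.choose τ : ℝ) * (P / 2 * (U.card : ℝ)) := by
                apply mul_le_mul_of_nonneg_right _ (by positivity)
                rw [← hJTc]
                exact_mod_cast Finset.card_le_card Finset.sdiff_subset
        have h2 : ∑ T ∈ far, ((U.filter (fun x => (x ∩ T).card = i)).card : ℝ) =
            ∑ x ∈ U, ((far.filter (fun T => (x ∩ T).card = i)).card : ℝ) := by
          have : ∑ T ∈ far, (U.filter (fun x => (x ∩ T).card = i)).card =
              ∑ x ∈ U, (far.filter (fun T => (x ∩ T).card = i)).card := by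
            simp_rw [Finset.card_filter]
            rw [Finset.sum_comm]
          exact_mod_cast this
        have h3 : (U.card : ℝ) * (3 / 4 * P * (n.choose τ : ℝ)) ≤
            ∑ x ∈ U, ((far.filter (fun T => (x ∩ T).card = i)).card : ℝ) := by
          rw [← nsmul_eq_mul, ← Finset.sum_const]
          apply Finset.sum_le_sum
          intro x hx
          have hxJ : x ∈ J := (Finset.mem_filter.mp hx).1
          have h4 := hP x hxJ
          have h5 : (JT.filter (fun T => (x ∩ T).card = i)).card ≤
              (far.filter (fun T => (x ∩ T).card = i)).card + near.card := by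
            refine (Finset.card_le_card ?_).trans (Finset.card_union_le _ _)
            intro T hT
            rw [Finset.mem_filter] at hT
            rw [Finset.mem_union, Finset.mem_filter, hfar, Finset.mem_sdiff]
            by_cases hn : T ∈ near
            · exact Or.inr hn
            · exact Or.inl ⟨⟨hT.1, hn⟩, hT.2⟩
          have h6 : ((JT.filter (fun T => (x ∩ T).card = i)).card : ℝ) ≤
              ((far.filter (fun T => (x ∩ T).card = i)).card : ℝ) + near.card := by
            exact_mod_cast h5
          linarith
        rw [h2] at h1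
        have h7 : 0 < (U.card : ℝ) * (P * (n.choose τ : ℝ)) := by positivity
        have h8 := h3.trans h1
        linarith [(by ring : (U.card : ℝ) * (3 / 4 * P * (n.choose τ : ℝ)) =
          3 / 4 * ((U.card : ℝ) * (P * (n.choose τ : ℝ)))),
          (by ring : (n.choose τ : ℝ) * (P / 2 * (U.card : ℝ)) =
          1 / 2 * ((U.card : ℝ) * (P * (n.choose τ : ℝ))))]
      obtain ⟨T, hT, hTU⟩ := hex
      rw [hfar, Finset.mem_sdiff] at hT
      have hTc : T.card = τ := (Finset.mem_powersetCard.mp hT.1).2
      have hTfar : ∀ T₀ ∈ F, D ≤ (symmDiff T T₀).card := by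
        intro T₀ hT₀
        by_contra hcon
        push Not at hcon
        exact hT.2 (Finset.mem_biUnion.mpr ⟨T₀, hT₀, Finset.mem_filter.mpr ⟨hT.1, hcon⟩⟩)
      have hTF : T ∉ F := by
        intro h
        have := hTfar T h
        rw [symmDiff_self] at this
        simp at this
        omega
      refine ⟨insert T F, ?_, ?_, ?_, ?_⟩
      · rw [Finset.card_insert_of_notMem hTF]
        omega
      · intro S hS
        rcases Finset.mem_insert.mp hS with e | hS1
        · rw [e]
          exact hTc
        · exact hF S hS1
      · intro S hS S' hS' hne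
        rcases Finset.mem_insert.mp hS with e | hS1
        · rcases Finset.mem_insert.mp hS' with e' | hS2
          · exact absurd (e.trans e'.symm) hne
          · rw [e]
            exact hTfar S' hS2
        · rcases Finset.mem_insert.mp hS' with e' | hS2
          · rw [e', symmDiff_comm]
            exact hTfar S hS1
          · exact hF2 S hS1 S' hS2 hne
      · have h1 : (J.filter (fun x => ∀ S ∈ insert T F, (x ∩ S).card ≠ i)) =
            U.filter (fun x => ¬ (x ∩ T).card = i) := by
          ext x
          rw [Finset.mem_filter, Finset.mem_filter, hUdef, Finset.mem_filter]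
          constructor
          · rintro ⟨h1, h2⟩
            exact ⟨⟨h1, fun S hS => h2 S (Finset.mem_insert_of_mem hS)⟩,
              h2 T (Finset.mem_insert_self _ _)⟩
          · rintro ⟨⟨h1, h2⟩, h3⟩
            refine ⟨h1, fun S hS => ?_⟩
            rcases Finset.mem_insert.mp hS with e | hS1
            · rw [e]
              exact h3
            · exact h2 S hS1
        rw [h1]
        have h2 := Finset.card_filter_add_card_filter_not (s := U) (fun x => (x ∩ T).card = i)
        have h3 : ((U.filter (fun x => (x ∩ T).card = i)).card : ℝ) +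
            ((U.filter (fun x => ¬ (x ∩ T).card = i)).card : ℝ) = U.card := by exact_mod_cast h2
        have h4 : ((U.filter (fun x => ¬ (x ∩ T).card = i)).card : ℝ) ≤
            (1 - P / 2) * U.card := by linarith
        refine h4.trans ?_
        have h5 : 0 ≤ 1 - P / 2 := by
          have h6 : ((U.filter (fun x => (x ∩ T).card = i)).card : ℝ) ≤ U.card := by
            exact_mod_cast Finset.card_le_card (Finset.filter_subset _ _)
          have h7 : P / 2 * (U.card : ℝ) ≤ 1 * U.card := by linarith
          have := le_of_mul_le_mul_right h7 h0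
          linarith
        calc (1 - P / 2) * (U.card : ℝ) ≤ (1 - P / 2) * ((1 - P / 2) ^ k * (n.choose w₁ : ℝ)) :=
              mul_le_mul_of_nonneg_left hU h5
          _ = _ := by ring

end Pool.Agent.Hhelper49.CWE
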