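import Pool.Agent.Hhelper49.CWE.Almost

set_option autoImplicit false

/-! Greedy choice, abstract form; lifting of a code with few words. -/

namespace Pool.Agent.Hhelper49.CWE

open Pool.Agent.Hhelper49.CWC Pool.Agent.Hhelper49.CWD

theorem greedy2 {X Y : Type*} [DecidableEq X] [DecidableEq Y] (A : Finset X) (B : Finset Y)
    (r : X → Y → Prop) (α : Y → Prop) (β : Y → Y → Prop) [∀ x, DecidablePred (r x)]
    [DecidablePred α] [∀ S, DecidablePred (β S)] (P : ℝ) (K : ℕ) (hP0 : 0 < P) (hP2 : P ≤ 2) (hB : 0 < B.card)
    (hr : ∀ x ∈ A, P * (B.card : ℝ) ≤ ((B.filter (fun T => r x T)).card : ℝ))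
    (hsym : ∀ S T, β S T → β T S)
    (hα : ((B.filter (fun T => ¬ α T)).card : ℝ) ≤ P / 8 * (B.card : ℝ))
    (hβ : ∀ S ∈ B, α S → (K : ℝ) * ((B.filter (fun T => ¬ β S T)).card : ℝ) ≤
      P / 8 * (B.card : ℝ)) :
    ∀ k : ℕ, k ≤ K → ∃ F : Finset Y, F ⊆ B ∧ F.card ≤ k ∧ (∀ T ∈ F, α T) ∧
      (∀ S ∈ F, ∀ T ∈ F, S ≠ T → β S T) ∧
      ((A.filter (fun x => ∀ T ∈ F, ¬ r x T)).card : ℝ) ≤ (1 - P / 2) ^ k * (A.card : ℝ) := by
  intro k
  have hp2 : 0 ≤ 1 - P / 2 := by linarith
  have hBR : (0 : ℝ) < B.card := by exact_mod_cast hB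
  induction k with
  | zero =>
    intro _
    refine ⟨∅, by simp, by simp, by simp, by simp, ?_⟩
    rw [pow_zero, one_mul]
    exact_mod_cast Finset.card_le_card (Finset.filter_subset _ _)
  | succ k ih =>
    intro hk
    obtain ⟨F, hFB, hFc, hF, hF2, hU⟩ := ih (by omega)
    set U := A.filter (fun x => ∀ T ∈ F, ¬ r x T) with hUdef
    have hUpos : 0 ≤ (U.card : ℝ) := Nat.cast_nonneg _
    rcases eq_or_lt_of_le hUpos with h0 | h0
    · refine ⟨F, hFB, by omega, hF, hF2, ?_⟩
      rw [← h0]
      positivity
    · set near := B.filter (fun T => ¬ α T) ∪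
        F.biUnion (fun S => B.filter (fun T => ¬ β S T)) with hnear
      have hnearc : (near.card : ℝ) ≤ P / 4 * (B.card : ℝ) := by
        have h1 : (near.card : ℝ) ≤ ((B.filter (fun T => ¬ α T)).card : ℝ) +
            ∑ S ∈ F, ((B.filter (fun T => ¬ β S T)).card : ℝ) := by
          have h2 : near.card ≤ (B.filter (fun T => ¬ α T)).card +
              ∑ S ∈ F, (B.filter (fun T => ¬ β S T)).card :=
            (Finset.card_union_le _ _).trans (Nat.add_le_add_left Finset.card_biUnion_le _)
          exact_mod_cast h2
        have h3 : ∑ S ∈ F, ((B.filter (fun T => ¬ β S T)).card : ℝ) ≤ P / 8 * (B.card : ℝ) := by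
          rcases F.eq_empty_or_nonempty with hFe | hFe
          · rw [hFe, Finset.sum_empty]
            positivity
          · have hFpos : 0 < F.card := Finset.card_pos.mpr hFe
            have hKpos : (0 : ℝ) < K := by
              have : 0 < K := by omega
              exact_mod_cast this
            have h4 : ∀ S ∈ F, ((B.filter (fun T => ¬ β S T)).card : ℝ) ≤
                P / 8 * (B.card : ℝ) / K := by
              intro S hS
              rw [le_div_iff₀ hKpos]
              linarith [hβ S (hFB hS) (hF S hS)]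
            calc ∑ S ∈ F, ((B.filter (fun T => ¬ β S T)).card : ℝ)
                ≤ ∑ _S ∈ F, P / 8 * (B.card : ℝ) / K := Finset.sum_le_sum h4
              _ = (F.card : ℝ) * (P / 8 * (B.card : ℝ) / K) := by
                  rw [Finset.sum_const, nsmul_eq_mul]
              _ ≤ K * (P / 8 * (B.card : ℝ) / K) := by
                  apply mul_le_mul_of_nonneg_right _ (by positivity)
                  have : F.card ≤ K := by omega
                  exact_mod_cast this
              _ = P / 8 * (B.card : ℝ) := by
                  field_simp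
        linarith
      set far := B \ near with hfar
      have hex : ∃ T ∈ far, P / 2 * (U.card : ℝ) ≤ ((U.filter (fun x => r x T)).card : ℝ) := by
        by_contra hcon
        push Not at hcon
        have h1 : ∑ T ∈ far, ((U.filter (fun x => r x T)).card : ℝ) ≤
            (B.card : ℝ) * (P / 2 * (U.card : ℝ)) := by
          calc ∑ T ∈ far, ((U.filter (fun x => r x T)).card : ℝ)
              ≤ ∑ _T ∈ far, P / 2 * (U.card : ℝ) :=
                Finset.sum_le_sum (fun T hT => (hcon T hT).le)
            _ = (far.card : ℝ) * (P / 2 * (U.card : ℝ)) := by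
                rw [Finset.sum_const, nsmul_eq_mul]
            _ ≤ (B.card : ℝ) * (P / 2 * (U.card : ℝ)) := by
                apply mul_le_mul_of_nonneg_right _ (by positivity)
                exact_mod_cast Finset.card_le_card Finset.sdiff_subset
        have h2 : ∑ T ∈ far, ((U.filter (fun x => r x T)).card : ℝ) =
            ∑ x ∈ U, ((far.filter (fun T => r x T)).card : ℝ) := by
          have : ∑ T ∈ far, (U.filter (fun x => r x T)).card =
              ∑ x ∈ U, (far.filter (fun T => r x T)).card := by
            simp_rw [Finset.card_filter]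
            rw [Finset.sum_comm]
          exact_mod_cast this
        have h3 : (U.card : ℝ) * (3 / 4 * P * (B.card : ℝ)) ≤
            ∑ x ∈ U, ((far.filter (fun T => r x T)).card : ℝ) := by
          rw [← nsmul_eq_mul, ← Finset.sum_const]
          apply Finset.sum_le_sum
          intro x hx
          have h4 := hr x (Finset.mem_filter.mp hx).1
          have h5 : (B.filter (fun T => r x T)).card ≤
              (far.filter (fun T => r x T)).card + near.card := by
            refine (Finset.card_le_card ?_).trans (Finset.card_union_le _ _)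
            intro T hT
            rw [Finset.mem_filter] at hT
            rw [Finset.mem_union, Finset.mem_filter, hfar, Finset.mem_sdiff]
            by_cases hn : T ∈ near
            · exact Or.inr hn
            · exact Or.inl ⟨⟨hT.1, hn⟩, hT.2⟩
          have h6 : ((B.filter (fun T => r x T)).card : ℝ) ≤
              ((far.filter (fun T => r x T)).card : ℝ) + near.card := by
            exact_mod_cast h5
          linarith
        rw [h2] at h1
        have h7 : 0 < (U.card : ℝ) * (P * (B.card : ℝ)) := by positivity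
        have h8 := h3.trans h1
        linarith [(by ring : (U.card : ℝ) * (3 / 4 * P * (B.card : ℝ)) =
          3 / 4 * ((U.card : ℝ) * (P * (B.card : ℝ)))),
          (by ring : (B.card : ℝ) * (P / 2 * (U.card : ℝ)) =
          1 / 2 * ((U.card : ℝ) * (P * (B.card : ℝ))))]
      obtain ⟨T, hT, hTU⟩ := hex
      rw [hfar, Finset.mem_sdiff] at hT
      have hTα : α T := by
        by_contra hcon
        exact hT.2 (Finset.mem_union_left _ (Finset.mem_filter.mpr ⟨hT.1, hcon⟩))
      have hTβ : ∀ S ∈ F, β S T := by
        intro S hS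
        by_contra hcon
        exact hT.2 (Finset.mem_union_right _
          (Finset.mem_biUnion.mpr ⟨S, hS, Finset.mem_filter.mpr ⟨hT.1, hcon⟩⟩))
      refine ⟨insert T F, ?_, ?_, ?_, ?_, ?_⟩
      · exact Finset.insert_subset hT.1 hFB
      · exact (Finset.card_insert_le _ _).trans (by omega)
      · intro S hS
        rcases Finset.mem_insert.mp hS with e | hS1
        · rw [e]
          exact hTα
        · exact hF S hS1
      · intro S hS S' hS' hne
        rcases Finset.mem_insert.mp hS with e | hS1
        · rcases Finset.mem_insert.mp hS' with e' | hS2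
          · exact absurd (e.trans e'.symm) hne
          · rw [e]
            exact hsym _ _ (hTβ S' hS2)
        · rcases Finset.mem_insert.mp hS' with e' | hS2
          · rw [e']
            exact hTβ S hS1
          · exact hF2 S hS1 S' hS2 hne
      · have h1 : (A.filter (fun x => ∀ S ∈ insert T F, ¬ r x S)) =
            U.filter (fun x => ¬ r x T) := by
          ext x
          rw [Finset.mem_filter, Finset.mem_filter, hUdef, Finset.mem_filter]
          constructor
          · rintro ⟨h1, h2⟩
            exact ⟨⟨h1, fun S hS => h2 S (Finset.mem_insert_of_mem hS)⟩,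
              h2 T (Finset.mem_insert_self _ _)⟩
          · rintro ⟨⟨h1, h2⟩, h3⟩
            refine ⟨h1, fun S hS => ?_⟩
            rcases Finset.mem_insert.mp hS with e | hS1
            · rw [e]
              exact h3
            · exact h2 S hS1
        rw [h1]
        have h2 := Finset.card_filter_add_card_filter_not (s := U) (fun x => r x T)
        have h3 : ((U.filter (fun x => r x T)).card : ℝ) +
            ((U.filter (fun x => ¬ r x T)).card : ℝ) = U.card := by exact_mod_cast h2
        have h4 : ((U.filter (fun x => ¬ r x T)).card : ℝ) ≤ (1 - P / 2) * U.card := by linarith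
        refine h4.trans ?_
        calc (1 - P / 2) * (U.card : ℝ) ≤ (1 - P / 2) * ((1 - P / 2) ^ k * (A.card : ℝ)) :=
              mul_le_mul_of_nonneg_left hU hp2
          _ = _ := by ring

open Classical in
/-- Lifting when all words are covered and all pairs stay apart. -/
theorem assign2 {V : Type*} [DecidableEq V] (d w₁ w₂ τ i : ℕ) (hd : 1 ≤ d)
    (hw : w₂ + 2 * i = w₁ + τ) (F C : Finset (Finset V)) (hF : ∀ T ∈ F, T.card = τ)
    (hC : ∀ x ∈ C, x.card = w₁)
    (hD : ∀ x ∈ C, ∀ y ∈ C, x ≠ y → d ≤ (symmDiff x y).card)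
    (h1 : ∀ x ∈ C, ∃ T ∈ F, (x ∩ T).card = i)
    (h2 : ∀ S ∈ F, ∀ T ∈ F, S ≠ T → ∀ x ∈ C, ∀ y ∈ C, x ≠ y →
      d ≤ (symmDiff (symmDiff x y) (symmDiff S T)).card) :
    ∃ C' : Finset (Finset V), C'.card = C.card ∧ (∀ x ∈ C', x.card = w₂) ∧
      (∀ x ∈ C', ∀ y ∈ C', x ≠ y → d ≤ (symmDiff x y).card) := by
  have hch : ∀ x : Finset V, ∃ T : Finset V, x ∈ C → T ∈ F ∧ (x ∩ T).card = i := by
    intro x
    by_cases hx : x ∈ C
    · obtain ⟨T, hT, hi⟩ := h1 x hx
      exact ⟨T, fun _ => ⟨hT, hi⟩⟩
    · exact ⟨∅, fun h => absurd h hx⟩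
  choose g hg using hch
  have hdist : ∀ x ∈ C, ∀ y ∈ C, x ≠ y →
      d ≤ (symmDiff (symmDiff x (g x)) (symmDiff y (g y))).card := by
    intro x hx y hy hne
    rw [symm_four]
    by_cases hg2 : g x = g y
    · rw [hg2, symmDiff_self, symmDiff_bot]
      exact hD x hx y hy hne
    · exact h2 _ (hg x hx).1 _ (hg y hy).1 hg2 x hx y hy hne
  have hinj : Set.InjOn (fun x : Finset V => symmDiff x (g x)) (C : Set _) := by
    intro x hx y hy h
    by_contra hne
    have h3 := hdist x hx y hy hne
    have h4 : symmDiff x (g x) = symmDiff y (g y) := h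
    rw [h4, symmDiff_self] at h3
    simp at h3
    omega
  refine ⟨C.image (fun x => symmDiff x (g x)), Finset.card_image_of_injOn hinj, ?_, ?_⟩
  · intro z hz
    obtain ⟨x, hx, rfl⟩ := Finset.mem_image.mp hz
    have h3 := card_symmDiff_add x (g x)
    rw [hC x hx, hF _ (hg x hx).1, (hg x hx).2] at h3
    omega
  · intro z hz z' hz' hne
    obtain ⟨x, hx, rfl⟩ := Finset.mem_image.mp hz
    obtain ⟨y, hy, rfl⟩ := Finset.mem_image.mp hz'
    apply hdist x hx y hy
    rintro rfl
    exact hne rfl

end Pool.Agent.Hhelper49.CWE
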