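import Pool.Agent.Hhelper49.CWD.Sep

set_option autoImplicit false

/-! Exponential tails for the number of points of a random word in a given set. -/

namespace Pool.Agent.Hhelper49.CWE

open Pool.Agent.Hhelper49.CWC Pool.Agent.Hhelper49.CWD

theorem choose_sub_le (n w j : ℕ) (hj : j ≤ w) (hw : w ≤ n) :
    (n - j).choose (w - j) * n ^ j ≤ n.choose w * w ^ j := by
  have h1 := Nat.choose_mul (n := n) (k := w) (s := j) hj
  have h2 := choose_mul_pow j w n hw
  have hpos : 0 < n.choose j := Nat.choose_pos (hj.trans hw)
  apply Nat.le_of_mul_le_mul_left _ hpos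
  calc n.choose j * ((n - j).choose (w - j) * n ^ j)
      = (n.choose j * (n - j).choose (w - j)) * n ^ j := by ring
    _ = (n.choose w * w.choose j) * n ^ j := by rw [h1]
    _ = n.choose w * (w.choose j * n ^ j) := by ring
    _ ≤ n.choose w * (n.choose j * w ^ j) := Nat.mul_le_mul_left _ h2
    _ = n.choose j * (n.choose w * w ^ j) := by ring

variable {V : Type*} [DecidableEq V] [Fintype V]

/-- Words of weight `w` which contain a given set. -/
theorem card_super (S : Finset V) (w : ℕ) (hw : w ≤ Fintype.card V) (hV : 0 < Fintype.card V) :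
    (((Finset.powersetCard w (Finset.univ : Finset V)).filter (fun x => S ⊆ x)).card : ℝ) ≤
      ((Fintype.card V).choose w : ℝ) * ((w : ℝ) / Fintype.card V) ^ S.card := by
  set n := Fintype.card V with hn
  have hnR : (0 : ℝ) < n := by exact_mod_cast hV
  rcases lt_or_ge w S.card with h | h
  · have h0 : (Finset.powersetCard w (Finset.univ : Finset V)).filter (fun x => S ⊆ x) = ∅ := by
      apply Finset.filter_eq_empty_iff.mpr
      intro x hx hS
      have h1 := Finset.card_le_card hS
      rw [(Finset.mem_powersetCard.mp hx).2] at h1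
      omega
    rw [h0]
    simp only [Finset.card_empty, Nat.cast_zero]
    positivity
  · have h1 : ((Finset.powersetCard w (Finset.univ : Finset V)).filter (fun x => S ⊆ x)).card ≤
        (n - S.card).choose (w - S.card) := by
      have h2 : (Finset.powersetCard (w - S.card) Sᶜ).card = (n - S.card).choose (w - S.card) := by
        rw [Finset.card_powersetCard, Finset.card_compl]
      rw [← h2]
      apply Finset.card_le_card_of_injOn (fun x => x \ S)
      · intro x hx
        rw [Finset.mem_coe, Finset.mem_filter, Finset.mem_powersetCard] at hx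
        rw [Finset.mem_coe, Finset.mem_powersetCard]
        refine ⟨?_, ?_⟩
        · intro u hu
          rw [Finset.mem_sdiff] at hu
          exact Finset.mem_compl.mpr hu.2
        · rw [Finset.card_sdiff_of_subset hx.2, hx.1.2]
      · intro x hx y hy hxy
        rw [Finset.mem_coe, Finset.mem_filter] at hx hy
        have hxy' : x \ S = y \ S := hxy
        rw [← Finset.sdiff_union_of_subset hx.2, ← Finset.sdiff_union_of_subset hy.2, hxy']
    have h2 := choose_sub_le n w S.card h hw
    have h3 : ((n - S.card).choose (w - S.card) : ℝ) * (n : ℝ) ^ S.card ≤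
        (n.choose w : ℝ) * (w : ℝ) ^ S.card := by exact_mod_cast h2
    rw [div_pow, mul_div_assoc', le_div_iff₀ (by positivity)]
    refine le_trans (mul_le_mul_of_nonneg_right ?_ (by positivity)) h3
    exact_mod_cast h1

/-- Moment generating function. -/
theorem mgf (U : Finset V) (w : ℕ) (hw : w ≤ Fintype.card V) (hV : 0 < Fintype.card V) (y : ℝ)
    (hy : 0 ≤ y) :
    ∑ x ∈ Finset.powersetCard w (Finset.univ : Finset V), (1 + y) ^ (x ∩ U).card ≤
      ((Fintype.card V).choose w : ℝ) * (1 + y * ((w : ℝ) / Fintype.card V)) ^ U.card := by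
  set J := Finset.powersetCard w (Finset.univ : Finset V) with hJ
  have h1 : ∀ x ∈ J, (1 + y) ^ (x ∩ U).card =
      ∑ S ∈ U.powerset, if S ⊆ x then y ^ S.card else 0 := by
    intro x _
    have h2 := Finset.sum_pow_mul_eq_add_pow y 1 (x ∩ U)
    rw [add_comm] at h2
    rw [← h2, ← Finset.sum_filter]
    apply Finset.sum_congr
    · ext S
      rw [Finset.mem_powerset, Finset.mem_filter, Finset.mem_powerset, Finset.subset_inter_iff]
      exact And.comm
    · intro S _
      rw [one_pow, mul_one]
  rw [Finset.sum_congr rfl h1, Finset.sum_comm]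
  have h2 := Finset.sum_pow_mul_eq_add_pow (y * ((w : ℝ) / Fintype.card V)) 1 U
  rw [add_comm] at h2
  rw [← h2, Finset.mul_sum]
  apply Finset.sum_le_sum
  intro S _
  rw [← Finset.sum_filter, Finset.sum_const, nsmul_eq_mul, one_pow, mul_one, mul_pow]
  have h3 := card_super S w hw hV
  calc ((J.filter (fun x => S ⊆ x)).card : ℝ) * y ^ S.card
      ≤ (((Fintype.card V).choose w : ℝ) * ((w : ℝ) / Fintype.card V) ^ S.card) * y ^ S.card :=
        mul_le_mul_of_nonneg_right h3 (by positivity)
    _ = _ := by ring

/-- Upper tail. -/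
theorem tail (U : Finset V) (w : ℕ) (hw : w ≤ Fintype.card V) (hV : 0 < Fintype.card V)
    (lam t : ℝ) (hl : 0 ≤ lam) (ht : ((w : ℝ) / Fintype.card V + lam) * U.card ≤ t) :
    (((Finset.powersetCard w (Finset.univ : Finset V)).filter
      (fun x => t ≤ ((x ∩ U).card : ℝ))).card : ℝ) ≤
      ((Fintype.card V).choose w : ℝ) * Real.exp (-(lam ^ 2 * U.card / 2)) := by
  set J := Finset.powersetCard w (Finset.univ : Finset V) with hJ
  set p : ℝ := (w : ℝ) / Fintype.card V with hp
  set m : ℝ := (U.card : ℝ) with hm
  have hp0 : 0 ≤ p := by positivity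
  have hm0 : 0 ≤ m := Nat.cast_nonneg _
  have hJc : (J.card : ℝ) = ((Fintype.card V).choose w : ℝ) := by
    rw [hJ, Finset.card_powersetCard, Finset.card_univ]
  rcases le_or_gt (p + lam) 1 with hpl | hpl
  · have hlog0 : 0 ≤ Real.log (1 + lam) := Real.log_nonneg (by linarith)
    have hlog : lam - lam ^ 2 / 2 ≤ Real.log (1 + lam) := by
      have h1 := Real.le_log_one_add_of_nonneg hl
      have h2 : lam - lam ^ 2 / 2 ≤ 2 * lam / (lam + 2) := by
        rw [le_div_iff₀ (by linarith)]
        nlinarith [pow_nonneg hl 3]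
      linarith
    have h1 : ((J.filter (fun x => t ≤ ((x ∩ U).card : ℝ))).card : ℝ) *
        Real.exp (t * Real.log (1 + lam)) ≤ ∑ x ∈ J, (1 + lam) ^ (x ∩ U).card := by
      rw [← nsmul_eq_mul, ← Finset.sum_const]
      refine le_trans (Finset.sum_le_sum (g := fun x => (1 + lam) ^ (x ∩ U).card) ?_) ?_
      · intro x hx
        rw [Finset.mem_filter] at hx
        have h2 : (1 + lam) ^ (x ∩ U).card = Real.exp (((x ∩ U).card : ℝ) * Real.log (1 + lam)) := by
          rw [mul_comm, Real.exp_mul, Real.exp_log (by linarith), Real.rpow_natCast]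
        rw [h2]
        apply Real.exp_le_exp.mpr
        exact mul_le_mul_of_nonneg_right hx.2 hlog0
      · apply Finset.sum_le_sum_of_subset_of_nonneg (Finset.filter_subset _ _)
        intro x _ _
        have : 0 ≤ 1 + lam := by linarith
        positivity
    have h2 := mgf U w hw hV lam hl
    have h3 : (1 + lam * p) ^ U.card ≤ Real.exp (lam * p * m) := by
      have h4 : 1 + lam * p ≤ Real.exp (lam * p) := by
        have := Real.add_one_le_exp (lam * p)
        linarith
      calc (1 + lam * p) ^ U.card ≤ (Real.exp (lam * p)) ^ U.card :=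
            pow_le_pow_left₀ (by positivity) h4 _
        _ = Real.exp (lam * p * m) := by
            rw [← Real.exp_nat_mul, hm]
            ring_nf
    have hC0 : (0 : ℝ) ≤ ((Fintype.card V).choose w : ℝ) := Nat.cast_nonneg _
    have h4 : ((J.filter (fun x => t ≤ ((x ∩ U).card : ℝ))).card : ℝ) *
        Real.exp (t * Real.log (1 + lam)) ≤
        ((Fintype.card V).choose w : ℝ) * Real.exp (lam * p * m) :=
      (h1.trans h2).trans (mul_le_mul_of_nonneg_left h3 hC0)
    have h5 : ((J.filter (fun x => t ≤ ((x ∩ U).card : ℝ))).card : ℝ) ≤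
        ((Fintype.card V).choose w : ℝ) *
          Real.exp (lam * p * m - t * Real.log (1 + lam)) := by
      rw [Real.exp_sub, mul_div_assoc', le_div_iff₀ (Real.exp_pos _)]
      exact h4
    refine h5.trans (mul_le_mul_of_nonneg_left (Real.exp_le_exp.mpr ?_) hC0)
    have h6 : (p + lam) * m * (lam - lam ^ 2 / 2) ≤ t * Real.log (1 + lam) := by
      calc (p + lam) * m * (lam - lam ^ 2 / 2) ≤ (p + lam) * m * Real.log (1 + lam) :=
            mul_le_mul_of_nonneg_left hlog (by positivity)
        _ ≤ t * Real.log (1 + lam) := mul_le_mul_of_nonneg_right ht hlog0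
    have h7 : (p + lam) * (lam ^ 2 * m) ≤ 1 * (lam ^ 2 * m) :=
      mul_le_mul_of_nonneg_right hpl (by positivity)
    nlinarith
  · rcases eq_or_lt_of_le hm0 with h0 | h0
    · rw [← h0]
      have : Real.exp (-(lam ^ 2 * 0 / 2)) = 1 := by
        rw [mul_zero, zero_div, neg_zero, Real.exp_zero]
      rw [this, mul_one, ← hJc]
      exact_mod_cast Finset.card_le_card (Finset.filter_subset _ _)
    · have h1 : J.filter (fun x => t ≤ ((x ∩ U).card : ℝ)) = ∅ := by
        apply Finset.filter_eq_empty_iff.mpr
        intro x _ hx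
        have h2 : ((x ∩ U).card : ℝ) ≤ m := by
          rw [hm]
          exact_mod_cast Finset.card_le_card Finset.inter_subset_right
        nlinarith
      rw [h1]
      simp only [Finset.card_empty, Nat.cast_zero]
      positivity

end Pool.Agent.Hhelper49.CWE
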