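import Pool.Agent.Hhelper49.CWE.Few2

set_option autoImplicit false

/-! Pairs of disjoint sets. -/

namespace Pool.Agent.Hhelper49.CWE

open Pool.Agent.Hhelper49.CWC Pool.Agent.Hhelper49.CWD

theorem meet_in {V : Type*} [DecidableEq V] (U x : Finset V) (τ i : ℕ) (hi : i ≤ τ) :
    (x ∩ U).card.choose i * (U \ x).card.choose (τ - i) ≤
      ((Finset.powersetCard τ U).filter (fun T => (x ∩ T).card = i)).card := by
  rw [← Finset.card_powersetCard, ← Finset.card_powersetCard, ← Finset.card_product]
  have hkey : ∀ q ∈ Finset.powersetCard i (x ∩ U) ×ˢ Finset.powersetCard (τ - i) (U \ x),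
      x ∩ (q.1 ∪ q.2) = q.1 ∧ (q.1 ∪ q.2) \ x = q.2 := by
    intro q hq
    rw [Finset.mem_product, Finset.mem_powersetCard, Finset.mem_powersetCard] at hq
    obtain ⟨⟨h2, -⟩, h4, -⟩ := hq
    constructor
    · ext v
      rw [Finset.mem_inter, Finset.mem_union]
      constructor
      · rintro ⟨h5, h6 | h6⟩
        · exact h6
        · exact absurd h5 (Finset.mem_sdiff.mp (h4 h6)).2
      · intro h5
        exact ⟨(Finset.mem_inter.mp (h2 h5)).1, Or.inl h5⟩
    · ext v
      rw [Finset.mem_sdiff, Finset.mem_union]
      constructor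
      · rintro ⟨h5 | h5, h6⟩
        · exact absurd (Finset.mem_inter.mp (h2 h5)).1 h6
        · exact h5
      · intro h5
        exact ⟨Or.inr h5, (Finset.mem_sdiff.mp (h4 h5)).2⟩
  apply Finset.card_le_card_of_injOn (fun q => q.1 ∪ q.2)
  · intro q hq
    have hk := hkey q hq
    rw [Finset.mem_coe, Finset.mem_product, Finset.mem_powersetCard,
      Finset.mem_powersetCard] at hq
    obtain ⟨⟨h2, h3⟩, h4, h5⟩ := hq
    have hdisj : Disjoint q.1 q.2 := by
      rw [Finset.disjoint_left]
      intro v hv hv'
      exact (Finset.mem_sdiff.mp (h4 hv')).2 (Finset.mem_inter.mp (h2 hv)).1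
    rw [Finset.mem_coe, Finset.mem_filter, Finset.mem_powersetCard]
    refine ⟨⟨?_, ?_⟩, ?_⟩
    · apply Finset.union_subset
      · exact h2.trans Finset.inter_subset_right
      · exact h4.trans Finset.sdiff_subset
    · show (q.1 ∪ q.2).card = τ
      rw [Finset.card_union_of_disjoint hdisj, h3, h5]
      omega
    · show (x ∩ (q.1 ∪ q.2)).card = i
      rw [hk.1, h3]
  · intro q hq r hr h
    have h1 := hkey q hq
    have h2 := hkey r hr
    have h3 : q.1 ∪ q.2 = r.1 ∪ r.2 := h
    rw [h3] at h1
    exact Prod.ext (h1.1.symm.trans h2.1) (h1.2.symm.trans h2.2)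

/-- Pairs of disjoint sets of sizes `τ` and `t`. -/
def prs (V : Type*) [Fintype V] [DecidableEq V] (τ t : ℕ) : Finset (Finset V × Finset V) :=
  (Finset.powersetCard τ (Finset.univ : Finset V) ×ˢ
    Finset.powersetCard t (Finset.univ : Finset V)).filter (fun p => Disjoint p.1 p.2)

variable {V : Type*} [Fintype V] [DecidableEq V]

theorem prs_count (τ t : ℕ) (q : Finset V → Finset V → Prop) [∀ S, DecidablePred (q S)] :
    ((prs V τ t).filter (fun z => q z.1 z.2)).card =
      ∑ S ∈ Finset.powersetCard τ (Finset.univ : Finset V),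
        ((Finset.powersetCard t Sᶜ).filter (q S)).card := by
  unfold prs
  rw [Finset.filter_filter, Finset.card_filter, Finset.sum_product]
  apply Finset.sum_congr rfl
  intro S _
  rw [← Finset.card_filter]
  congr 1
  ext T
  simp only [Finset.mem_filter, Finset.mem_powersetCard, Finset.subset_univ, true_and]
  rw [Finset.subset_compl_iff_disjoint_left]
  tauto

theorem prs_count2 (τ t : ℕ) (q : Finset V → Finset V → Prop) [∀ S, DecidablePred (q S)] :
    ((prs V τ t).filter (fun z => q z.1 z.2)).card =
      ∑ T ∈ Finset.powersetCard t (Finset.univ : Finset V),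
        ((Finset.powersetCard τ Tᶜ).filter (fun S => q S T)).card := by
  unfold prs
  rw [Finset.filter_filter, Finset.card_filter, Finset.sum_product_right]
  apply Finset.sum_congr rfl
  intro T _
  rw [← Finset.card_filter]
  congr 1
  ext S
  simp only [Finset.mem_filter, Finset.mem_powersetCard, Finset.subset_univ, true_and]
  rw [Finset.subset_compl_iff_disjoint_right]
  tauto

theorem prs_card (τ t : ℕ) : (prs V τ t).card =
    (Fintype.card V).choose τ * (Fintype.card V - τ).choose t := by
  have h1 := prs_count (V := V) τ t (fun _ _ => True)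
  simp only [Finset.filter_true] at h1
  rw [h1]
  have h2 : ∀ S ∈ Finset.powersetCard τ (Finset.univ : Finset V),
      (Finset.powersetCard t Sᶜ).card = (Fintype.card V - τ).choose t := by
    intro S hS
    rw [Finset.card_powersetCard, Finset.card_compl, (Finset.mem_powersetCard.mp hS).2]
  rw [Finset.sum_congr rfl h2, Finset.sum_const, Finset.card_powersetCard, Finset.card_univ,
    smul_eq_mul]

theorem prs_card2 (τ t : ℕ) : (prs V τ t).card =
    (Fintype.card V).choose t * (Fintype.card V - t).choose τ := by
  have h1 := prs_count2 (V := V) τ t (fun _ _ => True)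
  simp only [Finset.filter_true] at h1
  rw [h1]
  have h2 : ∀ S ∈ Finset.powersetCard t (Finset.univ : Finset V),
      (Finset.powersetCard τ Sᶜ).card = (Fintype.card V - t).choose τ := by
    intro S hS
    rw [Finset.card_powersetCard, Finset.card_compl, (Finset.mem_powersetCard.mp hS).2]
  rw [Finset.sum_congr rfl h2, Finset.sum_const, Finset.card_powersetCard, Finset.card_univ,
    smul_eq_mul]

/-- Condition on the first set. -/
theorem prs_fst (τ t : ℕ) (p : Finset V → Prop) [DecidablePred p] :
    ((prs V τ t).filter (fun z => p z.1)).card =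
      ((Finset.powersetCard τ (Finset.univ : Finset V)).filter p).card *
        (Fintype.card V - τ).choose t := by
  rw [prs_count τ t (fun S _ => p S)]
  have h2 : ∀ S ∈ Finset.powersetCard τ (Finset.univ : Finset V),
      ((Finset.powersetCard t Sᶜ).filter (fun _ => p S)).card =
        if p S then (Fintype.card V - τ).choose t else 0 := by
    intro S hS
    by_cases h : p S
    · simp only [h, Finset.filter_true, if_true]
      rw [Finset.card_powersetCard, Finset.card_compl, (Finset.mem_powersetCard.mp hS).2]
    · simp only [h, Finset.filter_false, if_false, Finset.card_empty]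
  rw [Finset.sum_congr rfl h2, ← Finset.sum_filter, Finset.sum_const, smul_eq_mul]

/-- Condition on the second set. -/
theorem prs_snd (τ t : ℕ) (p : Finset V → Prop) [DecidablePred p] :
    ((prs V τ t).filter (fun z => p z.2)).card =
      ((Finset.powersetCard t (Finset.univ : Finset V)).filter p).card *
        (Fintype.card V - t).choose τ := by
  rw [prs_count2 τ t (fun _ S => p S)]
  have h2 : ∀ S ∈ Finset.powersetCard t (Finset.univ : Finset V),
      ((Finset.powersetCard τ Sᶜ).filter (fun _ => p S)).card =
        if p S then (Fintype.card V - t).choose τ else 0 := by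
    intro S hS
    by_cases h : p S
    · simp only [h, Finset.filter_true, if_true]
      rw [Finset.card_powersetCard, Finset.card_compl, (Finset.mem_powersetCard.mp hS).2]
    · simp only [h, Finset.filter_false, if_false, Finset.card_empty]
  rw [Finset.sum_congr rfl h2, ← Finset.sum_filter, Finset.sum_const, smul_eq_mul]

/-- Pairs meeting a word in `i` and `j` points. -/
theorem prs_meet (x : Finset V) (τ t i j w : ℕ) (P R : ℝ) (hx : x.card = w)
    (hi : i ≤ τ) (hj : j ≤ t) (hR0 : 0 ≤ R)
    (hP : P * ((Fintype.card V).choose τ : ℝ) ≤ (hyp w (Fintype.card V - w) τ i : ℝ))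
    (hR : R * ((Fintype.card V - τ).choose t : ℝ) ≤
      (hyp (w - i) (Fintype.card V - w - (τ - i)) t j : ℝ)) :
    P * R * ((prs V τ t).card : ℝ) ≤
      (((prs V τ t).filter (fun z => (x ∩ z.1).card = i ∧ (x ∩ z.2).card = j)).card : ℝ) := by
  classical
  rw [prs_count τ t (fun S T => (x ∩ S).card = i ∧ (x ∩ T).card = j)]
  push_cast
  set J := Finset.powersetCard τ (Finset.univ : Finset V) with hJ
  have h1 : ∀ S ∈ J.filter (fun S => (x ∩ S).card = i),
      R * ((Fintype.card V - τ).choose t : ℝ) ≤
        (((Finset.powersetCard t Sᶜ).filter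
          (fun T => (x ∩ S).card = i ∧ (x ∩ T).card = j)).card : ℝ) := by
    intro S hS
    rw [Finset.mem_filter, hJ, Finset.mem_powersetCard] at hS
    have h2 : (Finset.powersetCard t Sᶜ).filter
        (fun T => (x ∩ S).card = i ∧ (x ∩ T).card = j) =
        (Finset.powersetCard t Sᶜ).filter (fun T => (x ∩ T).card = j) := by
      apply Finset.filter_congr
      intro T _
      exact ⟨fun h => h.2, fun h => ⟨hS.2, h⟩⟩
    rw [h2]
    refine hR.trans ?_
    have h3 := meet_in Sᶜ x t j hj
    have h4 : (x ∩ Sᶜ).card = w - i := by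
      have h5 := Finset.card_sdiff_add_card_inter x S
      have h6 : x ∩ Sᶜ = x \ S := by
        ext v
        simp
      rw [h6]
      omega
    have h5 : (Sᶜ \ x).card = Fintype.card V - w - (τ - i) := by
      have h6 := Finset.card_sdiff_add_card_inter Sᶜ x
      rw [Finset.inter_comm Sᶜ x, h4, Finset.card_compl, hS.1.2] at h6
      have h7 := Finset.card_le_card (Finset.inter_subset_left (s₁ := x) (s₂ := S))
      have h8 := Finset.card_union_add_card_inter x S
      have h9 := Finset.card_le_univ (x ∪ S)
      omega
    rw [h4, h5] at h3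
    unfold hyp
    exact_mod_cast h3
  have h2 : ∑ S ∈ J.filter (fun S => (x ∩ S).card = i),
      (((Finset.powersetCard t Sᶜ).filter
          (fun T => (x ∩ S).card = i ∧ (x ∩ T).card = j)).card : ℝ) ≤
      ∑ S ∈ J, (((Finset.powersetCard t Sᶜ).filter
          (fun T => (x ∩ S).card = i ∧ (x ∩ T).card = j)).card : ℝ) := by
    apply Finset.sum_le_sum_of_subset_of_nonneg (Finset.filter_subset _ _)
    intro S _ _
    positivity
  refine le_trans ?_ h2
  refine le_trans ?_ (Finset.sum_le_sum h1)
  rw [Finset.sum_const, nsmul_eq_mul, prs_card]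
  push_cast
  have h3 : P * ((Fintype.card V).choose τ : ℝ) ≤
      ((J.filter (fun S => (x ∩ S).card = i)).card : ℝ) := by
    refine hP.trans ?_
    have h4 := card_meet x τ i hi
    rw [hx] at h4
    unfold hyp
    exact_mod_cast h4
  have h4 : 0 ≤ R * ((Fintype.card V - τ).choose t : ℝ) := by positivity
  have h5 := mul_le_mul_of_nonneg_right h3 h4
  linarith [(by ring : P * ((Fintype.card V).choose τ : ℝ) *
    (R * ((Fintype.card V - τ).choose t : ℝ)) = P * R * (((Fintype.card V).choose τ : ℝ) *
      ((Fintype.card V - τ).choose t : ℝ)))]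

end Pool.Agent.Hhelper49.CWE
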