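import Pool.Agent.Hhelper49.CWE.Core

set_option autoImplicit false

/-! Criterion for the comparison of the weights `w₁ < n/4` and `w₂`. -/

namespace Pool.Agent.Hhelper49.CWE

open Pool.Agent.Hhelper49.CWC Pool.Agent.Hhelper49.CWD

open Classical in
/-- The number of admissible flips of an average word is at least one. -/
theorem total (n w₁ τ i D : ℕ) (eps : ℝ) (hε : 0 ≤ eps) (hw : w₁ ≤ n)
    (hw4 : (w₁ : ℝ) / n + eps ≤ 1 / 4) (hτ1 : 1 ≤ τ) (hτn : τ < n)
    (hi : i = (w₁ + 1) * (τ + 1) / (n + 2)) (hiw : i ≤ w₁) (F : Finset (Finset (Fin n)))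
    (hFn : F.card = n) (hF : ∀ T ∈ F, T.card = τ)
    (hF2 : ∀ T ∈ F, ∀ T' ∈ F, T ≠ T' → D ≤ (symmDiff T T').card)
    (hbig : 8 * (4 * √(n : ℝ) + 1) ≤ 3 * n)
    (hbad : (n : ℝ) ^ 2 * Real.exp (-(eps ^ 2 * D / 2)) ≤ 1) :
    n.choose w₁ ≤ ∑ x ∈ Finset.powersetCard w₁ (Finset.univ : Finset (Fin n)),
      (F.filter (fun T => Ok F i x T)).card := by
  have hn : 0 < n := by omega
  have hnR : (0 : ℝ) < n := by exact_mod_cast hn
  set J := Finset.powersetCard w₁ (Finset.univ : Finset (Fin n)) with hJ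
  have hcomm : ∑ x ∈ J, (F.filter (fun T => Ok F i x T)).card =
      ∑ T ∈ F, (J.filter (fun x => Ok F i x T)).card := by
    simp_rw [Finset.card_filter]
    rw [Finset.sum_comm]
  set M : ℝ := (n.choose w₁ : ℝ) with hM
  have hMpos : 0 ≤ M := Nat.cast_nonneg _
  set q : ℝ := Real.exp (-(eps ^ 2 * D / 2)) with hq
  set B : Finset (Fin n) → Finset (Fin n) → Finset (Finset (Fin n)) := fun T T' =>
    J.filter (fun x => ((symmDiff T T').card : ℝ) / 4 ≤ ((x ∩ symmDiff T T').card : ℝ)) with hB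
  have hBle : ∀ T ∈ F, ∀ T' ∈ F, T' ≠ T → ((B T T').card : ℝ) ≤ M * q := by
    intro T hT T' hT' hne
    have h1 := tail (symmDiff T T') w₁ (by rw [Fintype.card_fin]; exact hw)
      (by rw [Fintype.card_fin]; exact hn) eps (((symmDiff T T').card : ℝ) / 4) hε
      (by
        rw [Fintype.card_fin]
        have : (0 : ℝ) ≤ ((symmDiff T T').card : ℝ) := Nat.cast_nonneg _
        nlinarith)
    rw [Fintype.card_fin] at h1
    refine h1.trans (mul_le_mul_of_nonneg_left (Real.exp_le_exp.mpr ?_) hMpos)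
    have h2 : (D : ℝ) ≤ ((symmDiff T T').card : ℝ) := by
      exact_mod_cast hF2 T hT T' hT' (fun h => hne h.symm)
    have h3 : eps ^ 2 * (D : ℝ) ≤ eps ^ 2 * ((symmDiff T T').card : ℝ) :=
      mul_le_mul_of_nonneg_left h2 (by positivity)
    linarith
  have hmode : ∀ T ∈ F, 3 / 4 * M ≤
      (4 * √(n : ℝ) + 1) * ((J.filter (fun x => (x ∩ T).card = i)).card : ℝ) := by
    intro T hT
    have h1 := card_meet T w₁ i hiw
    rw [Fintype.card_fin, hF T hT] at h1
    have h2 : (J.filter (fun x => (T ∩ x).card = i)) = (J.filter (fun x => (x ∩ T).card = i)) := by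
      apply Finset.filter_congr
      intro x _
      rw [Finset.inter_comm]
    rw [← hJ, h2] at h1
    have h3 := mode_large2 τ (n - τ) w₁ hτ1 (by omega) (by omega) (n : ℝ) hnR
      (by
        have h4 : ((τ : ℝ) + ((n - τ : ℕ) : ℝ)) = n := by
          rw [Nat.cast_sub hτn.le]
          ring
        rw [h4, div_le_iff₀ hnR]
        have h5 : (τ : ℝ) ≤ n := by exact_mod_cast hτn.le
        have h6 : (w₁ : ℝ) ≤ n := by exact_mod_cast hw
        exact mul_le_mul h5 h6 (Nat.cast_nonneg _) hnR.le)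
    have e1 : τ + (n - τ) = n := by omega
    rw [e1] at h3
    have e2 : (τ + 1) * (w₁ + 1) / (n + 2) = i := by rw [hi, mul_comm]
    rw [e2] at h3
    refine h3.trans (mul_le_mul_of_nonneg_left ?_ (by positivity))
    unfold hyp
    exact_mod_cast h1
  have hT : ∀ T ∈ F, ((J.filter (fun x => (x ∩ T).card = i)).card : ℝ) ≤
      ((J.filter (fun x => Ok F i x T)).card : ℝ) + n * (M * q) := by
    intro T hT
    have hsub : J.filter (fun x => (x ∩ T).card = i) ⊆
        (J.filter (fun x => Ok F i x T)) ∪ (F.erase T).biUnion (fun T' => B T T') := by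
      intro x hx
      rw [Finset.mem_filter] at hx
      rw [Finset.mem_union, Finset.mem_filter, Finset.mem_biUnion]
      by_cases hok : Ok F i x T
      · exact Or.inl ⟨hx.1, hok⟩
      · right
        unfold Ok at hok
        push Not at hok
        obtain ⟨T', hT', hne, hlt⟩ := hok hx.2
        refine ⟨T', Finset.mem_erase.mpr ⟨hne, hT'⟩, ?_⟩
        rw [hB, Finset.mem_filter]
        refine ⟨hx.1, ?_⟩
        have h1 : ((symmDiff T T').card : ℝ) ≤ 4 * ((x ∩ symmDiff T T').card : ℝ) := by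
          exact_mod_cast hlt.le
        linarith
    have h1 := (Finset.card_le_card hsub).trans (Finset.card_union_le _ _)
    have h2 : ((F.erase T).biUnion (fun T' => B T T')).card ≤ ∑ T' ∈ F.erase T, (B T T').card :=
      Finset.card_biUnion_le
    have h3 : ((∑ T' ∈ F.erase T, (B T T').card : ℕ) : ℝ) ≤ n * (M * q) := by
      push_cast
      calc ∑ T' ∈ F.erase T, ((B T T').card : ℝ) ≤ ∑ _T' ∈ F.erase T, M * q := by
            apply Finset.sum_le_sum
            intro T' hT'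
            rw [Finset.mem_erase] at hT'
            exact hBle T hT T' hT'.2 hT'.1
        _ = ((F.erase T).card : ℝ) * (M * q) := by rw [Finset.sum_const, nsmul_eq_mul]
        _ ≤ n * (M * q) := by
            apply mul_le_mul_of_nonneg_right _ (by positivity)
            have : (F.erase T).card ≤ n :=
              (Finset.card_le_card (Finset.erase_subset _ _)).trans hFn.le
            exact_mod_cast this
    have h4 : ((J.filter (fun x => (x ∩ T).card = i)).card : ℝ) ≤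
        ((J.filter (fun x => Ok F i x T)).card : ℝ) +
          ((∑ T' ∈ F.erase T, (B T T').card : ℕ) : ℝ) := by
      exact_mod_cast h1.trans (Nat.add_le_add_left h2 _)
    linarith
  -- the sum
  have hc : (0 : ℝ) < 4 * √(n : ℝ) + 1 := by positivity
  have h1 : ∀ T ∈ F, 2 * M ≤ n * ((J.filter (fun x => Ok F i x T)).card : ℝ) + n * (n * (M * q)) := by
    intro T hTF
    have h2 := hmode T hTF
    have h3 := hT T hTF
    set a : ℝ := ((J.filter (fun x => (x ∩ T).card = i)).card : ℝ) with ha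
    have ha0 : 0 ≤ a := Nat.cast_nonneg _
    have h4 : 8 * ((4 * √(n : ℝ) + 1) * a) ≤ 3 * n * a := by
      calc 8 * ((4 * √(n : ℝ) + 1) * a) = (8 * (4 * √(n : ℝ) + 1)) * a := by ring
        _ ≤ 3 * n * a := mul_le_mul_of_nonneg_right hbig ha0
    have h5 : 2 * M ≤ n * a := by linarith
    have h6 : (n : ℝ) * a ≤ n * (((J.filter (fun x => Ok F i x T)).card : ℝ) + n * (M * q)) :=
      mul_le_mul_of_nonneg_left h3 hnR.le
    linarith
  have h2 : (n : ℝ) * (2 * M) ≤ n * ((∑ T ∈ F, (J.filter (fun x => Ok F i x T)).card : ℕ) : ℝ) +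
      n * (n * (n * (M * q))) := by
    push_cast
    rw [Finset.mul_sum]
    have h3 : ∑ T ∈ F, (2 * M) ≤ ∑ T ∈ F, ((n : ℝ) *
        ((J.filter (fun x => Ok F i x T)).card : ℝ) + n * (n * (M * q))) := Finset.sum_le_sum h1
    rw [Finset.sum_add_distrib, Finset.sum_const, Finset.sum_const, hFn, nsmul_eq_mul,
      nsmul_eq_mul] at h3
    exact h3
  have h3 : (n : ℝ) * (n * (M * q)) ≤ M := by
    calc (n : ℝ) * (n * (M * q)) = ((n : ℝ) ^ 2 * q) * M := by ring
      _ ≤ 1 * M := mul_le_mul_of_nonneg_right hbad hMpos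
      _ = M := one_mul M
  have h4 : M ≤ ((∑ T ∈ F, (J.filter (fun x => Ok F i x T)).card : ℕ) : ℝ) := by
    have h5 : (n : ℝ) * (2 * M) ≤ n *
        (((∑ T ∈ F, (J.filter (fun x => Ok F i x T)).card : ℕ) : ℝ) + M) := by
      have := mul_le_mul_of_nonneg_left h3 hnR.le
      linarith
    have h6 := le_of_mul_le_mul_left h5 hnR
    linarith
  rw [hcomm]
  rw [hM] at h4
  exact_mod_cast h4

/-- Criterion. -/
theorem crit (n d w₁ w₂ τ i D : ℕ) (eps lam : ℝ) (hd : 1 ≤ d) (hdD : d ≤ D) (hε : 0 ≤ eps)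
    (hl : 0 ≤ lam) (hw : w₁ ≤ n) (hw4 : (w₁ : ℝ) / n + eps ≤ 1 / 4) (hτ1 : 1 ≤ τ) (hτn : τ < n)
    (hi : i = (w₁ + 1) * (τ + 1) / (n + 2)) (hwi : w₂ + 2 * i = w₁ + τ)
    (hD : (D : ℝ) ≤ 2 * (τ * (1 - τ / n - lam)))
    (hK : (n : ℝ) ≤ Real.exp (lam ^ 2 * τ / 2))
    (hbig : 8 * (4 * √(n : ℝ) + 1) ≤ 3 * n)
    (hbad : (n : ℝ) ^ 2 * Real.exp (-(eps ^ 2 * D / 2)) ≤ 1) : Mono n d w₁ w₂ := by
  classical
  intro C hC hD2
  have hn : 0 < n := by omega
  obtain ⟨F, hFn, hF, hF2⟩ := exists_family n τ D n lam hn hτn.le hl hD hK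
  have hiw : i ≤ w₁ := by
    have h1 : i < w₁ + 1 := by
      rw [hi, Nat.div_lt_iff_lt_mul (by omega)]
      exact Nat.mul_lt_mul_of_pos_left (by omega) (by omega)
    omega
  have htot := total n w₁ τ i D eps hε hw hw4 hτ1 hτn hi hiw F hFn hF hF2 hbig hbad
  obtain ⟨σ, hσ⟩ := exists_perm_sum C (fun x => (F.filter (fun T => Ok F i x T)).card) w₁ hC
  rw [Fintype.card_fin] at hσ
  obtain ⟨hC1, hC2⟩ := act_code C σ w₁ d hC hD2
  obtain ⟨C', h1, h2, h3⟩ := core d w₁ w₂ τ i hd hwi F (C.image (act σ)) hF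
    (fun T hT T' hT' hne => hdD.trans (hF2 T hT T' hT' hne)) hC1 hC2
  have hinj : ∀ s ∈ C, ∀ t ∈ C, act σ s = act σ t → s = t :=
    fun s _ t _ h => Finset.map_injective _ h
  rw [Finset.sum_image hinj] at h1
  have hpos : 0 < n.choose w₁ := Nat.choose_pos hw
  have h4 : C.card * n.choose w₁ ≤ C'.card * n.choose w₁ := by
    rw [h1]
    exact (Nat.mul_le_mul_left _ htot).trans hσ
  exact shrink C C' (Nat.le_of_mul_le_mul_right h4 hpos) h2 h3

end Pool.Agent.Hhelper49.CWE
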