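import Pool.Agent.Hhelper49.CWE.Add

set_option autoImplicit false

/-! Adding one point to every word: relations on a small set of points. -/

namespace Pool.Agent.Hhelper49.CWE

open Pool.Agent.Hhelper49.CWC Pool.Agent.Hhelper49.CWD

/-- The words of weight `w` with a given trace. -/
theorem trace_card_le {V : Type*} [DecidableEq V] [Fintype V] (W S : Finset V) (hS : S ⊆ W)
    (w : ℕ) (hw : S.card ≤ w) :
    (Fintype.card V - W.card).choose (w - S.card) ≤
      ((Finset.powersetCard w (Finset.univ : Finset V)).filter (fun x => W ∩ x = S)).card := by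
  rw [← Finset.card_compl, ← Finset.card_powersetCard]
  have hdis : ∀ y ∈ Finset.powersetCard (w - S.card) Wᶜ, Disjoint W y := by
    intro y hy
    rw [Finset.mem_powersetCard] at hy
    rw [Finset.disjoint_left]
    intro a ha hay
    exact Finset.mem_compl.mp (hy.1 hay) ha
  apply Finset.card_le_card_of_injOn (fun y => S ∪ y)
  · intro y hy
    have hd := hdis y hy
    rw [Finset.mem_coe, Finset.mem_powersetCard] at hy
    rw [Finset.mem_coe, Finset.mem_filter, Finset.mem_powersetCard]
    refine ⟨⟨Finset.subset_univ _, ?_⟩, ?_⟩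
    · rw [Finset.card_union_of_disjoint (hd.mono_left hS), hy.2]
      omega
    · rw [Finset.inter_union_distrib_left, Finset.inter_eq_right.mpr hS,
        Finset.disjoint_iff_inter_eq_empty.mp hd, Finset.union_empty]
  · intro y hy y' hy' h
    have hd := (hdis y hy).mono_left hS
    have hd' := (hdis y' hy').mono_left hS
    have h1 : S ∪ y = S ∪ y' := h
    ext a
    have h2 : a ∈ S ∪ y ↔ a ∈ S ∪ y' := by rw [h1]
    rw [Finset.mem_union, Finset.mem_union] at h2
    constructor
    · intro ha
      rcases h2.mp (Or.inr ha) with h3 | h3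
      · exact absurd ha (Finset.disjoint_left.mp hd h3)
      · exact h3
    · intro ha
      rcases h2.mpr (Or.inr ha) with h3 | h3
      · exact absurd ha (Finset.disjoint_left.mp hd' h3)
      · exact h3

theorem symm_split {V : Type*} [DecidableEq V] (W x y : Finset V) :
    (symmDiff x y).card = (symmDiff (x \ W) (y \ W)).card + (symmDiff (x ∩ W) (y ∩ W)).card := by
  rw [← Finset.card_sdiff_add_card_inter (symmDiff x y) W]
  congr 2
  · ext a
    simp only [Finset.mem_sdiff, Finset.mem_symmDiff]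
    tauto
  · ext a
    simp only [Finset.mem_inter, Finset.mem_symmDiff]
    tauto

theorem map_symm {U V : Type*} [DecidableEq U] [DecidableEq V] (e : U ↪ V) (s t : Finset U) :
    (symmDiff (s.map e) (t.map e)).card = (symmDiff s t).card := by
  rw [← Finset.card_map e]
  congr 1
  ext a
  simp only [Finset.mem_symmDiff, Finset.mem_map]
  constructor
  · rintro (⟨⟨b, hb, rfl⟩, h⟩ | ⟨⟨b, hb, rfl⟩, h⟩)
    · exact ⟨b, Or.inl ⟨hb, fun h1 => h ⟨b, h1, rfl⟩⟩, rfl⟩
    · exact ⟨b, Or.inr ⟨hb, fun h1 => h ⟨b, h1, rfl⟩⟩, rfl⟩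
  · rintro ⟨b, ⟨hb, h⟩ | ⟨hb, h⟩, rfl⟩
    · refine Or.inl ⟨⟨b, hb, rfl⟩, ?_⟩
      rintro ⟨b', h1, h2⟩
      rw [e.injective h2] at h1
      exact h h1
    · refine Or.inr ⟨⟨b, hb, rfl⟩, ?_⟩
      rintro ⟨b', h1, h2⟩
      rw [e.injective h2] at h1
      exact h h1

/-- The trace of a word on the first `k` points is replaced by another one: `F` is a family of
traces on `k` points, and `g` raises the weights of the traces in `F` by `w₂ - w₁` and does not
decrease their distances. -/
theorem traces (n d w₁ w₂ k : ℕ) (hd : 1 ≤ d) (h12 : w₁ ≤ w₂) (hk : k ≤ n)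
    (F : Finset (Finset (Fin k))) (g : Finset (Fin k) → Finset (Fin k))
    (hF : ∀ s ∈ F, s.card ≤ w₁ ∧ (g s).card = s.card + (w₂ - w₁))
    (hg : ∀ s ∈ F, ∀ t ∈ F, (symmDiff s t).card ≤ (symmDiff (g s) (g t)).card)
    (C : Finset (Finset (Fin n))) (hC : ∀ x ∈ C, x.card = w₁)
    (hD : ∀ x ∈ C, ∀ y ∈ C, x ≠ y → d ≤ (symmDiff x y).card) :
    ∃ C' : Finset (Finset (Fin n)),
      C.card * (∑ s ∈ F, (n - k).choose (w₁ - s.card)) ≤ C'.card * n.choose w₁ ∧
      C'.card ≤ C.card ∧ (∀ x ∈ C', x.card = w₂) ∧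
      (∀ x ∈ C', ∀ y ∈ C', x ≠ y → d ≤ (symmDiff x y).card) := by
  classical
  set e : Fin k ↪ Fin n := (Fin.castLEEmb hk) with he
  set W : Finset (Fin n) := Finset.univ.map e with hW
  set tr : Finset (Fin n) → Finset (Fin k) := fun x => Finset.univ.filter (fun i => e i ∈ x)
    with htr
  have mtr : ∀ x i, i ∈ tr x ↔ e i ∈ x := by
    intro x i
    rw [htr]
    simp
  have htrW : ∀ x, x ∩ W = (tr x).map e := by
    intro x
    ext a
    rw [Finset.mem_inter, hW, Finset.mem_map, Finset.mem_map]
    constructor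
    · rintro ⟨h1, i, _, rfl⟩
      exact ⟨i, (mtr x i).mpr h1, rfl⟩
    · rintro ⟨i, h1, rfl⟩
      exact ⟨(mtr x i).mp h1, i, Finset.mem_univ i, rfl⟩
  set J := Finset.powersetCard w₁ (Finset.univ : Finset (Fin n)) with hJ
  set X := J.filter (fun x => tr x ∈ F) with hX
  have hXc : (∑ s ∈ F, (n - k).choose (w₁ - s.card)) ≤ X.card := by
    rw [Finset.card_eq_sum_card_fiberwise (f := tr) (t := F) (by
      intro x hx
      exact (Finset.mem_filter.mp hx).2)]
    apply Finset.sum_le_sum
    intro s hs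
    have hsw : s.card ≤ w₁ := (hF s hs).1
    have h1 := trace_card_le W (s.map e)
      (Finset.map_subset_map.mpr (Finset.subset_univ s)) w₁ (by rw [Finset.card_map]; exact hsw)
    rw [hW, Finset.card_map, Finset.card_map, Finset.card_univ, Fintype.card_fin,
      Fintype.card_fin] at h1
    refine h1.trans (Finset.card_le_card ?_)
    intro x hx
    rw [Finset.mem_filter] at hx
    have h2 : tr x = s := by
      have h3 := htrW x
      rw [hW, Finset.inter_comm, hx.2] at h3
      exact (Finset.map_injective e h3).symm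
    rw [Finset.mem_filter, hX, Finset.mem_filter, h2]
    exact ⟨⟨hx.1, hs⟩, rfl⟩
  obtain ⟨σ, hσ⟩ := exists_perm C X w₁ hC (by
    intro x hx
    rw [hX, Finset.mem_filter, hJ, Finset.mem_powersetCard] at hx
    exact hx.1.2)
  rw [Fintype.card_fin, card_filter_act] at hσ
  obtain ⟨hC1, hC2⟩ := act_code C σ w₁ d hC hD
  set C₁ := (C.image (act σ)).filter (fun s => s ∈ X) with hC₁
  set G : Finset (Fin n) → Finset (Fin n) := fun x => (x \ W) ∪ (g (tr x)).map e with hG
  have hGo : ∀ x, G x \ W = x \ W := by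
    intro x
    ext a
    simp only [hG, Finset.mem_sdiff, Finset.mem_union, hW, Finset.mem_map, Finset.mem_univ,
      true_and]
    constructor
    · rintro ⟨h1 | ⟨i, _, rfl⟩, h2⟩
      · exact h1
      · exact absurd ⟨i, rfl⟩ h2
    · intro h1
      exact ⟨Or.inl h1, h1.2⟩
  have hGi : ∀ x, G x ∩ W = (g (tr x)).map e := by
    intro x
    ext a
    simp only [hG, Finset.mem_inter, Finset.mem_union, Finset.mem_sdiff, hW, Finset.mem_map,
      Finset.mem_univ, true_and]
    constructor
    · rintro ⟨h1 | h1, h2⟩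
      · exact absurd h2 h1.2
      · exact h1
    · rintro ⟨i, h1, rfl⟩
      exact ⟨Or.inr ⟨i, h1, rfl⟩, i, rfl⟩
  have hdist : ∀ x ∈ C₁, ∀ y ∈ C₁, x ≠ y → d ≤ (symmDiff (G x) (G y)).card := by
    intro x hx y hy hne
    have h1 := hC2 x (Finset.mem_filter.mp hx).1 y (Finset.mem_filter.mp hy).1 hne
    have h2 := symm_split W x y
    have h3 := symm_split W (G x) (G y)
    rw [hGo, hGo, hGi, hGi, map_symm] at h3
    rw [htrW, htrW, map_symm] at h2
    have h4 := hg (tr x) (Finset.mem_filter.mp (Finset.mem_filter.mp hx).2).2 (tr y)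
      (Finset.mem_filter.mp (Finset.mem_filter.mp hy).2).2
    omega
  have hinj : Set.InjOn G (C₁ : Set _) := by
    intro x hx y hy h
    by_contra hne
    have h3 := hdist x hx y hy hne
    rw [h, symmDiff_self] at h3
    simp at h3
    omega
  refine ⟨C₁.image G, ?_, ?_, ?_, ?_⟩
  · rw [Finset.card_image_of_injOn hinj]
    exact (Nat.mul_le_mul_left _ hXc).trans hσ
  · exact Finset.card_image_le.trans
      ((Finset.card_le_card (Finset.filter_subset _ _)).trans Finset.card_image_le)
  · intro z hz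
    obtain ⟨x, hx, rfl⟩ := Finset.mem_image.mp hz
    have hxF := hF (tr x) (Finset.mem_filter.mp (Finset.mem_filter.mp hx).2).2
    have h1 := hC1 x (Finset.mem_filter.mp hx).1
    rw [← Finset.card_sdiff_add_card_inter x W, htrW, Finset.card_map] at h1
    rw [← Finset.card_sdiff_add_card_inter (G x) W, hGo, hGi, Finset.card_map]
    omega
  · intro z hz z' hz' hne
    obtain ⟨x, hx, rfl⟩ := Finset.mem_image.mp hz
    obtain ⟨y, hy, rfl⟩ := Finset.mem_image.mp hz'
    apply hdist x hx y hy
    rintro rfl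
    exact hne rfl

end Pool.Agent.Hhelper49.CWE
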